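import Pool.Agent.StripSin.Grid

/-! # Interval data of the arcs in the first quadrant -/

set_option autoImplicit false

open Real Set

namespace Pool.Agent.StripSin

theorem pk1_nonpos {t : ℝ} (h0 : 0 ≤ t) (h1 : t ≤ 1.1548) : pk1 t ≤ 0 := by
  rcases le_total t 1 with h | h
  · unfold pk1
    have h2 : ∫ x in (0 : ℝ)..1, (1 + cos (π * x)) * (-(sin (π * x * t) * (π * x))) ≤
        ∫ x in (0 : ℝ)..1, (0 : ℝ) := by
      apply intervalIntegral.integral_mono_on zero_le_one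
      · exact Continuous.intervalIntegrable (by fun_prop) _ _
      · exact intervalIntegrable_const
      · intro x hx
        have h3 : 0 ≤ sin (π * x * t) := by
          apply sin_nonneg_of_nonneg_of_le_pi
          · exact mul_nonneg (mul_nonneg pi_pos.le hx.1) h0
          · have h5 : x * t ≤ 1 := by
              calc x * t ≤ 1 * 1 := mul_le_mul hx.2 h h0 zero_le_one
                _ = 1 := one_mul 1
            calc π * x * t = π * (x * t) := by ring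
              _ ≤ π * 1 := mul_le_mul_of_nonneg_left h5 pi_pos.le
              _ = π := mul_one π
        have h4 := mul_nonneg (one_add_cos_nonneg x) (mul_nonneg h3 (mul_nonneg pi_pos.le hx.1))
        linarith
    simpa using h2
  · have h2 := pk1_lip t 1
    rw [pk1_one, abs_le] at h2
    rw [abs_of_nonneg (by linarith : 0 ≤ t - 1)] at h2
    linarith [h2.2]

theorem pk_anti {a b : ℝ} (h0 : 0 ≤ a) (h1 : a ≤ b) (h2 : b ≤ 1.1548) : pk b ≤ pk a := by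
  have h : AntitoneOn pk (Icc 0 1.1548) := by
    apply antitoneOn_of_deriv_nonpos (convex_Icc _ _)
    · exact fun x _ => (hasDerivAt_pk x).continuousAt.continuousWithinAt
    · exact fun x _ => (hasDerivAt_pk x).differentiableAt.differentiableWithinAt
    · intro x hx
      rw [interior_Icc] at hx
      rw [(hasDerivAt_pk x).deriv]
      exact pk1_nonpos hx.1.le hx.2.le
  exact h ⟨h0, h1.trans h2⟩ ⟨h0.trans h1, h2⟩ h1

theorem om_mul_le {s c : ℝ} (h0 : 0 ≤ s) (h : 1.1547006 * s ≤ c) : om * s ≤ c * π := by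
  rw [om_eq]
  have h1 : ih * s ≤ c := by
    have := mul_le_mul_of_nonneg_right ih_lt.le h0
    linarith
  nlinarith [pi_pos]

theorem le_om_mul {s c : ℝ} (h0 : 0 ≤ s) (h : c ≤ 1.1547005 * s) : c * π ≤ om * s := by
  rw [om_eq]
  have h1 : c ≤ ih * s := by
    have := mul_le_mul_of_nonneg_right ih_gt.le h0
    linarith
  nlinarith [pi_pos]

theorem cos_dec {s P Q C S s' P' Q' C' S' : ℝ} (g : Gr s P Q C S) (g' : Gr s' P' Q' C' S')
    (h : 1.1547006 * s' ≤ 1) {x : ℝ} (h1 : s ≤ x) (h2 : x ≤ s') :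
    C' - 3 / 10000000 ≤ cos (om * x) ∧ cos (om * x) ≤ C + 3 / 10000000 := by
  have hx : 0 ≤ x := g.s0.trans h1
  have e1 := g.hc
  have e2 := g'.hc
  rw [abs_le] at e1 e2
  have h3 := om_mul_le g'.s0 h
  rw [one_mul] at h3
  have a1 : om * s ≤ om * x := mul_le_mul_of_nonneg_left h1 om_pos.le
  have a2 : om * x ≤ om * s' := mul_le_mul_of_nonneg_left h2 om_pos.le
  have b1 := cos_le_cos_of_nonneg_of_le_pi (mul_nonneg om_pos.le g.s0) (a2.trans h3) a1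
  have b2 := cos_le_cos_of_nonneg_of_le_pi (mul_nonneg om_pos.le hx) h3 a2
  constructor <;> linarith [e1.1, e1.2, e2.1, e2.2]

theorem cos_inc {s P Q C S s' P' Q' C' S' : ℝ} (g : Gr s P Q C S) (g' : Gr s' P' Q' C' S')
    (h : 1 ≤ 1.1547005 * s) {x : ℝ} (h1 : s ≤ x) (h2 : x ≤ s') :
    C - 3 / 10000000 ≤ cos (om * x) ∧ cos (om * x) ≤ C' + 3 / 10000000 := by
  have e1 := g.hc
  have e2 := g'.hc
  rw [abs_le] at e1 e2
  have h3 := le_om_mul g.s0 h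
  rw [one_mul] at h3
  have h4 := om_mul_le (c := 2) g'.s0 (by linarith [g'.s1])
  have a1 : om * s ≤ om * x := mul_le_mul_of_nonneg_left h1 om_pos.le
  have a2 : om * x ≤ om * s' := mul_le_mul_of_nonneg_left h2 om_pos.le
  have b1 := cos_le_cos_of_nonneg_of_le_pi (x := 2 * π - om * x) (y := 2 * π - om * s)
    (by linarith) (by linarith) (by linarith)
  have b2 := cos_le_cos_of_nonneg_of_le_pi (x := 2 * π - om * s') (y := 2 * π - om * x)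
    (by linarith) (by linarith) (by linarith)
  rw [cos_two_pi_sub, cos_two_pi_sub] at b1 b2
  constructor <;> linarith [e1.1, e1.2, e2.1, e2.2]

theorem cos_cross {s P Q C S s' P' Q' C' S' : ℝ} (g : Gr s P Q C S) (g' : Gr s' P' Q' C' S')
    {x : ℝ} (h1 : s ≤ x) (h2 : x ≤ s') (M : ℝ) (hM : C ≤ M) (hM' : C' ≤ M) :
    -1 ≤ cos (om * x) ∧ cos (om * x) ≤ M + 3 / 10000000 := by
  refine ⟨neg_one_le_cos _, ?_⟩
  have hx : 0 ≤ x := g.s0.trans h1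
  have e1 := g.hc
  have e2 := g'.hc
  rw [abs_le] at e1 e2
  have a1 : om * s ≤ om * x := mul_le_mul_of_nonneg_left h1 om_pos.le
  have a2 : om * x ≤ om * s' := mul_le_mul_of_nonneg_left h2 om_pos.le
  rcases le_total (om * x) π with h | h
  · have b1 := cos_le_cos_of_nonneg_of_le_pi (mul_nonneg om_pos.le g.s0) h a1
    linarith [e1.2]
  · have h4 := om_mul_le (c := 2) g'.s0 (by linarith [g'.s1])
    have b2 := cos_le_cos_of_nonneg_of_le_pi (x := 2 * π - om * s') (y := 2 * π - om * x)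
      (by linarith) (by linarith) (by linarith)
    rw [cos_two_pi_sub, cos_two_pi_sub] at b2
    linarith [e2.2]

theorem sin_inc {s P Q C S s' P' Q' C' S' : ℝ} (g : Gr s P Q C S) (g' : Gr s' P' Q' C' S')
    (h : 1.1547006 * s' ≤ 1 / 2) {x : ℝ} (h1 : s ≤ x) (h2 : x ≤ s') :
    S - 3 / 10000000 ≤ sin (om * x) ∧ sin (om * x) ≤ S' + 3 / 10000000 := by
  have hx : 0 ≤ x := g.s0.trans h1
  have e1 := g.hs
  have e2 := g'.hs
  rw [abs_le] at e1 e2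
  have h3 := om_mul_le g'.s0 h
  have a0 : 0 ≤ om * s := mul_nonneg om_pos.le g.s0
  have a1 : om * s ≤ om * x := mul_le_mul_of_nonneg_left h1 om_pos.le
  have a2 : om * x ≤ om * s' := mul_le_mul_of_nonneg_left h2 om_pos.le
  have hpi := pi_pos
  have b1 := sin_le_sin_of_le_of_le_pi_div_two (x := om * s) (y := om * x)
    (by linarith) (by linarith) a1
  have b2 := sin_le_sin_of_le_of_le_pi_div_two (x := om * x) (y := om * s')
    (by linarith) (by linarith) a2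
  constructor <;> linarith [e1.1, e1.2, e2.1, e2.2]

theorem sin_anti_aux {x y : ℝ} (h0 : π / 2 ≤ x) (h1 : x ≤ y) (h2 : y ≤ 3 / 2 * π) :
    sin y ≤ sin x := by
  have b1 := cos_le_cos_of_nonneg_of_le_pi (x := x - π / 2) (y := y - π / 2)
    (by linarith) (by linarith) (by linarith)
  rwa [cos_sub_pi_div_two, cos_sub_pi_div_two] at b1

theorem sin_dec {s P Q C S s' P' Q' C' S' : ℝ} (g : Gr s P Q C S) (g' : Gr s' P' Q' C' S')
    (h : 1 / 2 ≤ 1.1547005 * s) {x : ℝ} (h1 : s ≤ x) (h2 : x ≤ s') :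
    S' - 3 / 10000000 ≤ sin (om * x) ∧ sin (om * x) ≤ S + 3 / 10000000 := by
  have e1 := g.hs
  have e2 := g'.hs
  rw [abs_le] at e1 e2
  have h3 := le_om_mul g.s0 h
  have h4 := om_mul_le (c := 3 / 2) g'.s0 (by linarith [g'.s1])
  have a1 : om * s ≤ om * x := mul_le_mul_of_nonneg_left h1 om_pos.le
  have a2 : om * x ≤ om * s' := mul_le_mul_of_nonneg_left h2 om_pos.le
  have b1 := sin_anti_aux (by linarith) a1 (by linarith)
  have b2 := sin_anti_aux (by linarith) a2 (by linarith)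
  constructor <;> linarith [e1.1, e1.2, e2.1, e2.2]

theorem sin_cross {s P Q C S s' P' Q' C' S' : ℝ} (g : Gr s P Q C S) (g' : Gr s' P' Q' C' S')
    {x : ℝ} (h1 : s ≤ x) (h2 : x ≤ s') (M : ℝ) (hM : M ≤ S) (hM' : M ≤ S') :
    M - 3 / 10000000 ≤ sin (om * x) ∧ sin (om * x) ≤ 1 := by
  refine ⟨?_, sin_le_one _⟩
  have hx : 0 ≤ x := g.s0.trans h1
  have e1 := g.hs
  have e2 := g'.hs
  rw [abs_le] at e1 e2
  have a0 : 0 ≤ om * s := mul_nonneg om_pos.le g.s0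
  have a1 : om * s ≤ om * x := mul_le_mul_of_nonneg_left h1 om_pos.le
  have a2 : om * x ≤ om * s' := mul_le_mul_of_nonneg_left h2 om_pos.le
  have hpi := pi_pos
  rcases le_total (om * x) (π / 2) with h | h
  · have b1 := sin_le_sin_of_le_of_le_pi_div_two (x := om * s) (y := om * x)
      (by linarith) (by linarith) a1
    linarith [e1.1]
  · have h4 := om_mul_le (c := 3 / 2) g'.s0 (by linarith [g'.s1])
    have b2 := sin_anti_aux h a2 (by linarith)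
    linarith [e2.1]

theorem pk1_cell {s P Q C S s' P' Q' C' S' : ℝ} (g : Gr s P Q C S) (g' : Gr s' P' Q' C' S')
    {x : ℝ} (h1 : s ≤ x) (h2 : x ≤ s') :
    (Q + Q') / 2 - (0.65 * 1.1547006 * (s' - s) + 15 / 100000) ≤ pk1 (ih * x) ∧
    pk1 (ih * x) ≤ (Q + Q') / 2 + (0.65 * 1.1547006 * (s' - s) + 15 / 100000) := by
  have e1 := g.hq
  have e2 := g'.hq
  have a1 := pk1_lip (ih * x) (ih * s)
  have a2 := pk1_lip (ih * x) (ih * s')
  have b1 : |ih * x - ih * s| = ih * (x - s) := by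
    rw [← mul_sub, abs_mul, abs_of_pos ih_pos, abs_of_nonneg (by linarith)]
  have b2 : |ih * x - ih * s'| = ih * (s' - x) := by
    rw [← mul_sub, abs_mul, abs_of_pos ih_pos, abs_sub_comm, abs_of_nonneg (by linarith)]
  rw [b1] at a1
  rw [b2] at a2
  have b3 : ih * (s' - s) ≤ 1.1547006 * (s' - s) :=
    mul_le_mul_of_nonneg_right ih_lt.le (by linarith)
  rw [abs_le] at e1 e2 a1 a2
  constructor <;> linarith [e1.1, e1.2, e2.1, e2.2, a1.1, a1.2, a2.1, a2.2]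

theorem pk_cell {s P Q C S s' P' Q' C' S' : ℝ} (g : Gr s P Q C S) (g' : Gr s' P' Q' C' S')
    {x : ℝ} (h1 : s ≤ x) (h2 : x ≤ s') :
    P' - 3 / 100000 ≤ pk (ih * x) ∧ pk (ih * x) ≤ P + 3 / 100000 := by
  have e1 := g.hp
  have e2 := g'.hp
  rw [abs_le] at e1 e2
  have hx : 0 ≤ x := g.s0.trans h1
  have a1 : ih * s ≤ ih * x := mul_le_mul_of_nonneg_left h1 ih_pos.le
  have a2 : ih * x ≤ ih * s' := mul_le_mul_of_nonneg_left h2 ih_pos.le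
  have a3 : ih * s' ≤ 1.1548 := by
    have := mul_le_mul_of_nonneg_left g'.s1 ih_pos.le
    have := ih_lt
    linarith
  have b1 := pk_anti (mul_nonneg ih_pos.le g.s0) a1 (a2.trans a3)
  have b2 := pk_anti (mul_nonneg ih_pos.le hx) a2 a3
  constructor <;> linarith [e1.1, e1.2, e2.1, e2.2]

theorem sq_le_aux {x y : ℝ} (h : x ^ 2 ≤ y ^ 2) (hy : 0 ≤ y) : x ≤ y := by
  by_contra hcon
  push Not at hcon
  nlinarith

/-- interval data, unit `10 ^ (-5)`, before multiplication -/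
structure Base where
  s0 : Int
  s1 : Int
  c0 : Int
  c1 : Int
  p0 : Int
  p1 : Int
  q0 : Int
  q1 : Int
  C0 : Int
  C1 : Int
  S0 : Int
  S1 : Int

structure InBase (b : Base) (u : ℝ × ℝ) : Prop where
  s0 : (b.s0 : ℝ) ≤ u.2 * 100000
  s1 : u.2 * 100000 ≤ b.s1
  c0 : (b.c0 : ℝ) ≤ u.1 * 100000
  c1 : u.1 * 100000 ≤ b.c1
  p0 : (b.p0 : ℝ) ≤ pk (ih * u.2) * 100000
  p1 : pk (ih * u.2) * 100000 ≤ b.p1
  q0 : (b.q0 : ℝ) ≤ pk1 (ih * u.2) * 100000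
  q1 : pk1 (ih * u.2) * 100000 ≤ b.q1
  C0 : (b.C0 : ℝ) ≤ cos (om * u.2) * 100000
  C1 : cos (om * u.2) * 100000 ≤ b.C1
  S0 : (b.S0 : ℝ) ≤ sin (om * u.2) * 100000
  S1 : sin (om * u.2) * 100000 ≤ b.S1

theorem cell {s P Q C S s' P' Q' C' S' : ℝ} (g : Gr s P Q C S) (g' : Gr s' P' Q' C' S')
    {u : ℝ × ℝ} (hu : u.1 ^ 2 + u.2 ^ 2 = 1) (h0 : 0 ≤ u.1) (h1 : s ≤ u.2) (h2 : u.2 ≤ s')
    {cl ch sl sh : ℝ} (hc : cl ≤ cos (om * u.2) ∧ cos (om * u.2) ≤ ch)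
    (hs : sl ≤ sin (om * u.2) ∧ sin (om * u.2) ≤ sh)
    {s0 s1 c0 c1 p0 p1 q0 q1 C0 C1 S0 S1 : Int}
    (k1 : (s0 : ℝ) ≤ s * 100000) (k2 : s' * 100000 ≤ (s1 : ℝ))
    (k3 : (c0 : ℝ) ^ 2 ≤ (1 - s' ^ 2) * 100000 ^ 2) (k3' : 0 ≤ (c0 : ℝ))
    (k4 : (1 - s ^ 2) * 100000 ^ 2 ≤ (c1 : ℝ) ^ 2) (k4' : 0 ≤ (c1 : ℝ))
    (k5 : (p0 : ℝ) ≤ (P' - 3 / 100000) * 100000) (k6 : (P + 3 / 100000) * 100000 ≤ (p1 : ℝ))
    (k7 : (q0 : ℝ) ≤ ((Q + Q') / 2 - (0.65 * 1.1547006 * (s' - s) + 15 / 100000)) * 100000)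
    (k8 : ((Q + Q') / 2 + (0.65 * 1.1547006 * (s' - s) + 15 / 100000)) * 100000 ≤ (q1 : ℝ))
    (k9 : (C0 : ℝ) ≤ cl * 100000) (k10 : ch * 100000 ≤ (C1 : ℝ))
    (k11 : (S0 : ℝ) ≤ sl * 100000) (k12 : sh * 100000 ≤ (S1 : ℝ)) :
    InBase ⟨s0, s1, c0, c1, p0, p1, q0, q1, C0, C1, S0, S1⟩ u := by
  have a1 := pk_cell g g' h1 h2
  have a2 := pk1_cell g g' h1 h2
  have hs0 := g.s0
  have hu0 : 0 ≤ u.2 := hs0.trans h1
  constructor
  · show (s0 : ℝ) ≤ _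
    linarith
  · show _ ≤ (s1 : ℝ)
    linarith
  · show (c0 : ℝ) ≤ _
    have h3 : (c0 : ℝ) ^ 2 ≤ (u.1 * 100000) ^ 2 := by
      have : u.2 ^ 2 ≤ s' ^ 2 := pow_le_pow_left₀ hu0 h2 2
      nlinarith
    exact sq_le_aux h3 (by positivity)
  · show _ ≤ (c1 : ℝ)
    have h3 : (u.1 * 100000) ^ 2 ≤ (c1 : ℝ) ^ 2 := by
      have : s ^ 2 ≤ u.2 ^ 2 := pow_le_pow_left₀ hs0 h1 2
      nlinarith
    exact sq_le_aux h3 k4'
  · show (p0 : ℝ) ≤ _
    linarith [a1.1]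
  · show _ ≤ (p1 : ℝ)
    linarith [a1.2]
  · show (q0 : ℝ) ≤ _
    linarith [a2.1]
  · show _ ≤ (q1 : ℝ)
    linarith [a2.2]
  · show (C0 : ℝ) ≤ _
    linarith [hc.1]
  · show _ ≤ (C1 : ℝ)
    linarith [hc.2]
  · show (S0 : ℝ) ≤ _
    linarith [hs.1]
  · show _ ≤ (S1 : ℝ)
    linarith [hs.2]

def base0 : Base := ⟨0, 5230, 99863, 100000, 99762, 100003, -7828, 53, 98205, 100001, -1, 18859⟩

theorem cell0 {u : ℝ × ℝ} (hu : u.1 ^ 2 + u.2 ^ 2 = 1) (h0 : 0 ≤ u.1) (h1 : 0 ≤ u.2)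
    (h2 : u.2 ≤ 0.0523) : InBase base0 u := by
  apply cell gr0 gr1 hu h0 h1 h2 (cos_dec gr0 gr1 (by norm_num) h1 h2)
    (sin_inc gr0 gr1 (by norm_num) h1 h2) <;> norm_num

def base1 : Base := ⟨5230, 10450, 99452, 99864, 99061, 99769, -15545, -7678, 92900, 98206, 18858, 37008⟩

theorem cell1 {u : ℝ × ℝ} (hu : u.1 ^ 2 + u.2 ^ 2 = 1) (h0 : 0 ≤ u.1) (h1 : 0.0523 ≤ u.2)
    (h2 : u.2 ≤ 0.1045) : InBase base1 u := by
  apply cell gr1 gr2 hu h0 h1 h2 (cos_dec gr1 gr2 (by norm_num) h1 h2)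
    (sin_inc gr1 gr2 (by norm_num) h1 h2) <;> norm_num

def base2 : Base := ⟨10450, 15640, 98769, 99453, 97911, 99068, -23087, -15265, 84332, 92901, 37006, 53741⟩

theorem cell2 {u : ℝ × ℝ} (hu : u.1 ^ 2 + u.2 ^ 2 = 1) (h0 : 0 ≤ u.1) (h1 : 0.1045 ≤ u.2)
    (h2 : u.2 ≤ 0.1564) : InBase base2 u := by
  apply cell gr2 gr3 hu h0 h1 h2 (cos_dec gr2 gr3 (by norm_num) h1 h2)
    (sin_inc gr2 gr3 (by norm_num) h1 h2) <;> norm_num

def base3 : Base := ⟨15640, 20790, 97815, 98770, 96335, 97918, -30359, -22598, 72883, 84333, 53740, 68469⟩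

theorem cell3 {u : ℝ × ℝ} (hu : u.1 ^ 2 + u.2 ^ 2 = 1) (h0 : 0 ≤ u.1) (h1 : 0.1564 ≤ u.2)
    (h2 : u.2 ≤ 0.2079) : InBase base3 u := by
  apply cell gr3 gr4 hu h0 h1 h2 (cos_dec gr3 gr4 (by norm_num) h1 h2)
    (sin_inc gr3 gr4 (by norm_num) h1 h2) <;> norm_num

def base4 : Base := ⟨20790, 25880, 96593, 97816, 94368, 96342, -37262, -29590, 59073, 72884, 68468, 80687⟩

theorem cell4 {u : ℝ × ℝ} (hu : u.1 ^ 2 + u.2 ^ 2 = 1) (h0 : 0 ≤ u.1) (h1 : 0.2079 ≤ u.2)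
    (h2 : u.2 ≤ 0.2588) : InBase base4 u := by
  apply cell gr4 gr5 hu h0 h1 h2 (cos_dec gr4 gr5 (by norm_num) h1 h2)
    (sin_inc gr4 gr5 (by norm_num) h1 h2) <;> norm_num

def base5 : Base := ⟨25880, 30900, 95106, 96594, 92051, 94375, -43720, -36153, 43484, 59074, 80686, 90051⟩

theorem cell5 {u : ℝ × ℝ} (hu : u.1 ^ 2 + u.2 ^ 2 = 1) (h0 : 0 ≤ u.1) (h1 : 0.2588 ≤ u.2)
    (h2 : u.2 ≤ 0.309) : InBase base5 u := by
  apply cell gr5 gr6 hu h0 h1 h2 (cos_dec gr5 gr6 (by norm_num) h1 h2)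
    (sin_inc gr5 gr6 (by norm_num) h1 h2) <;> norm_num

def base6 : Base := ⟨30900, 35840, 93356, 95107, 89428, 92058, -49671, -42225, 26737, 43485, 90050, 96360⟩

theorem cell6 {u : ℝ × ℝ} (hu : u.1 ^ 2 + u.2 ^ 2 = 1) (h0 : 0 ≤ u.1) (h1 : 0.309 ≤ u.2)
    (h2 : u.2 ≤ 0.3584) : InBase base6 u := by
  apply cell gr6 gr7 hu h0 h1 h2 (cos_dec gr6 gr7 (by norm_num) h1 h2)
    (sin_inc gr6 gr7 (by norm_num) h1 h2) <;> norm_num

def base7 : Base := ⟨35840, 40670, 91356, 93357, 86559, 89435, -55043, -47762, 9530, 26738, 96359, 99545⟩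

theorem cell7 {u : ℝ × ℝ} (hu : u.1 ^ 2 + u.2 ^ 2 = 1) (h0 : 0 ≤ u.1) (h1 : 0.3584 ≤ u.2)
    (h2 : u.2 ≤ 0.4067) : InBase base7 u := by
  apply cell gr7 gr8 hu h0 h1 h2 (cos_dec gr7 gr8 (by norm_num) h1 h2)
    (sin_inc gr7 gr8 (by norm_num) h1 h2) <;> norm_num

def base8 : Base := ⟨40670, 45400, 89100, 91357, 83484, 86566, -59835, -52704, -7607, 9531, 99544, 100000⟩

theorem cell8 {u : ℝ × ℝ} (hu : u.1 ^ 2 + u.2 ^ 2 = 1) (h0 : 0 ≤ u.1) (h1 : 0.4067 ≤ u.2)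
    (h2 : u.2 ≤ 0.454) : InBase base8 u := by
  apply cell gr8 gr9 hu h0 h1 h2 (cos_dec gr8 gr9 (by norm_num) h1 h2)
    (sin_cross gr8 gr9 h1 h2 0.99544792 (by norm_num) (by norm_num)) <;> norm_num

def base9 : Base := ⟨45400, 50000, 86602, 89101, 80266, 83491, -64004, -57067, -24062, -7605, 97061, 99711⟩

theorem cell9 {u : ℝ × ℝ} (hu : u.1 ^ 2 + u.2 ^ 2 = 1) (h0 : 0 ≤ u.1) (h1 : 0.454 ≤ u.2)
    (h2 : u.2 ≤ 0.5) : InBase base9 u := by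
  apply cell gr9 gr10 hu h0 h1 h2 (cos_dec gr9 gr10 (by norm_num) h1 h2)
    (sin_dec gr9 gr10 (by norm_num) h1 h2) <;> norm_num

def base10 : Base := ⟨50000, 54460, 83869, 86603, 76958, 80273, -67554, -60828, -39383, -24061, 91918, 97063⟩

theorem cell10 {u : ℝ × ℝ} (hu : u.1 ^ 2 + u.2 ^ 2 = 1) (h0 : 0 ≤ u.1) (h1 : 0.5 ≤ u.2)
    (h2 : u.2 ≤ 0.5446) : InBase base10 u := by
  apply cell gr10 gr11 hu h0 h1 h2 (cos_dec gr10 gr11 (by norm_num) h1 h2)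
    (sin_dec gr10 gr11 (by norm_num) h1 h2) <;> norm_num

def base11 : Base := ⟨54460, 58780, 80900, 83870, 73601, 76965, -70512, -63996, -53247, -39382, 84645, 91919⟩

theorem cell11 {u : ℝ × ℝ} (hu : u.1 ^ 2 + u.2 ^ 2 = 1) (h0 : 0 ≤ u.1) (h1 : 0.5446 ≤ u.2)
    (h2 : u.2 ≤ 0.5878) : InBase base11 u := by
  apply cell gr11 gr12 hu h0 h1 h2 (cos_dec gr11 gr12 (by norm_num) h1 h2)
    (sin_dec gr11 gr12 (by norm_num) h1 h2) <;> norm_num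

def base12 : Base := ⟨58780, 62930, 77716, 80901, 70257, 73608, -72880, -66619, -65339, -53246, 75702, 84646⟩

theorem cell12 {u : ℝ × ℝ} (hu : u.1 ^ 2 + u.2 ^ 2 = 1) (h0 : 0 ≤ u.1) (h1 : 0.5878 ≤ u.2)
    (h2 : u.2 ≤ 0.6293) : InBase base12 u := by
  apply cell gr12 gr13 hu h0 h1 h2 (cos_dec gr12 gr13 (by norm_num) h1 h2)
    (sin_dec gr12 gr13 (by norm_num) h1 h2) <;> norm_num

def base13 : Base := ⟨62930, 66910, 74317, 77717, 66960, 70264, -74713, -68707, -75551, -65338, 65513, 75703⟩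

theorem cell13 {u : ℝ × ℝ} (hu : u.1 ^ 2 + u.2 ^ 2 = 1) (h0 : 0 ≤ u.1) (h1 : 0.6293 ≤ u.2)
    (h2 : u.2 ≤ 0.6691) : InBase base13 u := by
  apply cell gr13 gr14 hu h0 h1 h2 (cos_dec gr13 gr14 (by norm_num) h1 h2)
    (sin_dec gr13 gr14 (by norm_num) h1 h2) <;> norm_num

def base14 : Base := ⟨66910, 70710, 70711, 74318, 63747, 66967, -76052, -70317, -83837, -75550, 54510, 65514⟩

theorem cell14 {u : ℝ × ℝ} (hu : u.1 ^ 2 + u.2 ^ 2 = 1) (h0 : 0 ≤ u.1) (h1 : 0.6691 ≤ u.2)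
    (h2 : u.2 ≤ 0.7071) : InBase base14 u := by
  apply cell gr14 gr15 hu h0 h1 h2 (cos_dec gr14 gr15 (by norm_num) h1 h2)
    (sin_dec gr14 gr15 (by norm_num) h1 h2) <;> norm_num

def base15 : Base := ⟨70710, 74310, 66918, 70712, 60661, 63754, -76939, -71505, -90222, -83836, 43129, 54511⟩

theorem cell15 {u : ℝ × ℝ} (hu : u.1 ^ 2 + u.2 ^ 2 = 1) (h0 : 0 ≤ u.1) (h1 : 0.7071 ≤ u.2)
    (h2 : u.2 ≤ 0.7431) : InBase base15 u := by
  apply cell gr15 gr16 hu h0 h1 h2 (cos_dec gr15 gr16 (by norm_num) h1 h2)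
    (sin_dec gr15 gr16 (by norm_num) h1 h2) <;> norm_num

def base16 : Base := ⟨74310, 77710, 62937, 66919, 57720, 60668, -77445, -72310, -94842, -90221, 31701, 43130⟩

theorem cell16 {u : ℝ × ℝ} (hu : u.1 ^ 2 + u.2 ^ 2 = 1) (h0 : 0 ≤ u.1) (h1 : 0.7431 ≤ u.2)
    (h2 : u.2 ≤ 0.7771) : InBase base16 u := by
  apply cell gr16 gr17 hu h0 h1 h2 (cos_dec gr16 gr17 (by norm_num) h1 h2)
    (sin_dec gr16 gr17 (by norm_num) h1 h2) <;> norm_num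

def base17 : Base := ⟨77710, 80900, 58780, 62938, 54949, 57727, -77618, -72798, -97868, -94841, 20539, 31703⟩

theorem cell17 {u : ℝ × ℝ} (hu : u.1 ^ 2 + u.2 ^ 2 = 1) (h0 : 0 ≤ u.1) (h1 : 0.7771 ≤ u.2)
    (h2 : u.2 ≤ 0.809) : InBase base17 u := by
  apply cell gr17 gr18 hu h0 h1 h2 (cos_dec gr17 gr18 (by norm_num) h1 h2)
    (sin_dec gr17 gr18 (by norm_num) h1 h2) <;> norm_num

def base18 : Base := ⟨80900, 83870, 54459, 58781, 52367, 54956, -77516, -73026, -99510, -97867, 9896, 20540⟩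

theorem cell18 {u : ℝ × ℝ} (hu : u.1 ^ 2 + u.2 ^ 2 = 1) (h0 : 0 ≤ u.1) (h1 : 0.809 ≤ u.2)
    (h2 : u.2 ≤ 0.8387) : InBase base18 u := by
  apply cell gr18 gr19 hu h0 h1 h2 (cos_dec gr18 gr19 (by norm_num) h1 h2)
    (sin_dec gr18 gr19 (by norm_num) h1 h2) <;> norm_num

def base19 : Base := ⟨83870, 86600, 50004, 54460, 49997, 52374, -77186, -73057, -100001, -99509, 9, 9897⟩

theorem cell19 {u : ℝ × ℝ} (hu : u.1 ^ 2 + u.2 ^ 2 = 1) (h0 : 0 ≤ u.1) (h1 : 0.8387 ≤ u.2)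
    (h2 : u.2 ≤ 0.866) : InBase base19 u := by
  apply cell gr19 gr20 hu h0 h1 h2 (cos_dec gr19 gr20 (by norm_num) h1 h2)
    (sin_dec gr19 gr20 (by norm_num) h1 h2) <;> norm_num

def base20 : Base := ⟨86600, 89100, 45400, 50005, 47839, 50003, -76704, -72920, -100000, -99589, -9048, 10⟩

theorem cell20 {u : ℝ × ℝ} (hu : u.1 ^ 2 + u.2 ^ 2 = 1) (h0 : 0 ≤ u.1) (h1 : 0.866 ≤ u.2)
    (h2 : u.2 ≤ 0.891) : InBase base20 u := by
  apply cell gr20 gr21 hu h0 h1 h2 (cos_cross gr20 gr21 h1 h2 (-0.99589883) (by norm_num) (by norm_num))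
    (sin_dec gr20 gr21 (by norm_num) h1 h2) <;> norm_num

def base21 : Base := ⟨89100, 91350, 40683, 45401, 45906, 47846, -76097, -72688, -99590, -98520, -17137, -9047⟩

theorem cell21 {u : ℝ × ℝ} (hu : u.1 ^ 2 + u.2 ^ 2 = 1) (h0 : 0 ≤ u.1) (h1 : 0.891 ≤ u.2)
    (h2 : u.2 ≤ 0.9135) : InBase base21 u := by
  apply cell gr21 gr22 hu h0 h1 h2 (cos_inc gr21 gr22 (by norm_num) h1 h2)
    (sin_dec gr21 gr22 (by norm_num) h1 h2) <;> norm_num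

def base22 : Base := ⟨91350, 93360, 35831, 40684, 44190, 45913, -75431, -72383, -98521, -97010, -24269, -17136⟩

theorem cell22 {u : ℝ × ℝ} (hu : u.1 ^ 2 + u.2 ^ 2 = 1) (h0 : 0 ≤ u.1) (h1 : 0.9135 ≤ u.2)
    (h2 : u.2 ≤ 0.9336) : InBase base22 u := by
  apply cell gr22 gr23 hu h0 h1 h2 (cos_inc gr22 gr23 (by norm_num) h1 h2)
    (sin_dec gr22 gr23 (by norm_num) h1 h2) <;> norm_num

def base23 : Base := ⟨93360, 95110, 30888, 35832, 42707, 44197, -74724, -72066, -97011, -95275, -30375, -24268⟩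

theorem cell23 {u : ℝ × ℝ} (hu : u.1 ^ 2 + u.2 ^ 2 = 1) (h0 : 0 ≤ u.1) (h1 : 0.9336 ≤ u.2)
    (h2 : u.2 ≤ 0.9511) : InBase base23 u := by
  apply cell gr23 gr24 hu h0 h1 h2 (cos_inc gr23 gr24 (by norm_num) h1 h2)
    (sin_dec gr23 gr24 (by norm_num) h1 h2) <;> norm_num

def base24 : Base := ⟨95110, 96590, 25891, 30889, 41461, 42714, -74020, -71768, -95276, -93508, -35444, -30374⟩

theorem cell24 {u : ℝ × ℝ} (hu : u.1 ^ 2 + u.2 ^ 2 = 1) (h0 : 0 ≤ u.1) (h1 : 0.9511 ≤ u.2)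
    (h2 : u.2 ≤ 0.9659) : InBase base24 u := by
  apply cell gr24 gr25 hu h0 h1 h2 (cos_inc gr24 gr25 (by norm_num) h1 h2)
    (sin_dec gr24 gr25 (by norm_num) h1 h2) <;> norm_num

def base25 : Base := ⟨96590, 97810, 20813, 25892, 40441, 41468, -73364, -71502, -93509, -91848, -39546, -35443⟩

theorem cell25 {u : ℝ × ℝ} (hu : u.1 ^ 2 + u.2 ^ 2 = 1) (h0 : 0 ≤ u.1) (h1 : 0.9659 ≤ u.2)
    (h2 : u.2 ≤ 0.9781) : InBase base25 u := by
  apply cell gr25 gr26 hu h0 h1 h2 (cos_inc gr25 gr26 (by norm_num) h1 h2)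
    (sin_dec gr25 gr26 (by norm_num) h1 h2) <;> norm_num

def base26 : Base := ⟨97810, 98770, 15636, 20814, 39642, 40448, -72769, -71297, -91849, -90415, -42720, -39545⟩

theorem cell26 {u : ℝ × ℝ} (hu : u.1 ^ 2 + u.2 ^ 2 = 1) (h0 : 0 ≤ u.1) (h1 : 0.9781 ≤ u.2)
    (h2 : u.2 ≤ 0.9877) : InBase base26 u := by
  apply cell gr26 gr27 hu h0 h1 h2 (cos_inc gr26 gr27 (by norm_num) h1 h2)
    (sin_dec gr26 gr27 (by norm_num) h1 h2) <;> norm_num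

def base27 : Base := ⟨98770, 99450, 10473, 15637, 39079, 39649, -72242, -71191, -90417, -89334, -44937, -42719⟩

theorem cell27 {u : ℝ × ℝ} (hu : u.1 ^ 2 + u.2 ^ 2 = 1) (h0 : 0 ≤ u.1) (h1 : 0.9877 ≤ u.2)
    (h2 : u.2 ≤ 0.9945) : InBase base27 u := by
  apply cell gr27 gr28 hu h0 h1 h2 (cos_inc gr27 gr28 (by norm_num) h1 h2)
    (sin_dec gr27 gr28 (by norm_num) h1 h2) <;> norm_num

def base28 : Base := ⟨99450, 99860, 5289, 10474, 38741, 39086, -71822, -71175, -89335, -88656, -46261, -44936⟩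

theorem cell28 {u : ℝ × ℝ} (hu : u.1 ^ 2 + u.2 ^ 2 = 1) (h0 : 0 ≤ u.1) (h1 : 0.9945 ≤ u.2)
    (h2 : u.2 ≤ 0.9986) : InBase base28 u := by
  apply cell gr28 gr29 hu h0 h1 h2 (cos_inc gr28 gr29 (by norm_num) h1 h2)
    (sin_dec gr28 gr29 (by norm_num) h1 h2) <;> norm_num

def base29 : Base := ⟨99860, 100000, 0, 5290, 38625, 38748, -71507, -71266, -88657, -88420, -46710, -46260⟩

theorem cell29 {u : ℝ × ℝ} (hu : u.1 ^ 2 + u.2 ^ 2 = 1) (h0 : 0 ≤ u.1) (h1 : 0.9986 ≤ u.2)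
    (h2 : u.2 ≤ 1) : InBase base29 u := by
  apply cell gr29 gr30 hu h0 h1 h2 (cos_inc gr29 gr30 (by norm_num) h1 h2)
    (sin_dec gr29 gr30 (by norm_num) h1 h2) <;> norm_num

end Pool.Agent.StripSin
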