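import Pool.Agent.StripSin.Move

/-! # Triangles with a long side -/

set_option autoImplicit false

open Real Set

namespace Pool.Agent.StripSin

/-- long side, no obtuse angle -/
theorem good_acute {p q r : ℝ × ℝ} (h1 : 1 ≤ ds p r) (h2 : 1 ≤ ds q r) (h3 : 3 ≤ ds p q)
    (h4 : ds p q ≤ 4) (h5 : ds p r ≤ ds p q) (h6 : ds q r ≤ ds p q)
    (h7 : ds p q ≤ ds p r + ds q r) : Good p q r := by
  intro φ
  have a1 : |gf φ p q| ≤ 2 := abs_gf_two φ (by linarith) h4
  have a2 : |gf φ q r| ≤ 2 := abs_gf_two φ h2 (by linarith)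
  have a3 : |gf φ r p| ≤ 2 := by
    rw [gf_symm, abs_neg]
    exact abs_gf_two φ h1 (by linarith)
  have a4 : |fl φ p q r| ≤ 6 := by
    unfold fl
    refine (abs_add_le _ _).trans ?_
    have := abs_add_le (gf φ p q) (gf φ q r)
    linarith
  have hc := cr_sq p q r
  have key : 2 ≤ cr p q r ^ 2 := by
    rw [hc]
    set x := ds p r
    set y := ds q r
    set z := ds p q
    rcases le_total x y with hxy | hxy
    · rcases le_total x (z - 1) with hx | hx
      · -- `4 x (z - x) ≥ 8`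
        have b1 : 2 ≤ x * (z - x) := by nlinarith
        nlinarith
      · have b2 : (x + z - y) ^ 2 ≤ z ^ 2 := by nlinarith
        nlinarith
    · rcases le_total y (z - 1) with hy | hy
      · have b1 : 2 ≤ y * (z - y) := by nlinarith
        nlinarith
      · have b2 : (y + z - x) ^ 2 ≤ z ^ 2 := by nlinarith
        nlinarith
  have h8 : 1.414 ≤ |cr p q r| := by
    apply sq_le_aux _ (abs_nonneg _)
    rw [sq_abs]
    norm_num at key ⊢
    linarith
  have h9 := ih_gt'
  nlinarith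

/-- long side, `r` on the left of `pq` -/
theorem good_left {p q r o : ℝ × ℝ} {R : ℝ} (h1 : 1 ≤ ds p r) (h2 : 1 ≤ ds q r)
    (h3 : 3 ≤ ds p q) (h4 : ds p q ≤ 4) (h7 : ds p r + ds q r ≤ ds p q)
    (hop : ds p o = R) (hoq : ds q o = R) (hor : ds r o = R) (hR : R ≤ 1)
    (hcr : 0 ≤ cr p q r) : Good p q r := by
  have h0 : 0 < ds p q := by linarith
  intro φ
  have hU := uu_unit (v := (q.1 - p.1, q.2 - p.2)) h0 h4
  have hW := ww_unit (v := (q.1 - p.1, q.2 - p.2)) h0 h4
  have hcross := cross_uw (q.1 - p.1, q.2 - p.2)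
  have hdot := dot_uw (v := (q.1 - p.1, q.2 - p.2)) h0 h4
  have hρ := rho_nonneg (q.1 - p.1, q.2 - p.2)
  have hρ2 := rho_sq (v := (q.1 - p.1, q.2 - p.2)) h0 h4
  have p2 := path_ww φ h0 h4
  have a1 := uu_add_ww1 (q.1 - p.1, q.2 - p.2)
  have a2 := uu_add_ww2 (q.1 - p.1, q.2 - p.2)
  have hds : ds p q = (q.1 - p.1) ^ 2 + (q.2 - p.2) ^ 2 := rfl
  simp only at hcross hdot a1 a2 hρ2
  rw [← hds] at hcross hdot hρ2
  have hu1 : (uu (q.1 - p.1, q.2 - p.2)).1 = (q.1 - p.1) / 2 -
    rho (q.1 - p.1, q.2 - p.2) * (q.2 - p.2) := rfl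
  have hu2 : (uu (q.1 - p.1, q.2 - p.2)).2 = (q.2 - p.2) / 2 +
    rho (q.1 - p.1, q.2 - p.2) * (q.1 - p.1) := rfl
  have hw1 : (ww (q.1 - p.1, q.2 - p.2)).1 = (q.1 - p.1) / 2 +
    rho (q.1 - p.1, q.2 - p.2) * (q.2 - p.2) := rfl
  have hw2 : (ww (q.1 - p.1, q.2 - p.2)).2 = (q.2 - p.2) / 2 -
    rho (q.1 - p.1, q.2 - p.2) * (q.1 - p.1) := rfl
  set u : ℝ × ℝ := uu (q.1 - p.1, q.2 - p.2) with hu
  set w : ℝ × ℝ := ww (q.1 - p.1, q.2 - p.2) with hw
  set ρ : ℝ := rho (q.1 - p.1, q.2 - p.2) with hρd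
  set b : ℝ × ℝ := (p.1 + w.1, p.2 + w.2) with hb
  have hpb : ds p b = 1 := by
    rw [hb]
    unfold ds
    simp only
    linear_combination hW
  have hqb : ds q b = 1 := by
    rw [hb]
    unfold ds
    simp only
    have e1 : p.1 + w.1 - q.1 = -u.1 := by linarith
    have e2 : p.2 + w.2 - q.2 = -u.2 := by linarith
    rw [e1, e2]
    linear_combination hU
  -- dot product of `v` and `r - p`
  have hdv : (q.1 - p.1) * (r.1 - p.1) + (q.2 - p.2) * (r.2 - p.2) =
      (ds p r + ds p q - ds q r) / 2 := by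
    unfold ds
    ring
  have hbr : ds b r = 1 - (ds p q - ds p r - ds q r) / 2 + 2 * ρ * cr p q r := by
    have e1 : ds b r = ds p r + 1 - 2 * ((r.1 - p.1) * w.1 + (r.2 - p.2) * w.2) := by
      rw [hb]
      unfold ds
      simp only
      linear_combination hW
    have e2 : (r.1 - p.1) * w.1 + (r.2 - p.2) * w.2 =
        ((q.1 - p.1) * (r.1 - p.1) + (q.2 - p.2) * (r.2 - p.2)) / 2 - ρ * cr p q r := by
      rw [hw1, hw2]
      unfold cr
      ring
    rw [e1, e2, hdv]
    ring
  -- the circumcentre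
  have hv : (q.1 - p.1) * (o.1 - p.1) + (q.2 - p.2) * (o.2 - p.2) = ds p q / 2 := by
    have : ds p o - ds q o = 0 := by rw [hop, hoq]; ring
    unfold ds at this ⊢
    linarith
  have ha : 2 * ((r.1 - p.1) * (o.1 - p.1) + (r.2 - p.2) * (o.2 - p.2)) = ds p r := by
    have : ds p o - ds r o = 0 := by rw [hop, hor]; ring
    unfold ds at this ⊢
    linarith
  have hbr1 : 1 ≤ ds b r := by
    set K : ℝ := (q.1 - p.1) * (o.2 - p.2) - (q.2 - p.2) * (o.1 - p.1) with hK
    -- `K ^ 2 = |v|² R - (|v|²/2)² ≤ (ρ |v|²)²`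
    have k1 : K ^ 2 = ds p q * R - (ds p q / 2) ^ 2 := by
      rw [← hv, ← hop, hK]
      unfold ds
      ring
    have k2 : K ^ 2 ≤ (ρ * ds p q) ^ 2 := by
      rw [k1]
      nlinarith
    have k3 : -(ρ * ds p q) ≤ K := by
      have := abs_le_of_sq_le_sq k2 (mul_nonneg hρ h0.le)
      exact (abs_le.1 this).1
    have k4 : ds p q * (ds p r + ds q r - ds p q) = 4 * K * cr p q r := by
      have e1 : ds p q * ((r.1 - p.1) * (o.1 - p.1) + (r.2 - p.2) * (o.2 - p.2)) =
          ((q.1 - p.1) * (r.1 - p.1) + (q.2 - p.2) * (r.2 - p.2)) *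
          ((q.1 - p.1) * (o.1 - p.1) + (q.2 - p.2) * (o.2 - p.2)) + K * cr p q r := by
        rw [hK]
        unfold ds cr
        ring
      rw [hv, hdv] at e1
      linear_combination 4 * e1 - 2 * ds p q * ha
    have k5 : 0 ≤ ds p q * (ds b r - 1) := by
      have e2 : ds p q * (ds b r - 1) = 2 * (K + ρ * ds p q) * cr p q r := by
        rw [hbr]
        linear_combination (1 / 2 : ℝ) * k4
      rw [e2]
      have k6 : 0 ≤ K + ρ * ds p q := by linarith
      positivity
    have k7 := nonneg_of_mul_nonneg_right k5 h0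
    linarith
  have hbr3 : ds b r ≤ 3 := by
    have k1 : (ρ * cr p q r) ^ 2 ≤ 1 := by
      have e1 : cr p q r ^ 2 ≤ ds p r * ds p q := by
        rw [cr_sq]
        nlinarith [sq_nonneg ((ds p r + ds p q - ds q r) / 2)]
      have e2 : (ρ * cr p q r) ^ 2 ≤ ρ ^ 2 * (ds p r * ds p q) := by
        rw [mul_pow]
        exact mul_le_mul_of_nonneg_left e1 (sq_nonneg ρ)
      have e3 : ρ ^ 2 * (ds p r * ds p q) = ds p r * (1 - ds p q / 4) := by
        rw [← hρ2]
        ring
      rw [e3] at e2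
      nlinarith
    have k2 : ρ * cr p q r ≤ 1 := by nlinarith
    rw [hbr]
    linarith
  -- the two parts
  have g1 : Good b q r := good_K (by rw [ds_comm, hqb]) h2 hbr1 (by rw [ds_comm, hqb]; norm_num)
    (by linarith) hbr3
  have g2 : Good p b r := good_K hpb.ge hbr1 h1 (by rw [hpb]; norm_num) hbr3 (by linarith)
  have e1 : fl φ p q r = fl φ b q r + fl φ p b r + cos (φ - om * (p.2 + q.2)) * EE u w := by
    unfold fl
    rw [gf_symm φ b r]
    linarith [p2]
  have e2 : cr b q r + cr p b r = cr p q r + ρ * ds p q := by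
    have e3 : cr b q r + cr p b r = cr p q r + (w.1 * (q.2 - p.2) - w.2 * (q.1 - p.1)) := by
      rw [hb]
      unfold cr
      simp only
      ring
    rw [e3, ← hcross, ← a1, ← a2]
    ring
  have e4 : cr p b r = cr p q r / 2 + ρ * ((ds p r + ds p q - ds q r) / 2) := by
    rw [← hdv, hb]
    unfold cr
    simp only
    linear_combination (r.2 - p.2) * hw1 - (r.1 - p.1) * hw2
  have e5 : cr b q r = cr p q r / 2 + ρ * (ds p q - (ds p r + ds p q - ds q r) / 2) := by
    linarith
  have p1 : 0 ≤ cr p b r := by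
    rw [e4]
    have : 0 ≤ ρ * ((ds p r + ds p q - ds q r) / 2) := mul_nonneg hρ (by linarith)
    linarith
  have p3 : 0 ≤ cr b q r := by
    rw [e5]
    have : 0 ≤ ρ * (ds p q - (ds p r + ds p q - ds q r) / 2) := mul_nonneg hρ (by linarith)
    linarith
  have hs0 : 0 ≤ w.1 * u.2 - w.2 * u.1 := by
    rw [hcross]
    exact mul_nonneg hρ h0.le
  have hE := EE_bound hU hW hs0
  have hsh : w.1 * u.2 - w.2 * u.1 ≤ hh := by
    apply sq_le_aux _ hh_pos.le
    rw [hcross, hh_sq, mul_pow]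
    have : ρ ^ 2 * ds p q ^ 2 = (1 - ds p q / 4) * ds p q := by
      rw [← hρ2]
      ring
    rw [this]
    have hq : 0 ≤ (ds p q - 3) * (ds p q - 1) := mul_nonneg (by linarith) (by linarith)
    linarith only [hq]
  rw [abs_of_nonpos (by linarith : w.1 * u.2 - w.2 * u.1 - hh ≤ 0), hcross] at hE
  have q1 := g1 φ
  have q2 := g2 φ
  rw [abs_of_nonneg p3] at q1
  rw [abs_of_nonneg p1] at q2
  rw [abs_of_nonneg hcr]
  have hcos : |cos (φ - om * (p.2 + q.2)) * EE u w| ≤ |EE u w| := by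
    rw [abs_mul]
    exact mul_le_of_le_one_left (abs_nonneg _) (abs_cos_le_one _)
  have hfl : |fl φ p q r| ≤ |fl φ b q r| + |fl φ p b r| + |EE u w| := by
    rw [e1]
    refine (abs_add_le _ _).trans ?_
    have := abs_add_le (fl φ b q r) (fl φ p b r)
    linarith
  have hihh := ih_hh
  have e6 : ih / 2 * cr b q r + ih / 2 * cr p b r = ih / 2 * cr p q r + ih / 2 * (ρ * ds p q) := by
    rw [← mul_add, e2]
    ring
  linarith

/-- the triangle inequality -/
theorem good_tri {p q r o : ℝ × ℝ} {R : ℝ} (h1 : 1 ≤ ds p q) (h2 : 1 ≤ ds q r)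
    (h3 : 1 ≤ ds p r) (hop : ds p o = R) (hoq : ds q o = R) (hor : ds r o = R) (hR : R ≤ 1) :
    Good p q r := by
  have diam : ∀ a b : ℝ × ℝ, ds a o = R → ds b o = R → ds a b ≤ 4 := by
    intro a b ha hb
    have e : ds a b ≤ 2 * ds a o + 2 * ds b o := by
      unfold ds
      nlinarith [sq_nonneg ((o.1 - a.1) + (o.1 - b.1)), sq_nonneg ((o.2 - a.2) + (o.2 - b.2))]
    rw [ha, hb] at e
    linarith
  have key : ∀ p q r : ℝ × ℝ, 1 ≤ ds q r → 1 ≤ ds p r → ds p o = R → ds q o = R → ds r o = R →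
      ds q r ≤ ds p q → ds p r ≤ ds p q → Good p q r := by
    intro p q r k1 k2 k3 k4 k5 k6 k7
    have k8 := diam p q k3 k4
    rcases le_total (ds p q) 3 with c | c
    · exact good_K (by linarith) k1 k2 c (by linarith) (by linarith)
    rcases le_total (ds p q) (ds p r + ds q r) with c' | c'
    · exact good_acute k2 k1 c k8 k7 k6 c'
    rcases le_total 0 (cr p q r) with c'' | c''
    · exact good_left k2 k1 c k8 c' k3 k4 k5 hR c''
    · have e : cr q p r = -cr p q r := by
        unfold cr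
        ring
      have := good_left (p := q) (q := p) (r := r) k1 k2 (by rw [ds_comm]; exact c)
        (by rw [ds_comm]; exact k8) (by rw [ds_comm q p]; linarith) k4 k3 k5 hR
        (by rw [e]; linarith)
      exact this.swap
  rcases le_total (ds q r) (ds p q) with a | a
  · rcases le_total (ds p r) (ds p q) with b | b
    · exact key p q r h2 h3 hop hoq hor a b
    · have := key r p q h1 (by rw [ds_comm]; exact h2) hor hop hoq
        (by rw [ds_comm r p]; exact b) (by rw [ds_comm r q, ds_comm r p]; linarith)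
      exact this.rot
  · rcases le_total (ds p r) (ds q r) with b | b
    · have := key q r p (by rw [ds_comm]; exact h3) (by rw [ds_comm]; exact h1) hoq hor hop
        (by rw [ds_comm r p]; exact b) (by rw [ds_comm q p]; exact a)
      exact this.rot.rot
    · have := key r p q h1 (by rw [ds_comm]; exact h2) hor hop hoq
        (by rw [ds_comm r p]; linarith) (by rw [ds_comm r q, ds_comm r p]; exact b)
      exact this.rot

end Pool.Agent.StripSin
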