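import Pool.Agent.StripSin.Wall
import Pool.Agent.Strip051.Sweep.Final

/-! # The local certificate with a sine -/

set_option autoImplicit false

open Real Set

namespace Pool.Agent.StripSin

open Pool.Agent.StripNear Pool.Agent.Strip051.Sweep

/-- the value of an edge -/
noncomputable def FF (H ψ : ℝ) (a b : ℝ × ℝ) : ℝ :=
  -((b.1 - a.1) * (a.2 + b.2 - H)) * (ih / 2) - 1 / 20 * gf ψ a b

/-- the weight of a wall -/
noncomputable def wt (H ψ : ℝ) : ℝ := 1 / 2 + H * ih / 2 - 1 / 20 * sin ψ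

theorem FF_tri (H ψ : ℝ) (a b c : ℝ × ℝ) :
    FF H ψ a b + FF H ψ b c - FF H ψ a c = ih / 2 * cr a b c - 1 / 20 * fl ψ a b c := by
  unfold FF fl cr
  rw [gf_symm ψ a c]
  ring

theorem tri_chord {α1 α2 β1 β2 γ1 γ2 R : ℝ} (ha : α1 ^ 2 + α2 ^ 2 = R) (hb : β1 ^ 2 + β2 ^ 2 = R)
    (hc : γ1 ^ 2 + γ2 ^ 2 = R) (h1 : α2 ≤ β2) (h2 : β2 ≤ γ2) (h : 0 ≤ β1) :
    0 ≤ (β1 - α1) * (γ2 - α2) - (β2 - α2) * (γ1 - α1) := by
  have hl : 0 ≤ γ2 - β2 := by linarith
  have hm : 0 ≤ β2 - α2 := by linarith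
  have e : (β1 - α1) * (γ2 - α2) - (β2 - α2) * (γ1 - α1) =
      ((γ2 - β2) + (β2 - α2)) * β1 - ((γ2 - β2) * α1 + (β2 - α2) * γ1) := by ring
  rw [e]
  have h3 : ((γ2 - β2) * α1 + (β2 - α2) * γ1) ^ 2 ≤ (((γ2 - β2) + (β2 - α2)) * β1) ^ 2 := by
    have e1 : ((γ2 - β2) * α1 + (β2 - α2) * γ1) ^ 2 + ((γ2 - β2) * α2 + (β2 - α2) * γ2) ^ 2 =
        ((γ2 - β2) + (β2 - α2)) ^ 2 * R - (γ2 - β2) * (β2 - α2) *
          ((α1 - γ1) ^ 2 + (α2 - γ2) ^ 2) := by
      linear_combination ((γ2 - β2) ^ 2 + (γ2 - β2) * (β2 - α2)) * ha +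
        ((β2 - α2) ^ 2 + (γ2 - β2) * (β2 - α2)) * hc
    have e2 : (γ2 - β2) * α2 + (β2 - α2) * γ2 = ((γ2 - β2) + (β2 - α2)) * β2 := by ring
    rw [e2] at e1
    have h4 : 0 ≤ (γ2 - β2) * (β2 - α2) * ((α1 - γ1) ^ 2 + (α2 - γ2) ^ 2) :=
      mul_nonneg (mul_nonneg hl hm) (by positivity)
    have e3 : (((γ2 - β2) + (β2 - α2)) * β1) ^ 2 =
        ((γ2 - β2) + (β2 - α2)) ^ 2 * R - (((γ2 - β2) + (β2 - α2)) * β2) ^ 2 := by
      rw [← hb]
      ring
    linarith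
  have h5 : 0 ≤ ((γ2 - β2) + (β2 - α2)) * β1 := mul_nonneg (by linarith) h
  have := sq_le_aux h3 h5
  linarith

theorem good_of_Tri {H : ℝ} {a b c : ℝ × ℝ} {m z : ℝ} (h : Tri H a b c m z) : Good a b c := by
  have e1 : ∀ p : ℝ × ℝ, ds p (m, z) = dq p m z := by
    intro p
    unfold ds dq
    simp only
  have e2 : ∀ p q : ℝ × ℝ, ds p q = Pool.Agent.Strip051.Sweep.sq p q := by
    intro p q
    unfold ds Pool.Agent.Strip051.Sweep.sq
    ring
  exact good_tri (o := (m, z)) (R := dq b m z) (by rw [e2]; exact h.sab) (by rw [e2]; exact h.sbc)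
    (by rw [e2]; exact h.sac) (by rw [e1]; exact h.eab) (e1 b) (by rw [e1]; exact h.ebc.symm)
    h.rad

theorem cr_nonneg_of_Tri {H : ℝ} {a b c : ℝ × ℝ} {m z : ℝ} (h : Tri H a b c m z)
    (hm : m < b.1) : 0 ≤ cr a b c := by
  have h1 := h.eab
  have h2 := h.ebc
  unfold dq at h1 h2
  have := tri_chord (α1 := a.1 - m) (α2 := a.2 - z) (β1 := b.1 - m) (β2 := b.2 - z)
    (γ1 := c.1 - m) (γ2 := c.2 - z) (R := (m - b.1) ^ 2 + (z - b.2) ^ 2)
    (by linarith) (by ring) (by linarith) (by linarith [h.hab.le]) (by linarith [h.hbc.le])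
    (by linarith)
  unfold cr
  linarith

theorem cr_nonpos_of_Tri {H : ℝ} {a b c : ℝ × ℝ} {m z : ℝ} (h : Tri H a b c m z)
    (hm : b.1 < m) : cr a b c ≤ 0 := by
  have h1 := h.eab
  have h2 := h.ebc
  unfold dq at h1 h2
  have := tri_chord (α1 := m - a.1) (α2 := a.2 - z) (β1 := m - b.1) (β2 := b.2 - z)
    (γ1 := m - c.1) (γ2 := c.2 - z) (R := (m - b.1) ^ 2 + (z - b.2) ^ 2)
    (by linarith) (by ring) (by linarith) (by linarith [h.hab.le]) (by linarith [h.hbc.le])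
    (by linarith)
  unfold cr
  linarith

theorem Nv_neg' (X Y : ℝ) : Nv (-X, Y) = -Nv (X, Y) := by
  have h1 := Nv_neg (X, -Y)
  have h2 := Nv_mirror (X, Y)
  simp only [neg_neg] at h1 h2
  rw [h1, h2]

/-- the value across the wall -/
theorem bottom_val {H ψ : ℝ} {a b : ℝ × ℝ} (hψ : 0 ≤ sin ψ) {m : ℝ} (h : Pair H b a m 0) :
    (m < b.1 → wt H ψ * a.1 + 1 / 2 ≤ wt H ψ * b.1 + FF H ψ b a) ∧
    (b.1 < m → wt H ψ * b.1 + FF H ψ b a + 1 / 2 ≤ wt H ψ * a.1) := by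
  have hY : b.2 ≤ a.2 := h.hab.le
  have hb0 : 0 ≤ b.2 := h.ha0
  have hs := h.sab
  have he := h.eab
  have hr := h.rad
  unfold Pool.Agent.Strip051.Sweep.sq at hs
  unfold dq at he hr
  constructor
  · intro hm
    have hX : 0 ≤ b.1 - a.1 := by nlinarith
    have hβ : b.1 - m ≤ 1 := by nlinarith
    have hw := wall (ψ := ψ) (X := b.1 - a.1) (Y := a.2 - b.2) (m := (a.2 + b.2) / 2) hψ hX
      (by linarith) (by linarith) (by linarith) (by nlinarith)
    unfold WW at hw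
    unfold FF gf wt
    have e1 : (a.1 - b.1, a.2 - b.2) = (-(b.1 - a.1), a.2 - b.2) := by
      refine Prod.ext ?_ rfl
      simp only
      ring
    rw [e1, Nv_neg']
    have e2 : ψ - om * (b.2 + a.2) = ψ - om * (2 * ((a.2 + b.2) / 2)) := by ring
    rw [e2]
    linarith
  · intro hm
    have hX : 0 ≤ a.1 - b.1 := by nlinarith
    have hβ : m - b.1 ≤ 1 := by nlinarith
    have hw := wall (ψ := ψ) (X := a.1 - b.1) (Y := a.2 - b.2) (m := (a.2 + b.2) / 2) hψ hX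
      (by linarith) (by linarith) (by linarith) (by nlinarith)
    unfold WW at hw
    unfold FF gf wt
    have e2 : ψ - om * (b.2 + a.2) = ψ - om * (2 * ((a.2 + b.2) / 2)) := by ring
    rw [e2]
    linarith

theorem top_val {H ψ : ℝ} {a b : ℝ × ℝ} (hψ : 0 ≤ sin ψ)
    (ha : ∀ m, sin (ψ - om * (2 * (H - m))) = -sin (ψ - om * (2 * m))) {m : ℝ}
    (h : Pair H a b m H) :
    (m < b.1 → wt H ψ * a.1 + 1 / 2 ≤ FF H ψ a b + wt H ψ * b.1) ∧
    (b.1 < m → FF H ψ a b + wt H ψ * b.1 + 1 / 2 ≤ wt H ψ * a.1) := by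
  have hY : a.2 ≤ b.2 := h.hab.le
  have hb0 : b.2 ≤ H := h.hbH
  have hs := h.sab
  have he := h.eab
  have hr := h.rad
  unfold Pool.Agent.Strip051.Sweep.sq at hs
  unfold dq at he hr
  have e2 : ψ - om * (a.2 + b.2) = ψ - om * (2 * (H - (H - (a.2 + b.2) / 2))) := by ring
  have e3 := ha (H - (a.2 + b.2) / 2)
  constructor
  · intro hm
    have hX : 0 ≤ b.1 - a.1 := by nlinarith
    have hβ : b.1 - m ≤ 1 := by nlinarith
    have hw := wall (ψ := ψ) (X := b.1 - a.1) (Y := b.2 - a.2) (m := H - (a.2 + b.2) / 2) hψ hX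
      (by linarith) (by linarith) (by linarith) (by nlinarith)
    unfold WW at hw
    unfold FF gf wt
    rw [e2, e3]
    linarith
  · intro hm
    have hX : 0 ≤ a.1 - b.1 := by nlinarith
    have hβ : m - b.1 ≤ 1 := by nlinarith
    have hw := wall (ψ := ψ) (X := a.1 - b.1) (Y := b.2 - a.2) (m := H - (a.2 + b.2) / 2) hψ hX
      (by linarith) (by linarith) (by linarith) (by nlinarith)
    unfold WW at hw
    unfold FF gf wt
    have e1 : (b.1 - a.1, b.2 - a.2) = (-(a.1 - b.1), b.2 - a.2) := by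
      refine Prod.ext ?_ rfl
      simp only
      ring
    rw [e1, Nv_neg', e2, e3]
    linarith

theorem cells {H ψ : ℝ} (hψ : 0 ≤ sin ψ)
    (ha : ∀ m, sin (ψ - om * (2 * (H - m))) = -sin (ψ - om * (2 * m))) :
    Cells H (FF H ψ) (fun a => wt H ψ * a.1) (fun a => wt H ψ * a.1) where
  ins := by
    intro a b c m z h hm
    have h1 := good_of_Tri h ψ
    have h2 := cr_nonneg_of_Tri h hm
    have h3 := FF_tri H ψ a b c
    rw [abs_of_nonneg h2] at h1
    have h4 := le_abs_self (fl ψ a b c)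
    linarith
  del := by
    intro a b c m z h hm
    have h1 := good_of_Tri h ψ
    have h2 := cr_nonpos_of_Tri h hm
    have h3 := FF_tri H ψ a b c
    rw [abs_of_nonpos h2] at h1
    have h4 := neg_abs_le (fl ψ a b c)
    linarith
  insB := by
    intro b a m h hm
    exact (bottom_val hψ h).1 hm
  delB := by
    intro b a m h hm
    exact (bottom_val hψ h).2 hm
  insT := by
    intro a b m h hm
    exact (top_val hψ ha h).1 hm
  delT := by
    intro a b m h hm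
    exact (top_val hψ ha h).2 hm

end Pool.Agent.StripSin
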