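import Pool.Agent.StripSin.Table

/-! # First kernel check -/

set_option autoImplicit false
set_option maxRecDepth 100000

namespace Pool.Agent.StripSin

theorem check1 : check (-5000000000) 5000000000 40960 = true := by decide +kernel

end Pool.Agent.StripSin
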