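import Pool.Agent.StripSin.Pk

/-! # Unit edges

`nu u` is the amplitude of the flux along the unit edge `u`; `nd u` is its derivative under
rotations of `u`.  For a vector `v = u + w`, a sum of two unit vectors, `NN u w` is the amplitude of
the flux along `v`. -/

set_option autoImplicit false

open Real

namespace Pool.Agent.StripSin

/-- `π / h`, `h = √3 / 2` -/
noncomputable def om : ℝ := 2 * π / √3

/-- `1 / h` -/
noncomputable def ih : ℝ := 2 / √3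

theorem sqrt3_pos : (0 : ℝ) < √3 := Real.sqrt_pos.2 (by norm_num)

theorem sqrt3_sq : √3 ^ 2 = (3 : ℝ) := Real.sq_sqrt (by norm_num)

theorem ih_sq : ih ^ 2 = 4 / 3 := by
  unfold ih
  rw [div_pow, sqrt3_sq]
  norm_num

theorem ih_pos : 0 < ih := div_pos (by norm_num) sqrt3_pos

theorem om_eq : om = π * ih := by
  unfold om ih
  ring

theorem om_pos : 0 < om := by
  rw [om_eq]
  exact mul_pos pi_pos ih_pos

theorem sqrt3_gt : (1.73205080 : ℝ) < √3 := by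
  rw [Real.lt_sqrt (by norm_num)]
  norm_num

theorem sqrt3_lt : √3 < (1.73205081 : ℝ) := by
  rw [Real.sqrt_lt' (by norm_num)]
  norm_num

/-- the amplitude of a unit edge -/
noncomputable def nu (u : ℝ × ℝ) : ℝ := u.1 * (1 - 4 * u.2 ^ 2) * pk (ih * u.2)

/-- the derivative of `nu` under rotations -/
noncomputable def nd (u : ℝ × ℝ) : ℝ :=
  -(u.2 * (9 - 12 * u.2 ^ 2) * pk (ih * u.2)) + ih * (u.1 ^ 2 * (1 - 4 * u.2 ^ 2)) * pk1 (ih * u.2)

noncomputable def cc (u : ℝ × ℝ) : ℝ := cos (om * u.2)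

noncomputable def qq (u : ℝ × ℝ) : ℝ := om * (u.1 * sin (om * u.2))

noncomputable def NN (u w : ℝ × ℝ) : ℝ := nu u * cc w + nu w * cc u

noncomputable def na (u w : ℝ × ℝ) : ℝ := nd u * cc w - nu w * qq u

/-- the defining identity of the kernel -/
theorem nu_sin (u : ℝ × ℝ) :
    π * (u.2 * (3 - 4 * u.2 ^ 2)) * ih * nu u = 3 * (u.1 * (1 - 4 * u.2 ^ 2)) * sin (om * u.2) := by
  have h1 := pk_ident (ih * u.2)
  have h2 : π * (ih * u.2) = om * u.2 := by rw [om_eq]; ring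
  rw [h2] at h1
  rw [← h1]
  unfold nu
  have h3 : (ih * u.2) ^ 2 = 4 / 3 * u.2 ^ 2 := by rw [mul_pow, ih_sq]
  rw [h3, om_eq]
  ring

theorem abs_nu_le {u : ℝ × ℝ} (hu : u.1 ^ 2 + u.2 ^ 2 = 1) : |nu u| ≤ 1 := by
  unfold nu
  rw [abs_mul]
  have h1 : |u.1 * (1 - 4 * u.2 ^ 2)| ≤ 1 := by
    rw [← sq_le_one_iff_abs_le_one]
    have h2 : u.1 ^ 2 = 1 - u.2 ^ 2 := by linarith
    have h3 : (u.1 * (1 - 4 * u.2 ^ 2)) ^ 2 = 1 - (u.2 * (3 - 4 * u.2 ^ 2)) ^ 2 := by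
      rw [mul_pow, h2]
      ring
    rw [h3]
    nlinarith [sq_nonneg (u.2 * (3 - 4 * u.2 ^ 2))]
  calc |u.1 * (1 - 4 * u.2 ^ 2)| * |pk (ih * u.2)| ≤ 1 * 1 :=
    mul_le_mul h1 (abs_pk_le _) (abs_nonneg _) zero_le_one
    _ = 1 := one_mul 1

theorem abs_NN_le {u w : ℝ × ℝ} (hu : u.1 ^ 2 + u.2 ^ 2 = 1) (hw : w.1 ^ 2 + w.2 ^ 2 = 1) :
    |NN u w| ≤ 2 := by
  unfold NN cc
  have h1 : |nu u * cos (om * w.2)| ≤ 1 := by
    rw [abs_mul]
    calc |nu u| * |cos (om * w.2)| ≤ 1 * 1 :=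
      mul_le_mul (abs_nu_le hu) (abs_cos_le_one _) (abs_nonneg _) zero_le_one
      _ = 1 := one_mul 1
  have h2 : |nu w * cos (om * u.2)| ≤ 1 := by
    rw [abs_mul]
    calc |nu w| * |cos (om * u.2)| ≤ 1 * 1 :=
      mul_le_mul (abs_nu_le hw) (abs_cos_le_one _) (abs_nonneg _) zero_le_one
      _ = 1 := one_mul 1
  have h3 := abs_add_le (nu u * cos (om * w.2)) (nu w * cos (om * u.2))
  linarith

end Pool.Agent.StripSin
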