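import Pool.Agent.StripSin.Flux

/-! # The derivative of the flux along a moving edge -/

set_option autoImplicit false

open Real Set

namespace Pool.Agent.StripSin

theorem nu_comp {u1 u2 : ℝ → ℝ} {a1 a2 α t : ℝ} (h1 : HasDerivAt u1 a1 t)
    (h2 : HasDerivAt u2 a2 t) (e1 : a1 = -(α * u2 t)) (e2 : a2 = α * u1 t)
    (hu : u1 t ^ 2 + u2 t ^ 2 = 1) :
    HasDerivAt (fun t => nu (u1 t, u2 t)) (α * nd (u1 t, u2 t)) t := by
  have h3 : HasDerivAt (fun t => pk (ih * u2 t)) (pk1 (ih * u2 t) * (ih * a2)) t :=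
    HasDerivAt.comp (h₂ := pk) t (hasDerivAt_pk (ih * u2 t)) (h2.const_mul ih)
  have h4 : HasDerivAt (fun t => 1 - 4 * u2 t ^ 2) (-(4 * (2 * u2 t * a2))) t :=
    (((h2.pow 2).const_mul 4).const_sub 1).congr_deriv (by norm_num)
  have h5 := (h1.mul h4).mul h3
  have e : (fun t => nu (u1 t, u2 t)) = fun t => u1 t * (1 - 4 * u2 t ^ 2) * pk (ih * u2 t) := rfl
  rw [e]
  refine h5.congr_deriv ?_
  unfold nd
  simp only [Pi.mul_apply]
  rw [e1, e2]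
  linear_combination (-8 * α * u2 t * pk (ih * u2 t)) * hu

theorem cc_comp {u1 u2 : ℝ → ℝ} {a2 α t : ℝ}
    (h2 : HasDerivAt u2 a2 t) (e2 : a2 = α * u1 t) :
    HasDerivAt (fun t => cc (u1 t, u2 t)) (-(α * qq (u1 t, u2 t))) t := by
  have h3 : HasDerivAt (fun t => cos (om * u2 t)) (-sin (om * u2 t) * (om * a2)) t :=
    (h2.const_mul om).cos
  have e : (fun t => cc (u1 t, u2 t)) = fun t => cos (om * u2 t) := rfl
  rw [e]
  refine h3.congr_deriv ?_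
  unfold qq
  simp only
  rw [e2]
  ring

theorem cauchy_aux {G e1 e2 u1 u2 w1 w2 p q n s α β m S C : ℝ} (hsc : S ^ 2 + C ^ 2 = 1)
    (hu : u1 ^ 2 + u2 ^ 2 = 1) (hw : w1 ^ 2 + w2 ^ 2 = 1) (hs : 0 < s)
    (hsd : s ^ 2 = 1 - (u1 * w1 + u2 * w2) ^ 2)
    (hα : α * s = -(e1 * w1 + e2 * w2)) (hβ : β * s = e1 * u1 + e2 * u2)
    (hn : p ^ 2 + q ^ 2 - 2 * (u1 * w1 + u2 * w2) * (p * q) ≤
      (1 - (u1 * w1 + u2 * w2) ^ 2) * (G ^ 2 - m ^ 2 * n ^ 2)) :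
    (-(m * e2) * C * n + S * (α * p + β * q)) ^ 2 ≤ G ^ 2 * (e1 ^ 2 + e2 ^ 2) := by
  have h1 : (-(m * e2) * C * n + S * (α * p + β * q)) ^ 2 ≤
      (m * e2 * n) ^ 2 + (α * p + β * q) ^ 2 := by
    nlinarith [sq_nonneg (m * e2 * n * S + (α * p + β * q) * C)]
  have h2 : (s * (α * p + β * q)) ^ 2 ≤ (e1 ^ 2 + e2 ^ 2) *
      (p ^ 2 + q ^ 2 - 2 * (u1 * w1 + u2 * w2) * (p * q)) := by
    have e3 : s * (α * p + β * q) = e1 * (q * u1 - p * w1) + e2 * (q * u2 - p * w2) := by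
      linear_combination p * hα + q * hβ
    have e4 : p ^ 2 + q ^ 2 - 2 * (u1 * w1 + u2 * w2) * (p * q) =
        (q * u1 - p * w1) ^ 2 + (q * u2 - p * w2) ^ 2 := by
      linear_combination -q ^ 2 * hu - p ^ 2 * hw
    rw [e3, e4]
    nlinarith [sq_nonneg (e1 * (q * u2 - p * w2) - e2 * (q * u1 - p * w1))]
  have hE : 0 ≤ e1 ^ 2 + e2 ^ 2 := by positivity
  have h3 : (s * (α * p + β * q)) ^ 2 ≤ (e1 ^ 2 + e2 ^ 2) * (s ^ 2 * (G ^ 2 - m ^ 2 * n ^ 2)) := by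
    refine h2.trans (mul_le_mul_of_nonneg_left ?_ hE)
    rw [hsd]
    exact hn
  have h4 : (m * e2 * n) ^ 2 ≤ (e1 ^ 2 + e2 ^ 2) * (m ^ 2 * n ^ 2) := by
    nlinarith [mul_nonneg (sq_nonneg e1) (mul_nonneg (sq_nonneg m) (sq_nonneg n))]
  have hs2 : 0 < s ^ 2 := by positivity
  have h5 : s ^ 2 * (-(m * e2) * C * n + S * (α * p + β * q)) ^ 2 ≤
      s ^ 2 * (G ^ 2 * (e1 ^ 2 + e2 ^ 2)) := by
    have a1 := mul_le_mul_of_nonneg_left h1 hs2.le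
    have a2 := mul_le_mul_of_nonneg_left h4 hs2.le
    have a3 : s ^ 2 * ((m * e2 * n) ^ 2 + (α * p + β * q) ^ 2) =
        s ^ 2 * (m * e2 * n) ^ 2 + (s * (α * p + β * q)) ^ 2 := by ring
    have a4 : (e1 ^ 2 + e2 ^ 2) * (s ^ 2 * (G ^ 2 - m ^ 2 * n ^ 2)) +
        s ^ 2 * ((e1 ^ 2 + e2 ^ 2) * (m ^ 2 * n ^ 2)) = s ^ 2 * (G ^ 2 * (e1 ^ 2 + e2 ^ 2)) := by
      ring
    linarith
  exact le_of_mul_le_mul_left h5 hs2

/-- the derivative of the flux -/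
theorem deriv_flux {x y : ℝ → ℝ} {e1 e2 t : ℝ} (φ c G : ℝ) (hx : HasDerivAt x e1 t)
    (hy : HasDerivAt y e2 t) (h0 : 0 < x t ^ 2 + y t ^ 2) (h4 : x t ^ 2 + y t ^ 2 < 4)
    (hn : ∀ u w : ℝ × ℝ, u = uu (x t, y t) → w = ww (x t, y t) →
      na u w ^ 2 + na w u ^ 2 - 2 * (u.1 * w.1 + u.2 * w.2) * (na u w * na w u) ≤
      (1 - (u.1 * w.1 + u.2 * w.2) ^ 2) * (G ^ 2 - om ^ 2 * NN u w ^ 2)) :
    ∃ D, HasDerivAt (fun t => sin (φ - om * (c + y t)) * Nv (x t, y t)) D t ∧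
      D ^ 2 ≤ G ^ 2 * (e1 ^ 2 + e2 ^ 2) := by
  set ρ : ℝ := rho (x t, y t) with hρ
  have hρ0 : 0 < ρ := rho_pos (v := (x t, y t)) h0 h4
  have hρ2 : ρ ^ 2 * (x t ^ 2 + y t ^ 2) = 1 - (x t ^ 2 + y t ^ 2) / 4 :=
    rho_sq (v := (x t, y t)) h0 h4.le
  have hS : HasDerivAt (fun t => x t ^ 2 + y t ^ 2) (2 * x t * e1 + 2 * y t * e2) t :=
    ((hx.pow 2).add (hy.pow 2)).congr_deriv (by norm_num)
  have hSne : x t ^ 2 + y t ^ 2 ≠ 0 := h0.ne'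
  have hinv : HasDerivAt (fun t => 1 / (x t ^ 2 + y t ^ 2) - 1 / 4)
      (-(2 * x t * e1 + 2 * y t * e2) / (x t ^ 2 + y t ^ 2) ^ 2) t := by
    have := (hS.inv hSne).sub_const (1 / 4)
    simp only [one_div]
    simpa using this
  have hpos : 0 < 1 / (x t ^ 2 + y t ^ 2) - 1 / 4 := by
    have : 1 / 4 < 1 / (x t ^ 2 + y t ^ 2) := one_div_lt_one_div_of_lt h0 h4
    linarith
  have hr := hinv.sqrt hpos.ne'
  obtain ⟨r, hr, hrr⟩ : ∃ r, HasDerivAt (fun t => rho (x t, y t)) r t ∧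
      2 * ρ * r * (x t ^ 2 + y t ^ 2) ^ 2 = -(2 * x t * e1 + 2 * y t * e2) := by
    refine ⟨_, hr, ?_⟩
    have e : √(1 / (x t ^ 2 + y t ^ 2) - 1 / 4) = ρ := rfl
    rw [e]
    field_simp
  have hu1 : HasDerivAt (fun t => (uu (x t, y t)).1) (e1 / 2 - (r * y t + ρ * e2)) t :=
    (hx.div_const 2).sub (hr.mul hy)
  have hu2 : HasDerivAt (fun t => (uu (x t, y t)).2) (e2 / 2 + (r * x t + ρ * e1)) t :=
    (hy.div_const 2).add (hr.mul hx)
  have hw1 : HasDerivAt (fun t => (ww (x t, y t)).1) (e1 / 2 + (r * y t + ρ * e2)) t :=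
    (hx.div_const 2).add (hr.mul hy)
  have hw2 : HasDerivAt (fun t => (ww (x t, y t)).2) (e2 / 2 - (r * x t + ρ * e1)) t :=
    (hy.div_const 2).sub (hr.mul hx)
  have hU := uu_unit (v := (x t, y t)) h0 h4.le
  have hW := ww_unit (v := (x t, y t)) h0 h4.le
  have hcr := cross_uw (x t, y t)
  have hdot := dot_uw (v := (x t, y t)) h0 h4.le
  have a1 := uu_add_ww1 (x t, y t)
  have a2 := uu_add_ww2 (x t, y t)
  have hUd1 : (uu (x t, y t)).1 = x t / 2 - ρ * y t := rfl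
  have hUd2 : (uu (x t, y t)).2 = y t / 2 + ρ * x t := rfl
  have hWd1 : (ww (x t, y t)).1 = x t / 2 + ρ * y t := rfl
  have hWd2 : (ww (x t, y t)).2 = y t / 2 - ρ * x t := rfl
  set u : ℝ × ℝ := uu (x t, y t) with hu
  set w : ℝ × ℝ := ww (x t, y t) with hw
  simp only at hcr hdot a1 a2
  have hs : 0 < w.1 * u.2 - w.2 * u.1 := by
    rw [hcr]
    exact mul_pos hρ0 h0
  set s : ℝ := w.1 * u.2 - w.2 * u.1 with hsdef
  -- the key relation: the derivative of `|u| ^ 2` vanishes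
  have hkey : (x t ^ 2 + y t ^ 2) * (ρ * r * (x t ^ 2 + y t ^ 2) +
      (2 * x t * e1 + 2 * y t * e2) * (1 / 8 + ρ ^ 2 / 2)) = 0 := by
    linear_combination (1 / 2 : ℝ) * hrr + (2 * x t * e1 + 2 * y t * e2) / 2 * hρ2
  have hkey2 : ρ * r * (x t ^ 2 + y t ^ 2) +
      (2 * x t * e1 + 2 * y t * e2) * (1 / 8 + ρ ^ 2 / 2) = 0 :=
    (mul_eq_zero.1 hkey).resolve_left hSne
  have hud : u.1 * (e1 / 2 - (r * y t + ρ * e2)) + u.2 * (e2 / 2 + (r * x t + ρ * e1)) = 0 := by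
    rw [hUd1, hUd2]
    linear_combination hkey2
  have hwd : w.1 * (e1 / 2 + (r * y t + ρ * e2)) + w.2 * (e2 / 2 - (r * x t + ρ * e1)) = 0 := by
    rw [hWd1, hWd2]
    linear_combination hkey2
  set α : ℝ := -(e1 * w.1 + e2 * w.2) / s with hα
  set β : ℝ := (e1 * u.1 + e2 * u.2) / s with hβ
  have hαs : α * s = -(e1 * w.1 + e2 * w.2) := div_mul_cancel₀ _ hs.ne'
  have hβs : β * s = e1 * u.1 + e2 * u.2 := div_mul_cancel₀ _ hs.ne'
  set A1 : ℝ := e1 / 2 - (r * y t + ρ * e2) with hA1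
  set A2 : ℝ := e2 / 2 + (r * x t + ρ * e1) with hA2
  set B1 : ℝ := e1 / 2 + (r * y t + ρ * e2) with hB1
  set B2 : ℝ := e2 / 2 - (r * x t + ρ * e1) with hB2
  have hAB1 : A1 + B1 = e1 := by rw [hA1, hB1]; ring
  have hAB2 : A2 + B2 = e2 := by rw [hA2, hB2]; ring
  have f1 : A1 = -(α * u.2) := by
    apply mul_right_cancel₀ hs.ne'
    linear_combination u.2 * hαs - w.2 * hud - u.2 * hwd + u.2 * w.1 * hAB1 + u.2 * w.2 * hAB2 +
      A1 * hsdef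
  have f2 : A2 = α * u.1 := by
    apply mul_right_cancel₀ hs.ne'
    linear_combination -u.1 * hαs + w.1 * hud + u.1 * hwd - u.1 * w.1 * hAB1 -
      u.1 * w.2 * hAB2 + A2 * hsdef
  have f3 : B1 = -(β * w.2) := by
    apply mul_right_cancel₀ hs.ne'
    linear_combination w.2 * hβs + u.2 * hwd + w.2 * hud - w.2 * u.1 * hAB1 -
      w.2 * u.2 * hAB2 + B1 * hsdef
  have f4 : B2 = β * w.1 := by
    apply mul_right_cancel₀ hs.ne'
    linear_combination -w.1 * hβs - u.1 * hwd - w.1 * hud + w.1 * u.1 * hAB1 +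
      w.1 * u.2 * hAB2 + B2 * hsdef
  have n1 := nu_comp (α := α) hu1 hu2 f1 f2 hU
  have n2 := cc_comp (α := α) (u1 := fun t => (uu (x t, y t)).1) hu2 f2
  have n3 := nu_comp (α := β) hw1 hw2 f3 f4 hW
  have n4 := cc_comp (α := β) (u1 := fun t => (ww (x t, y t)).1) hw2 f4
  have n5 : HasDerivAt (fun t => sin (φ - om * (c + y t)))
      (cos (φ - om * (c + y t)) * -(om * e2)) t :=
    (((hy.const_add c).const_mul om).const_sub φ).sin
  have n6 := n5.mul ((n1.mul n4).add (n3.mul n2))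
  refine ⟨_, n6, ?_⟩
  have hsd : s ^ 2 = 1 - (u.1 * w.1 + u.2 * w.2) ^ 2 := by
    rw [hsdef]
    linear_combination (w.1 ^ 2 + w.2 ^ 2) * hU + hW
  have hb := cauchy_aux (G := G) (p := na u w) (q := na w u) (n := NN u w) (m := om)
    (S := sin (φ - om * (c + y t))) (C := cos (φ - om * (c + y t)))
    (sin_sq_add_cos_sq _) hU hW hs hsd hαs hβs (hn u w rfl rfl)
  refine le_trans (le_of_eq ?_) hb
  congr 1
  unfold NN na
  simp only [Pi.add_apply, Pi.mul_apply]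
  ring

end Pool.Agent.StripSin
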