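import Pool.Agent.StripSin.Cert
import Pool.Agent.StripChord.Final

/-! # The sine bound for packings of unit discs in a strip -/

set_option autoImplicit false

open Real Set

namespace Pool.Agent.StripSin

open Pool.Agent.StripNear Pool.Agent.StripChord

theorem abs_Nv_bound (v : ℝ × ℝ) {H : ℝ} (h1 : |v.1| ≤ 2) (h2 : |v.2| ≤ H) :
    |Nv v| ≤ 2 * (1 + H ^ 2) := by
  have hH : 0 ≤ H := (abs_nonneg _).trans h2
  rcases le_or_gt (v.1 ^ 2 + v.2 ^ 2) 4 with h | h
  · rcases le_or_gt (v.1 ^ 2 + v.2 ^ 2) 0 with h0 | h0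
    · have e1 : v.1 = 0 := by nlinarith [sq_nonneg v.1, sq_nonneg v.2]
      have e2 : v.2 = 0 := by nlinarith [sq_nonneg v.1, sq_nonneg v.2]
      have e3 : Nv v = 0 := by
        unfold Nv uu ww NN nu
        simp [e1, e2]
      rw [e3, abs_zero]
      positivity
    · have := abs_Nv_le h0 h
      nlinarith
  · have hr : rho v = 0 := by
      unfold rho
      apply Real.sqrt_eq_zero_of_nonpos
      have : 1 / (v.1 ^ 2 + v.2 ^ 2) ≤ 1 / 4 := by
        apply one_div_le_one_div_of_le (by norm_num) h.le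
      linarith
    have hu : uu v = (v.1 / 2, v.2 / 2) := by
      unfold uu
      rw [hr]
      simp
    have hw : ww v = (v.1 / 2, v.2 / 2) := by
      unfold ww
      rw [hr]
      simp
    unfold Nv NN
    rw [hu, hw]
    have hn : |nu (v.1 / 2, v.2 / 2)| ≤ 1 + H ^ 2 := by
      unfold nu
      simp only
      rw [abs_mul, abs_mul]
      have a1 : |v.1 / 2| ≤ 1 := by
        rw [abs_div, abs_of_pos (by norm_num : (0 : ℝ) < 2)]
        linarith
      have a2 : |1 - 4 * (v.2 / 2) ^ 2| ≤ 1 + H ^ 2 := by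
        have a3 : v.2 ^ 2 ≤ H ^ 2 := by
          rw [← sq_abs]
          exact pow_le_pow_left₀ (abs_nonneg _) h2 2
        rw [abs_le]
        constructor <;> nlinarith [sq_nonneg v.2]
      calc |v.1 / 2| * |1 - 4 * (v.2 / 2) ^ 2| * |pk (ih * (v.2 / 2))| ≤ 1 * (1 + H ^ 2) * 1 := by
            apply mul_le_mul _ (abs_pk_le _) (abs_nonneg _) (by positivity)
            exact mul_le_mul a1 a2 (abs_nonneg _) zero_le_one
        _ = 1 + H ^ 2 := by ring
    have hc : |cc (v.1 / 2, v.2 / 2)| ≤ 1 := abs_cos_le_one _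
    have hp : |nu (v.1 / 2, v.2 / 2) * cc (v.1 / 2, v.2 / 2)| ≤ 1 + H ^ 2 := by
      rw [abs_mul]
      calc |nu (v.1 / 2, v.2 / 2)| * |cc (v.1 / 2, v.2 / 2)| ≤ (1 + H ^ 2) * 1 :=
            mul_le_mul hn hc (abs_nonneg _) (by positivity)
        _ = 1 + H ^ 2 := mul_one _
    refine (abs_add_le _ _).trans ?_
    linarith

/-- The number of points of a strip of height `H` in an interval of length `L`. -/
theorem sin_count {H : ℝ} (hH : 0 ≤ H) :
    ∃ C : ℝ, ∀ L : ℝ, 0 ≤ L → ∀ X : Finset Pt, UnitSep X → (∀ p ∈ X, 0 ≤ p.1 ∧ p.1 ≤ L) →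
      InStrip H X → (X.card : ℝ) ≤ (1 + H * ih - 1 / 10 * |sin (om * H)|) * L + C := by
  obtain ⟨ψ, hψ, hanti⟩ : ∃ ψ : ℝ, sin ψ = |sin (om * H)| ∧
      ∀ m, sin (ψ - om * (2 * (H - m))) = -sin (ψ - om * (2 * m)) := by
    rcases le_total 0 (sin (om * H)) with h | h
    · refine ⟨om * H, by rw [abs_of_nonneg h], fun m => ?_⟩
      rw [← sin_neg]
      congr 1
      ring
    · refine ⟨om * H + π, by rw [abs_of_nonpos h, sin_add_pi], fun m => ?_⟩
      have e1 : om * H + π - om * (2 * (H - m)) = -(om * H - om * (2 * m)) + π := by ring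
      have e2 : om * H + π - om * (2 * m) = om * H - om * (2 * m) + π := by ring
      rw [e1, e2, sin_add_pi, sin_add_pi, sin_neg]
  have hψ0 : 0 ≤ sin ψ := by
    rw [hψ]
    exact abs_nonneg _
  have hc := cells hψ0 hanti
  have hmain := Pool.Agent.Strip051.Sweep.count (K := 2 * H * ih + 2 * (1 + H ^ 2)) hH hc
    (w := wt H ψ) (w' := wt H ψ)
    (fun a b hab ha0 haH hb0 hbH => by
      unfold FF
      have hN : |Nv (b.1 - a.1, b.2 - a.2)| ≤ 2 * (1 + H ^ 2) := by
        apply abs_Nv_bound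
        · simp only
          rw [abs_sub_comm]
          exact hab
        · simp only
          rw [abs_le]
          constructor <;> linarith
      have hg : |gf ψ a b| ≤ 2 * (1 + H ^ 2) := by
        unfold gf
        rw [abs_mul]
        calc |sin (ψ - om * (a.2 + b.2))| * |Nv (b.1 - a.1, b.2 - a.2)| ≤
            1 * (2 * (1 + H ^ 2)) :=
              mul_le_mul (abs_sin_le_one _) hN (abs_nonneg _) zero_le_one
          _ = 2 * (1 + H ^ 2) := one_mul _
      have h1 : |(b.1 - a.1) * (a.2 + b.2 - H)| ≤ 2 * H := by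
        rw [abs_mul, abs_sub_comm b.1]
        apply mul_le_mul hab _ (abs_nonneg _) (by norm_num)
        rw [abs_le]
        constructor <;> linarith
      have hih := ih_pos
      have h2 : |-((b.1 - a.1) * (a.2 + b.2 - H)) * (ih / 2)| ≤ 2 * H * (ih / 2) := by
        rw [abs_mul, abs_neg, abs_of_pos (by positivity : 0 < ih / 2)]
        exact mul_le_mul_of_nonneg_right h1 (by positivity)
      have h3 := abs_sub (-((b.1 - a.1) * (a.2 + b.2 - H)) * (ih / 2)) (1 / 20 * gf ψ a b)
      have h4 : |1 / 20 * gf ψ a b| ≤ 1 / 20 * (2 * (1 + H ^ 2)) := by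
        rw [abs_mul, abs_of_pos (by norm_num : (0 : ℝ) < 1 / 20)]
        exact mul_le_mul_of_nonneg_left hg (by norm_num)
      have h5 : 0 ≤ H * ih := mul_nonneg hH hih.le
      nlinarith)
    (fun a ha0 haH => by
      rw [sub_self, abs_zero]
      have := ih_pos
      positivity)
    (fun a ha0 haH => by
      rw [sub_self, abs_zero]
      have := ih_pos
      positivity)
  obtain ⟨C, hC⟩ := hmain
  refine ⟨C, fun L hL X hX hx hs => ?_⟩
  have h1 := hC L hL X hX hx hs
  have e : wt H ψ + wt H ψ = 1 + H * ih - 1 / 10 * |sin (om * H)| := by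
    unfold wt
    rw [hψ]
    ring
  rwa [e] at h1

/-- The sine bound for the density. -/
noncomputable def sineDensity (w : ℝ) : ℝ :=
  π / (2 * w) * (1 + (w - 2) / √3 - 1 / 10 * |sin (π * (w - 2) / √3)|)

theorem sine_bound {w : ℝ} (hw : 2 ≤ w) {C : Set E2} (hC : IsStripPacking w C) {O : E2} {d : ℝ}
    (hd : HasDensity w C O d) : d ≤ sineDensity w := by
  obtain ⟨C0, hC0⟩ := sin_count (H := (w - 2) / 2) (by linarith)
  have h1 := density_le hw hC0 hC hd
  refine h1.trans (le_of_eq ?_)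
  unfold sineDensity
  have e1 : (w - 2) / 2 * ih = (w - 2) / √3 := by
    unfold ih
    ring
  have e2 : om * ((w - 2) / 2) = π * (w - 2) / √3 := by
    unfold om
    ring
  rw [e1, e2]
  ring

end Pool.Agent.StripSin
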