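import Pool.Agent.StripSin.Num

/-! # The flux along an edge -/

set_option autoImplicit false

open Real Set

namespace Pool.Agent.StripSin

/-- `√(1/|v|² - 1/4)` -/
noncomputable def rho (v : ℝ × ℝ) : ℝ := √(1 / (v.1 ^ 2 + v.2 ^ 2) - 1 / 4)

/-- `v = uu v + ww v` is the decomposition of `v` into unit vectors, `uu v` on the left. -/
noncomputable def uu (v : ℝ × ℝ) : ℝ × ℝ := (v.1 / 2 - rho v * v.2, v.2 / 2 + rho v * v.1)

noncomputable def ww (v : ℝ × ℝ) : ℝ × ℝ := (v.1 / 2 + rho v * v.2, v.2 / 2 - rho v * v.1)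

/-- the amplitude of the flux along `v` -/
noncomputable def Nv (v : ℝ × ℝ) : ℝ := NN (uu v) (ww v)

/-- the flux with phase `φ` along the edge from `p` to `q` -/
noncomputable def gf (φ : ℝ) (p q : ℝ × ℝ) : ℝ :=
  sin (φ - om * (p.2 + q.2)) * Nv (q.1 - p.1, q.2 - p.2)

theorem rho_sq {v : ℝ × ℝ} (h0 : 0 < v.1 ^ 2 + v.2 ^ 2) (h : v.1 ^ 2 + v.2 ^ 2 ≤ 4) :
    rho v ^ 2 * (v.1 ^ 2 + v.2 ^ 2) = 1 - (v.1 ^ 2 + v.2 ^ 2) / 4 := by
  unfold rho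
  rw [Real.sq_sqrt]
  · field_simp
  · have : 1 / 4 ≤ 1 / (v.1 ^ 2 + v.2 ^ 2) := by
      apply one_div_le_one_div_of_le h0 h
    linarith

theorem rho_pos {v : ℝ × ℝ} (h0 : 0 < v.1 ^ 2 + v.2 ^ 2) (h : v.1 ^ 2 + v.2 ^ 2 < 4) :
    0 < rho v := by
  unfold rho
  apply Real.sqrt_pos.2
  have : 1 / 4 < 1 / (v.1 ^ 2 + v.2 ^ 2) := by
    apply one_div_lt_one_div_of_lt h0 h
  linarith

theorem rho_nonneg (v : ℝ × ℝ) : 0 ≤ rho v := Real.sqrt_nonneg _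

theorem uu_unit {v : ℝ × ℝ} (h0 : 0 < v.1 ^ 2 + v.2 ^ 2) (h : v.1 ^ 2 + v.2 ^ 2 ≤ 4) :
    (uu v).1 ^ 2 + (uu v).2 ^ 2 = 1 := by
  have h1 := rho_sq h0 h
  simp only [uu]
  linear_combination h1

theorem ww_unit {v : ℝ × ℝ} (h0 : 0 < v.1 ^ 2 + v.2 ^ 2) (h : v.1 ^ 2 + v.2 ^ 2 ≤ 4) :
    (ww v).1 ^ 2 + (ww v).2 ^ 2 = 1 := by
  have h1 := rho_sq h0 h
  simp only [ww]
  linear_combination h1

theorem uu_add_ww1 (v : ℝ × ℝ) : (uu v).1 + (ww v).1 = v.1 := by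
  simp only [uu, ww]
  ring

theorem uu_add_ww2 (v : ℝ × ℝ) : (uu v).2 + (ww v).2 = v.2 := by
  simp only [uu, ww]
  ring

theorem cross_uw (v : ℝ × ℝ) :
    (ww v).1 * (uu v).2 - (ww v).2 * (uu v).1 = rho v * (v.1 ^ 2 + v.2 ^ 2) := by
  simp only [uu, ww]
  ring

theorem dot_uw {v : ℝ × ℝ} (h0 : 0 < v.1 ^ 2 + v.2 ^ 2) (h : v.1 ^ 2 + v.2 ^ 2 ≤ 4) :
    (uu v).1 * (ww v).1 + (uu v).2 * (ww v).2 = (v.1 ^ 2 + v.2 ^ 2) / 2 - 1 := by
  have h1 := rho_sq h0 h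
  simp only [uu, ww]
  linear_combination -h1

theorem abs_Nv_le {v : ℝ × ℝ} (h0 : 0 < v.1 ^ 2 + v.2 ^ 2) (h : v.1 ^ 2 + v.2 ^ 2 ≤ 4) :
    |Nv v| ≤ 2 := abs_NN_le (uu_unit h0 h) (ww_unit h0 h)

theorem rho_neg (v : ℝ × ℝ) : rho (-v.1, -v.2) = rho v := by
  simp only [rho, neg_sq]

theorem rho_mirror (v : ℝ × ℝ) : rho (v.1, -v.2) = rho v := by
  simp only [rho, neg_sq]

theorem nu_neg (u : ℝ × ℝ) : nu (-u.1, -u.2) = -nu u := by
  unfold nu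
  simp only [mul_neg, pk_neg]
  ring

theorem nu_mirror (u : ℝ × ℝ) : nu (u.1, -u.2) = nu u := by
  unfold nu
  simp only [mul_neg, pk_neg]
  ring

theorem cc_neg (u : ℝ × ℝ) : cc (-u.1, -u.2) = cc u := by
  unfold cc
  simp only [mul_neg, cos_neg]

theorem cc_mirror (u : ℝ × ℝ) : cc (u.1, -u.2) = cc u := by
  unfold cc
  simp only [mul_neg, cos_neg]

theorem Nv_neg (v : ℝ × ℝ) : Nv (-v.1, -v.2) = -Nv v := by
  have e1 : uu (-v.1, -v.2) = (-(uu v).1, -(uu v).2) := by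
    simp only [uu, rho_neg]
    refine Prod.ext ?_ ?_ <;> simp only <;> ring
  have e2 : ww (-v.1, -v.2) = (-(ww v).1, -(ww v).2) := by
    simp only [ww, rho_neg]
    refine Prod.ext ?_ ?_ <;> simp only <;> ring
  unfold Nv NN
  rw [e1, e2, nu_neg, nu_neg, cc_neg, cc_neg]
  ring

theorem Nv_mirror (v : ℝ × ℝ) : Nv (v.1, -v.2) = Nv v := by
  have e1 : uu (v.1, -v.2) = ((ww v).1, -(ww v).2) := by
    simp only [uu, ww, rho_mirror]
    refine Prod.ext ?_ ?_ <;> simp only <;> ring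
  have e2 : ww (v.1, -v.2) = ((uu v).1, -(uu v).2) := by
    simp only [uu, ww, rho_mirror]
    refine Prod.ext ?_ ?_ <;> simp only <;> ring
  unfold Nv NN
  rw [e1, e2, nu_mirror, nu_mirror, cc_mirror, cc_mirror]
  ring

theorem gf_symm (φ : ℝ) (p q : ℝ × ℝ) : gf φ q p = -gf φ p q := by
  unfold gf
  have e : (p.1 - q.1, p.2 - q.2) =
      (-(q.1 - p.1, q.2 - p.2).1, -(q.1 - p.1, q.2 - p.2).2) := by
    refine Prod.ext ?_ ?_ <;> simp only <;> ring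
  rw [e, Nv_neg, add_comm q.2 p.2]
  ring

theorem abs_gf_le (φ : ℝ) {p q : ℝ × ℝ} (h0 : 0 < (q.1 - p.1) ^ 2 + (q.2 - p.2) ^ 2)
    (h : (q.1 - p.1) ^ 2 + (q.2 - p.2) ^ 2 ≤ 4) : |gf φ p q| ≤ 2 := by
  unfold gf
  rw [abs_mul]
  calc |sin (φ - om * (p.2 + q.2))| * |Nv (q.1 - p.1, q.2 - p.2)| ≤ 1 * 2 :=
        mul_le_mul (abs_sin_le_one _) (abs_Nv_le h0 h) (abs_nonneg _) zero_le_one
    _ = 2 := one_mul 2

theorem S3_unit {u : ℝ × ℝ} (h : u.1 ^ 2 + u.2 ^ 2 = 1) :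
    u.2 * (3 - 4 * u.2 ^ 2) = 3 * u.1 ^ 2 * u.2 - u.2 ^ 3 := by
  linear_combination -(3 * u.2) * h

theorem C3_unit {u : ℝ × ℝ} (h : u.1 ^ 2 + u.2 ^ 2 = 1) :
    u.1 * (1 - 4 * u.2 ^ 2) = u.1 ^ 3 - 3 * u.1 * u.2 ^ 2 := by
  linear_combination -u.1 * h

theorem nu_r {r : ℝ} (h1 : ih * r = 1) (h2 : r ^ 2 = 3 / 4) (a b : ℝ) :
    nu (a, b * r) = a * (1 - 3 * b ^ 2) * pk b := by
  unfold nu
  simp only
  have e1 : ih * (b * r) = b := by
    calc ih * (b * r) = b * (ih * r) := by ring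
      _ = b := by rw [h1, mul_one]
  rw [e1, mul_pow, h2]
  ring

theorem cc_r {r : ℝ} (h1 : ih * r = 1) (a b : ℝ) : cc (a, b * r) = cos (b * π) := by
  unfold cc
  simp only
  congr 1
  rw [om_eq]
  calc π * ih * (b * r) = b * π * (ih * r) := by ring
    _ = b * π := by rw [h1, mul_one]

theorem NN_r {r : ℝ} (h1 : ih * r = 1) (h2 : r ^ 2 = 3 / 4) (x b : ℝ) :
    NN (x / 2 - r * (b * r), b * r / 2 + r * x) (x / 2 + r * (b * r), b * r / 2 - r * x) =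
    (x / 2 - 3 / 4 * b) * (1 - 3 * (b / 2 + x) ^ 2) * pk (b / 2 + x) * cos ((b / 2 - x) * π) +
    (x / 2 + 3 / 4 * b) * (1 - 3 * (b / 2 - x) ^ 2) * pk (b / 2 - x) * cos ((b / 2 + x) * π) := by
  have e1 : (x / 2 - r * (b * r), b * r / 2 + r * x) = (x / 2 - 3 / 4 * b, (b / 2 + x) * r) := by
    refine Prod.ext ?_ ?_
    · show x / 2 - r * (b * r) = x / 2 - 3 / 4 * b
      linear_combination -b * h2
    · show b * r / 2 + r * x = (b / 2 + x) * r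
      ring
  have e2 : (x / 2 + r * (b * r), b * r / 2 - r * x) = (x / 2 + 3 / 4 * b, (b / 2 - x) * r) := by
    refine Prod.ext ?_ ?_
    · show x / 2 + r * (b * r) = x / 2 + 3 / 4 * b
      linear_combination b * h2
    · show b * r / 2 - r * x = (b / 2 - x) * r
      ring
  rw [e1, e2]
  unfold NN
  rw [nu_r h1 h2, nu_r h1 h2, cc_r h1, cc_r h1]

/-- unit edges -/
theorem Nv_unit {v : ℝ × ℝ} (h : v.1 ^ 2 + v.2 ^ 2 = 1) : Nv v = nu v := by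
  have hr2 : rho v ^ 2 = 3 / 4 := by
    have := rho_sq (v := v) (by rw [h]; norm_num) (by rw [h]; norm_num)
    rw [h] at this
    linarith
  have hU := uu_unit (v := v) (by rw [h]; norm_num) (by rw [h]; norm_num)
  have hW := ww_unit (v := v) (by rw [h]; norm_num) (by rw [h]; norm_num)
  have e1 := nu_sin (uu v)
  have e2 := nu_sin (ww v)
  have e3 := nu_sin v
  have hadd := uu_add_ww2 v
  have s1 : (uu v).2 * (3 - 4 * (uu v).2 ^ 2) = -(v.2 * (3 - 4 * v.2 ^ 2)) := by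
    rw [S3_unit hU, S3_unit h]
    simp only [uu]
    generalize rho v = r at hr2
    linear_combination (3 * v.1 * r * v.2 ^ 2 - 9 / 2 * v.1 ^ 2 * v.2 - v.1 ^ 3 * r + 3 / 2 * v.2 ^ 3) * hr2
  have s2 : (ww v).2 * (3 - 4 * (ww v).2 ^ 2) = -(v.2 * (3 - 4 * v.2 ^ 2)) := by
    rw [S3_unit hW, S3_unit h]
    simp only [ww]
    generalize rho v = r at hr2
    linear_combination (-3 * v.1 * r * v.2 ^ 2 - 9 / 2 * v.1 ^ 2 * v.2 + v.1 ^ 3 * r + 3 / 2 * v.2 ^ 3) * hr2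
  have c1 : (uu v).1 * (1 - 4 * (uu v).2 ^ 2) = -(v.1 * (1 - 4 * v.2 ^ 2)) := by
    rw [C3_unit hU, C3_unit h]
    simp only [uu]
    generalize rho v = r at hr2
    linear_combination (9 / 2 * v.1 * v.2 ^ 2 + 3 * v.1 ^ 2 * r * v.2 - 3 / 2 * v.1 ^ 3 - r * v.2 ^ 3) * hr2
  have c2 : (ww v).1 * (1 - 4 * (ww v).2 ^ 2) = -(v.1 * (1 - 4 * v.2 ^ 2)) := by
    rw [C3_unit hW, C3_unit h]
    simp only [ww]
    generalize rho v = r at hr2
    linear_combination (9 / 2 * v.1 * v.2 ^ 2 - 3 * v.1 ^ 2 * r * v.2 - 3 / 2 * v.1 ^ 3 + r * v.2 ^ 3) * hr2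
  rw [s1, c1] at e1
  rw [s2, c2] at e2
  by_cases hS : v.2 * (3 - 4 * v.2 ^ 2) = 0
  · have hr0 := rho_nonneg v
    have hih : ih * rho v = 1 := by
      have h5 : (ih * rho v) ^ 2 = 1 := by
        rw [mul_pow, ih_sq, hr2]
        norm_num
      have h6 : 0 ≤ ih * rho v := mul_nonneg ih_pos.le hr0
      nlinarith
    have key : ∀ x b : ℝ, v = (x, b * rho v) → Nv v =
        (x / 2 - 3 / 4 * b) * (1 - 3 * (b / 2 + x) ^ 2) * pk (b / 2 + x) * cos ((b / 2 - x) * π) +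
        (x / 2 + 3 / 4 * b) * (1 - 3 * (b / 2 - x) ^ 2) * pk (b / 2 - x) *
          cos ((b / 2 + x) * π) := by
      intro x b hv
      have h7 := NN_r hih hr2 x b
      rw [← h7]
      have hv1 : v.1 = x := by rw [hv]
      have hv2 : v.2 = b * rho v := congrArg Prod.snd hv
      unfold Nv uu ww
      rw [hv1, hv2]
    have key2 : ∀ x b : ℝ, v = (x, b * rho v) → nu v = x * (1 - 3 * b ^ 2) * pk b := by
      intro x b hv
      have h7 := nu_r hih hr2 x b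
      rw [← h7, ← hv]
    have hcos1 : cos (-π) = -1 := by rw [cos_neg, cos_pi]
    have hcases : (v.2 = 0 ∧ (v.1 = 1 ∨ v.1 = -1)) ∨
        ((v.2 = rho v ∨ v.2 = -rho v) ∧ (v.1 = 1 / 2 ∨ v.1 = -(1 / 2))) := by
      rcases mul_eq_zero.1 hS with h8 | h8
      · left
        refine ⟨h8, ?_⟩
        rw [h8] at h
        have h10 : v.1 ^ 2 = 1 ^ 2 := by linarith
        exact sq_eq_sq_iff_eq_or_eq_neg.1 h10
      · right
        have h9 : v.2 ^ 2 = rho v ^ 2 := by rw [hr2]; linarith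
        refine ⟨sq_eq_sq_iff_eq_or_eq_neg.1 h9, ?_⟩
        have h10 : v.1 ^ 2 = (1 / 2) ^ 2 := by linarith
        exact sq_eq_sq_iff_eq_or_eq_neg.1 h10
    have hcos2 : cos (-(1 : ℝ) * π) = -1 := by rw [neg_one_mul, cos_neg, cos_pi]
    rcases hcases with ⟨h8, h9 | h9⟩ | ⟨h8 | h8, h9 | h9⟩
    · have hv : v = (1, 0 * rho v) := Prod.ext h9 (by rw [h8]; ring)
      rw [key 1 0 hv, key2 1 0 hv]
      norm_num [pk_zero, pk_one, pk_neg]
    · have hv : v = (-1, 0 * rho v) := Prod.ext h9 (by rw [h8]; ring)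
      rw [key (-1) 0 hv, key2 (-1) 0 hv]
      norm_num [pk_zero, pk_one, pk_neg]
    · have hv : v = (1 / 2, 1 * rho v) := Prod.ext h9 (by rw [h8]; ring)
      rw [key (1 / 2) 1 hv, key2 (1 / 2) 1 hv]
      norm_num [pk_zero, pk_one, pk_neg]
    · have hv : v = (-(1 / 2), 1 * rho v) := Prod.ext h9 (by rw [h8]; ring)
      rw [key (-(1 / 2)) 1 hv, key2 (-(1 / 2)) 1 hv]
      norm_num [pk_zero, pk_one, pk_neg]
    · have hv : v = (1 / 2, -1 * rho v) := Prod.ext h9 (by rw [h8]; ring)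
      rw [key (1 / 2) (-1) hv, key2 (1 / 2) (-1) hv]
      norm_num [pk_zero, pk_one, pk_neg]
    · have hv : v = (-(1 / 2), -1 * rho v) := Prod.ext h9 (by rw [h8]; ring)
      rw [key (-(1 / 2)) (-1) hv, key2 (-(1 / 2)) (-1) hv]
      norm_num [pk_zero, pk_one, pk_neg]
  · have h4 : π * (v.2 * (3 - 4 * v.2 ^ 2)) * ih ≠ 0 :=
      mul_ne_zero (mul_ne_zero pi_ne_zero hS) ih_pos.ne'
    apply mul_left_cancel₀ h4
    rw [e3]
    unfold Nv NN cc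
    have e4 : om * v.2 = om * (uu v).2 + om * (ww v).2 := by rw [← mul_add, hadd]
    rw [e4, sin_add]
    linear_combination -cos (om * (ww v).2) * e1 - cos (om * (uu v).2) * e2

end Pool.Agent.StripSin
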