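import Pool.Agent.StripSin.Taylor

/-! # Values of the kernel function at the grid points -/

set_option autoImplicit false

open Real

namespace Pool.Agent.StripSin

theorem grid_pk {s : ℝ} (C S P Q : ℝ) (hs0 : 0 ≤ s) (hs1 : s ≤ 1)
    (ht : |cos (om * s) - C| ≤ 3 / 10000000 ∧ |sin (om * s) - S| ≤ 3 / 10000000)
    (hx : 0.18 ≤ |3.62759873 * s * (1 - 4 / 3 * s ^ 2)|)
    (hP : |3.62759873 * s * (1 - 4 / 3 * s ^ 2) * P - S| ≤ 3 / 100000000)
    (hQ : |1.15470055 * s * (1 - 4 / 3 * s ^ 2) * Q - (C - (1 - 4 * s ^ 2) * P)| ≤ 3 / 10000000)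
    (hE : 9 / 10000000 + |1 - 4 * s ^ 2| * (3 / 1000000) ≤
      15 / 100000 * |1.15470055 * s * (1 - 4 / 3 * s ^ 2)|) :
    |pk (ih * s) - P| ≤ 3 / 1000000 ∧ |pk1 (ih * s) - Q| ≤ 15 / 100000 := by
  have h1 := pk_ident (ih * s)
  have h2 := pk1_ident (ih * s)
  have e1 : π * (ih * s) = om * s := by rw [om_eq]; ring
  have e2 : (ih * s) ^ 2 = 4 / 3 * s ^ 2 := by rw [mul_pow, ih_sq]
  rw [e1, e2] at h1 h2
  have hp1 : |pk (ih * s)| ≤ 1 := abs_pk_le _
  have hq1 : |pk1 (ih * s)| ≤ 1 := (abs_pk1_le _).trans (by norm_num)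
  set D : ℝ := 1 - 4 / 3 * s ^ 2 with hD
  have hD1 : |D| ≤ 1 := by
    rw [abs_le, hD]
    constructor <;> nlinarith
  have hP' : |pk (ih * s) - P| ≤ 3 / 1000000 := by
    have k1 : 3.62759873 * s * D * (pk (ih * s) - P) =
        (sin (om * s) - S) - (3.62759873 * s * D * P - S) +
        (3.62759873 - om) * (s * (D * pk (ih * s))) := by
      rw [← h1]
      ring
    have k2 : |(3.62759873 - om) * (s * (D * pk (ih * s)))| ≤ 1 / 100000000 := by
      rw [abs_mul, abs_mul, abs_mul, abs_of_nonneg hs0]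
      have h4 : |3.62759873 - om| ≤ 1 / 100000000 := by
        rw [abs_le]
        have := om_gt
        have := om_lt
        constructor <;> linarith
      have h5 : |D| * |pk (ih * s)| ≤ 1 := by
        calc |D| * |pk (ih * s)| ≤ 1 * 1 := mul_le_mul hD1 hp1 (abs_nonneg _) zero_le_one
          _ = 1 := one_mul 1
      have h6 : s * (|D| * |pk (ih * s)|) ≤ 1 := by
        calc s * (|D| * |pk (ih * s)|) ≤ 1 * 1 := mul_le_mul hs1 h5
              (mul_nonneg (abs_nonneg _) (abs_nonneg _)) zero_le_one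
          _ = 1 := one_mul 1
      calc |3.62759873 - om| * (s * (|D| * |pk (ih * s)|)) ≤ 1 / 100000000 * 1 :=
            mul_le_mul h4 h6 (mul_nonneg hs0 (mul_nonneg (abs_nonneg _) (abs_nonneg _)))
              (by norm_num)
        _ = 1 / 100000000 := mul_one _
    have k3 : |3.62759873 * s * D * (pk (ih * s) - P)| ≤ 4 / 10000000 := by
      rw [k1]
      refine (abs_add_le _ _).trans ?_
      have := abs_sub (sin (om * s) - S) (3.62759873 * s * D * P - S)
      linarith [ht.2]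
    rw [abs_mul] at k3
    have k4 : 0.18 * |pk (ih * s) - P| ≤ |3.62759873 * s * D| * |pk (ih * s) - P| :=
      mul_le_mul_of_nonneg_right hx (abs_nonneg _)
    have k5 := k4.trans k3
    norm_num at k5 ⊢
    linarith
  refine ⟨hP', ?_⟩
  have k1 : 1.15470055 * s * D * (pk1 (ih * s) - Q) =
      (cos (om * s) - C) - (1 - 4 * s ^ 2) * (pk (ih * s) - P) -
      (1.15470055 * s * D * Q - (C - (1 - 4 * s ^ 2) * P)) +
      (1.15470055 - ih) * (s * (D * pk1 (ih * s))) := by
    rw [← h2]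
    ring
  have k2 : |(1.15470055 - ih) * (s * (D * pk1 (ih * s)))| ≤ 6 / 100000000 := by
    rw [abs_mul, abs_mul, abs_mul, abs_of_nonneg hs0]
    have h4 : |1.15470055 - ih| ≤ 6 / 100000000 := by
      rw [abs_le]
      have := ih_gt
      have := ih_lt
      constructor <;> linarith
    have h5 : |D| * |pk1 (ih * s)| ≤ 1 := by
      calc |D| * |pk1 (ih * s)| ≤ 1 * 1 := mul_le_mul hD1 hq1 (abs_nonneg _) zero_le_one
        _ = 1 := one_mul 1
    have h6 : s * (|D| * |pk1 (ih * s)|) ≤ 1 := by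
      calc s * (|D| * |pk1 (ih * s)|) ≤ 1 * 1 := mul_le_mul hs1 h5
            (mul_nonneg (abs_nonneg _) (abs_nonneg _)) zero_le_one
        _ = 1 := one_mul 1
    calc |1.15470055 - ih| * (s * (|D| * |pk1 (ih * s)|)) ≤ 6 / 100000000 * 1 :=
          mul_le_mul h4 h6 (mul_nonneg hs0 (mul_nonneg (abs_nonneg _) (abs_nonneg _)))
            (by norm_num)
      _ = 6 / 100000000 := mul_one _
  have k3 : |(1 - 4 * s ^ 2) * (pk (ih * s) - P)| ≤ |1 - 4 * s ^ 2| * (3 / 1000000) := by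
    rw [abs_mul]
    exact mul_le_mul_of_nonneg_left hP' (abs_nonneg _)
  have k4 : |1.15470055 * s * D * (pk1 (ih * s) - Q)| ≤
      9 / 10000000 + |1 - 4 * s ^ 2| * (3 / 1000000) := by
    rw [k1]
    refine (abs_add_le _ _).trans ?_
    have a1 := abs_sub ((cos (om * s) - C) - (1 - 4 * s ^ 2) * (pk (ih * s) - P))
      (1.15470055 * s * D * Q - (C - (1 - 4 * s ^ 2) * P))
    have a2 := abs_sub (cos (om * s) - C) ((1 - 4 * s ^ 2) * (pk (ih * s) - P))
    linarith [ht.1]
  rw [abs_mul] at k4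
  have k5 : |1.15470055 * s * D| * |pk1 (ih * s) - Q| ≤ |1.15470055 * s * D| * (15 / 100000) := by
    linarith
  have k6 : 0 < |1.15470055 * s * D| := by
    have a1 : |3.62759873 * s * D| = 3.62759873 * |s * D| := by
      rw [mul_assoc, abs_mul, abs_of_pos (by norm_num : (0 : ℝ) < 3.62759873)]
    have a2 : |1.15470055 * s * D| = 1.15470055 * |s * D| := by
      rw [mul_assoc, abs_mul, abs_of_pos (by norm_num : (0 : ℝ) < 1.15470055)]
    rw [a1] at hx
    rw [a2]
    have a3 : 0 < |s * D| := by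
      by_contra hcon
      push Not at hcon
      linarith
    exact mul_pos (by norm_num) a3
  exact le_of_mul_le_mul_left k5 k6

/-- values at a grid point -/
structure Gr (s P Q C S : ℝ) : Prop where
  s0 : 0 ≤ s
  s1 : s ≤ 1
  hp : |pk (ih * s) - P| ≤ 3 / 100000
  hq : |pk1 (ih * s) - Q| ≤ 15 / 100000
  hc : |cos (om * s) - C| ≤ 3 / 10000000
  hs : |sin (om * s) - S| ≤ 3 / 10000000

theorem gr0 : Gr 0 1 0 1 0 := by
  constructor <;> norm_num [pk_zero, pk1_zero]

theorem gr_of {s a C S P Q : ℝ} (hs0 : 0 ≤ s) (hs1 : s ≤ 1) (ha0 : 0 ≤ a) (ha : a ≤ 3.63)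
    (h1 : |3.62759873 * s - a| ≤ 1 / 100000000) (hC : |pc (a ^ 2) - C| ≤ 1 / 100000000)
    (hS : |a * ps (a ^ 2) - S| ≤ 1 / 100000000)
    (hx : 0.18 ≤ |3.62759873 * s * (1 - 4 / 3 * s ^ 2)|)
    (hP : |3.62759873 * s * (1 - 4 / 3 * s ^ 2) * P - S| ≤ 3 / 100000000)
    (hQ : |1.15470055 * s * (1 - 4 / 3 * s ^ 2) * Q - (C - (1 - 4 * s ^ 2) * P)| ≤ 3 / 10000000)
    (hE : 9 / 10000000 + |1 - 4 * s ^ 2| * (3 / 1000000) ≤
      15 / 100000 * |1.15470055 * s * (1 - 4 / 3 * s ^ 2)|) : Gr s P Q C S := by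
  have h2 := grid_trig a C S hs0 hs1 ha0 ha h1 hC hS
  have h3 := grid_pk C S P Q hs0 hs1 h2 hx hP hQ hE
  exact ⟨hs0, hs1, h3.1.trans (by norm_num), h3.2, h2.1, h2.2⟩

theorem gr1 : Gr 0.0523 0.99765012 (-0.07775) 0.98205643 0.18858728 := by
  apply gr_of (a := 0.18972341) <;> norm_num [abs_le, le_abs, pc, ps]

theorem gr2 : Gr 0.1045 0.99064484 (-0.154475) 0.92900398 0.37006972 := by
  apply gr_of (a := 0.37908407) <;> norm_num [abs_le, le_abs, pc, ps]

theorem gr3 : Gr 0.1564 0.97914233 (-0.229041) 0.84332458 0.53740455 := by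
  apply gr_of (a := 0.56735644) <;> norm_num [abs_le, le_abs, pc, ps]

theorem gr4 : Gr 0.2079 0.96338198 (-0.300531) 0.72883475 0.68468964 := by
  apply gr_of (a := 0.75417778) <;> norm_num [abs_le, le_abs, pc, ps]

theorem gr5 : Gr 0.2588 0.94371868 (-0.367992) 0.59073848 0.80686309 := by
  apply gr_of (a := 0.93882255) <;> norm_num [abs_le, le_abs, pc, ps]

theorem gr6 : Gr 0.309 0.92054942 (-0.430738) 0.43484696 0.90050437 := by
  apply gr_of (a := 1.12092801) <;> norm_num [abs_le, le_abs, pc, ps]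

theorem gr7 : Gr 0.3584 0.89431831 (-0.488221) 0.26737223 0.96359332 := by
  apply gr_of (a := 1.30013138) <;> norm_num [abs_le, le_abs, pc, ps]

theorem gr8 : Gr 0.4067 0.86562784 (-0.539833) 0.09530705 0.99544792 := by
  apply gr_of (a := 1.4753444) <;> norm_num [abs_le, le_abs, pc, ps]

theorem gr9 : Gr 0.454 0.83487224 (-0.585564) (-0.07605997) 0.99710325 := by
  apply gr_of (a := 1.64692982) <;> norm_num [abs_le, le_abs, pc, ps]

theorem gr10 : Gr 0.5 0.80269608 (-0.625145) (-0.24061852) 0.97061976 := by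
  apply gr_of (a := 1.81379937) <;> norm_num [abs_le, le_abs, pc, ps]

theorem gr11 : Gr 0.5446 0.76961715 (-0.658669) (-0.39382936) 0.91918357 := by
  apply gr_of (a := 1.97559027) <;> norm_num [abs_le, le_abs, pc, ps]

theorem gr12 : Gr 0.5878 0.73604914 (-0.686412) (-0.53246173) 0.84645408 := by
  apply gr_of (a := 2.13230253) <;> norm_num [abs_le, le_abs, pc, ps]

theorem gr13 : Gr 0.6293 0.70260752 (-0.708572) (-0.65338822) 0.75702301 := by
  apply gr_of (a := 2.28284788) <;> norm_num [abs_le, le_abs, pc, ps]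

theorem gr14 : Gr 0.6691 0.66963589 (-0.725629) (-0.75550853) 0.65513882 := by
  apply gr_of (a := 2.42722631) <;> norm_num [abs_le, le_abs, pc, ps]

theorem gr15 : Gr 0.7071 0.63750978 (-0.738062) (-0.83836602) 0.54510772 := by
  apply gr_of (a := 2.56507506) <;> norm_num [abs_le, le_abs, pc, ps]

theorem gr16 : Gr 0.7431 0.60664464 (-0.746378) (-0.90221252) 0.43129174 := by
  apply gr_of (a := 2.69566862) <;> norm_num [abs_le, le_abs, pc, ps]

theorem gr17 : Gr 0.7771 0.57723828 (-0.751168) (-0.94841888) 0.31701993 := by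
  apply gr_of (a := 2.81900697) <;> norm_num [abs_le, le_abs, pc, ps]

theorem gr18 : Gr 0.809 0.54952751 (-0.752996) (-0.97867957) 0.20539303 := by
  apply gr_of (a := 2.93472737) <;> norm_num [abs_le, le_abs, pc, ps]

theorem gr19 : Gr 0.8387 0.52370744 (-0.752422) (-0.99509108) 0.09896335 := by
  apply gr_of (a := 3.04246705) <;> norm_num [abs_le, le_abs, pc, ps]

theorem gr20 : Gr 0.866 0.5 (-0.75) (-1) 0.00009215 := by
  have h2 := grid_trig (s := 0.866) 3.1415005 (-1) 0.00009215 (by norm_num) (by norm_num) (by norm_num)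
    (by norm_num) (by norm_num [abs_le]) (by norm_num [abs_le, pc]) (by norm_num [abs_le, ps])
  have h4 : |ih * 0.866 - 1| ≤ 3 / 100000 := by
    rw [abs_le]
    have := ih_gt
    have := ih_lt
    constructor <;> linarith
  have h3 := pk_lip (ih * 0.866) 1
  have h5 := pk1_lip (ih * 0.866) 1
  rw [pk_one] at h3
  rw [pk1_one] at h5
  refine ⟨by norm_num, by norm_num, ?_, ?_, h2.1, h2.2⟩
  · have h6 : |pk (ih * 0.866) - 1 / 2| ≤ 3 / 100000 := by linarith
    have h7 : (0.5 : ℝ) = 1 / 2 := by norm_num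
    rw [h7]
    exact h6
  · have h6 : |pk1 (ih * 0.866) - -(3 / 4)| ≤ 15 / 100000 := by linarith
    have h7 : ((-0.75) : ℝ) = -(3 / 4) := by norm_num
    rw [h7]
    exact h6

theorem gr21 : Gr 0.891 0.47842213 (-0.746238) (-0.99589883) (-0.09047393) := by
  apply gr_of (a := 3.23219047) <;> norm_num [abs_le, le_abs, pc, ps]

theorem gr22 : Gr 0.9135 0.45909184 (-0.741615) (-0.98520697) (-0.17136873) := by
  apply gr_of (a := 3.31381144) <;> norm_num [abs_le, le_abs, pc, ps]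

theorem gr23 : Gr 0.9336 0.44193669 (-0.736524) (-0.97010495) (-0.24268585) := by
  apply gr_of (a := 3.38672617) <;> norm_num [abs_le, le_abs, pc, ps]

theorem gr24 : Gr 0.9511 0.42710451 (-0.731372) (-0.95275473) (-0.30374079) := by
  apply gr_of (a := 3.45020915) <;> norm_num [abs_le, le_abs, pc, ps]

theorem gr25 : Gr 0.9659 0.41464661 (-0.726505) (-0.93508239) (-0.3544305) := by
  apply gr_of (a := 3.50389761) <;> norm_num [abs_le, le_abs, pc, ps]

theorem gr26 : Gr 0.9781 0.40444241 (-0.722151) (-0.91848599) (-0.39545362) := by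
  apply gr_of (a := 3.54815432) <;> norm_num [abs_le, le_abs, pc, ps]

theorem gr27 : Gr 0.9877 0.39645728 (-0.71851) (-0.90416023) (-0.42719361) := by
  apply gr_of (a := 3.58297927) <;> norm_num [abs_le, le_abs, pc, ps]

theorem gr28 : Gr 0.9945 0.39082607 (-0.71582) (-0.89334836) (-0.44936491) := by
  apply gr_of (a := 3.60764694) <;> norm_num [abs_le, le_abs, pc, ps]

theorem gr29 : Gr 0.9986 0.38744111 (-0.714153) (-0.88656633) (-0.46260162) := by
  apply gr_of (a := 3.62252009) <;> norm_num [abs_le, le_abs, pc, ps]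

theorem gr30 : Gr 1 0.38628709 (-0.713577) (-0.88420552) (-0.46709818) := by
  apply gr_of (a := 3.62759873) <;> norm_num [abs_le, le_abs, pc, ps]

end Pool.Agent.StripSin
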