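import Pool.Agent.StripSin.Defs

/-! # Interval data of arcs of unit vectors and the check for a pair of arcs -/

set_option autoImplicit false

open Real

namespace Pool.Agent.StripSin

/-- interval data of an arc of unit vectors, unit `10 ^ (-5)` -/
structure Arc where
  c0 : Int
  c1 : Int
  s0 : Int
  s1 : Int
  n0 : Int
  n1 : Int
  d0 : Int
  d1 : Int
  C0 : Int
  C1 : Int
  Q0 : Int
  Q1 : Int

def mn (a b : Int) : Int := if a ≤ b then a else b

def mx (a b : Int) : Int := if a ≤ b then b else a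

/-- lower end of the product of two intervals -/
def mlo (a b c d : Int) : Int := mn (mn (a * c) (a * d)) (mn (b * c) (b * d))

/-- upper end of the product of two intervals -/
def mhi (a b c d : Int) : Int := mx (mx (a * c) (a * d)) (mx (b * c) (b * d))

def sqhi (a b : Int) : Int := mx (a * a) (b * b)

/-- the check for a pair of arcs -/
def pairOK (u w : Arc) (e0 e1 G : Int) : Bool :=
  let cr := mhi w.c0 w.c1 u.s0 u.s1 - mlo w.s0 w.s1 u.c0 u.c1
  if cr < 8660200000 then true else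
  let dl := mx (mlo u.c0 u.c1 w.c0 w.c1 + mlo u.s0 u.s1 w.s0 w.s1) e0
  let dh := mn (mhi u.c0 u.c1 w.c0 w.c1 + mhi u.s0 u.s1 w.s0 w.s1) e1
  if dh < dl then true else
  let N0 := mlo u.n0 u.n1 w.C0 w.C1 + mlo w.n0 w.n1 u.C0 u.C1
  let N1 := mhi u.n0 u.n1 w.C0 w.C1 + mhi w.n0 w.n1 u.C0 u.C1
  let a0 := mlo u.d0 u.d1 w.C0 w.C1 - mhi w.n0 w.n1 u.Q0 u.Q1
  let a1 := mhi u.d0 u.d1 w.C0 w.C1 - mlo w.n0 w.n1 u.Q0 u.Q1
  let b0 := mlo w.d0 w.d1 u.C0 u.C1 - mhi u.n0 u.n1 w.Q0 w.Q1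
  let b1 := mhi w.d0 w.d1 u.C0 u.C1 - mlo u.n0 u.n1 w.Q0 w.Q1
  let ab0 := mlo a0 a1 b0 b1
  let ab1 := mhi a0 a1 b0 b1
  let A := 10000000000 * (sqhi a0 a1 + sqhi b0 b1) - 2 * mlo dl dh ab0 ab1
  let D2 := sqhi dl dh
  let R := G * 100000000000000000000 - 13160 * sqhi N0 N1
  decide (A * 10000000000000 ≤ (100000000000000000000 - D2) * R)

theorem mn_cast (a b : Int) : ((mn a b : Int) : ℝ) = min (a : ℝ) (b : ℝ) := by
  unfold mn
  split_ifs with h
  · rw [min_eq_left (by exact_mod_cast h)]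
  · rw [min_eq_right (by exact_mod_cast (not_le.1 h).le)]

theorem mx_cast (a b : Int) : ((mx a b : Int) : ℝ) = max (a : ℝ) (b : ℝ) := by
  unfold mx
  split_ifs with h
  · rw [max_eq_right (by exact_mod_cast h)]
  · rw [max_eq_left (by exact_mod_cast (not_le.1 h).le)]

theorem lin_min {a b x y : ℝ} (h1 : a ≤ x) (h2 : x ≤ b) : min (a * y) (b * y) ≤ x * y := by
  rcases le_total 0 y with h | h
  · exact (min_le_left _ _).trans (mul_le_mul_of_nonneg_right h1 h)
  · exact (min_le_right _ _).trans (mul_le_mul_of_nonpos_right h2 h)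

theorem lin_max {a b x y : ℝ} (h1 : a ≤ x) (h2 : x ≤ b) : x * y ≤ max (a * y) (b * y) := by
  rcases le_total 0 y with h | h
  · exact (mul_le_mul_of_nonneg_right h2 h).trans (le_max_right _ _)
  · exact (mul_le_mul_of_nonpos_right h1 h).trans (le_max_left _ _)

theorem mlo_le {a b c d : Int} {x y : ℝ} (h1 : (a : ℝ) ≤ x) (h2 : x ≤ b) (h3 : (c : ℝ) ≤ y)
    (h4 : y ≤ d) : ((mlo a b c d : Int) : ℝ) ≤ x * y := by
  unfold mlo
  rw [mn_cast, mn_cast, mn_cast]
  push_cast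
  refine le_trans ?_ (lin_min h1 h2)
  refine min_le_min ?_ ?_
  · have := lin_min (y := (a : ℝ)) h3 h4
    rwa [mul_comm (c : ℝ), mul_comm (d : ℝ), mul_comm y] at this
  · have := lin_min (y := (b : ℝ)) h3 h4
    rwa [mul_comm (c : ℝ), mul_comm (d : ℝ), mul_comm y] at this

theorem le_mhi {a b c d : Int} {x y : ℝ} (h1 : (a : ℝ) ≤ x) (h2 : x ≤ b) (h3 : (c : ℝ) ≤ y)
    (h4 : y ≤ d) : x * y ≤ ((mhi a b c d : Int) : ℝ) := by
  unfold mhi
  rw [mx_cast, mx_cast, mx_cast]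
  push_cast
  refine (lin_max h1 h2).trans ?_
  refine max_le_max ?_ ?_
  · have := lin_max (y := (a : ℝ)) h3 h4
    rwa [mul_comm (c : ℝ), mul_comm (d : ℝ), mul_comm y] at this
  · have := lin_max (y := (b : ℝ)) h3 h4
    rwa [mul_comm (c : ℝ), mul_comm (d : ℝ), mul_comm y] at this

theorem le_sqhi {a b : Int} {x : ℝ} (h1 : (a : ℝ) ≤ x) (h2 : x ≤ b) :
    x ^ 2 ≤ ((sqhi a b : Int) : ℝ) := by
  unfold sqhi
  rw [mx_cast]
  push_cast
  rcases le_total 0 x with h | h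
  · refine le_trans ?_ (le_max_right _ _)
    nlinarith
  · refine le_trans ?_ (le_max_left _ _)
    nlinarith

/-- the arc `a` contains the unit vector `u` -/
structure InArc (a : Arc) (u : ℝ × ℝ) : Prop where
  c0 : (a.c0 : ℝ) ≤ u.1 * 100000
  c1 : u.1 * 100000 ≤ a.c1
  s0 : (a.s0 : ℝ) ≤ u.2 * 100000
  s1 : u.2 * 100000 ≤ a.s1
  n0 : (a.n0 : ℝ) ≤ nu u * 100000
  n1 : nu u * 100000 ≤ a.n1
  d0 : (a.d0 : ℝ) ≤ nd u * 100000
  d1 : nd u * 100000 ≤ a.d1
  C0 : (a.C0 : ℝ) ≤ cc u * 100000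
  C1 : cc u * 100000 ≤ a.C1
  Q0 : (a.Q0 : ℝ) ≤ qq u * 100000
  Q1 : qq u * 100000 ≤ a.Q1

theorem om_sq_le : om ^ 2 ≤ 1316 / 100 := by
  unfold om
  rw [div_pow, sqrt3_sq, mul_pow]
  have h1 := pi_lt_d4
  have h2 : π ^ 2 ≤ 3.1416 ^ 2 := pow_le_pow_left₀ pi_pos.le h1.le 2
  norm_num at h2 ⊢
  linarith

theorem pair_sound {a b : Arc} {e0 e1 G : Int} (he0 : -5000000000 ≤ e0) (he1 : e1 ≤ 5000000000)
    (hok : pairOK a b e0 e1 G = true) {u w : ℝ × ℝ} (hu : u.1 ^ 2 + u.2 ^ 2 = 1)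
    (hw : w.1 ^ 2 + w.2 ^ 2 = 1) (ha : InArc a u) (hb : InArc b w)
    (hcr : 0 < w.1 * u.2 - w.2 * u.1)
    (hd0 : (e0 : ℝ) ≤ (u.1 * w.1 + u.2 * w.2) * 10000000000)
    (hd1 : (u.1 * w.1 + u.2 * w.2) * 10000000000 ≤ e1) :
    na u w ^ 2 + na w u ^ 2 - 2 * (u.1 * w.1 + u.2 * w.2) * (na u w * na w u) ≤
      (1 - (u.1 * w.1 + u.2 * w.2) ^ 2) * ((G : ℝ) / 1000 - om ^ 2 * NN u w ^ 2) := by
  set d : ℝ := u.1 * w.1 + u.2 * w.2 with hd
  have hdd : (w.1 * u.2 - w.2 * u.1) ^ 2 = 1 - d ^ 2 := by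
    rw [hd]
    linear_combination (w.1 ^ 2 + w.2 ^ 2) * hu + hw
  have hdlo : -(1 / 2) ≤ d := by
    have : (-5000000000 : ℝ) ≤ e0 := by exact_mod_cast he0
    linarith
  have hdhi : d ≤ 1 / 2 := by
    have : (e1 : ℝ) ≤ 5000000000 := by exact_mod_cast he1
    linarith
  have hd4 : d ^ 2 ≤ 1 / 4 := by nlinarith
  have hcr2 : 0.86602 < w.1 * u.2 - w.2 * u.1 := by
    by_contra hcon
    push Not at hcon
    nlinarith
  have e1' : (w.1 * 100000) * (u.2 * 100000) ≤ ((mhi b.c0 b.c1 a.s0 a.s1 : Int) : ℝ) :=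
    le_mhi hb.c0 hb.c1 ha.s0 ha.s1
  have e2' : ((mlo b.s0 b.s1 a.c0 a.c1 : Int) : ℝ) ≤ (w.2 * 100000) * (u.1 * 100000) :=
    mlo_le hb.s0 hb.s1 ha.c0 ha.c1
  unfold pairOK at hok
  simp only at hok
  split_ifs at hok with h1 h2
  · exfalso
    have h3 : (((mhi b.c0 b.c1 a.s0 a.s1 - mlo b.s0 b.s1 a.c0 a.c1 : Int)) : ℝ) <
        8660200000 := by exact_mod_cast h1
    push_cast at h3
    nlinarith
  · exfalso
    have f1 := mlo_le ha.c0 ha.c1 hb.c0 hb.c1
    have f2 := mlo_le ha.s0 ha.s1 hb.s0 hb.s1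
    have f3 := le_mhi ha.c0 ha.c1 hb.c0 hb.c1
    have f4 := le_mhi ha.s0 ha.s1 hb.s0 hb.s1
    have h3 : ((mn (mhi a.c0 a.c1 b.c0 b.c1 + mhi a.s0 a.s1 b.s0 b.s1) e1 : Int) : ℝ) <
        ((mx (mlo a.c0 a.c1 b.c0 b.c1 + mlo a.s0 a.s1 b.s0 b.s1) e0 : Int) : ℝ) := by
      exact_mod_cast h2
    rw [mn_cast, mx_cast] at h3
    push_cast at h3
    have h4 : d * 10000000000 ≤ min ((mhi a.c0 a.c1 b.c0 b.c1 : ℝ) +
        (mhi a.s0 a.s1 b.s0 b.s1 : ℝ)) (e1 : ℝ) := le_min (by rw [hd]; linarith) hd1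
    have h5 : max ((mlo a.c0 a.c1 b.c0 b.c1 : ℝ) + (mlo a.s0 a.s1 b.s0 b.s1 : ℝ)) (e0 : ℝ) ≤
        d * 10000000000 := max_le (by rw [hd]; linarith) hd0
    linarith
  · rw [decide_eq_true_eq] at hok
    have f1 := mlo_le ha.c0 ha.c1 hb.c0 hb.c1
    have f2 := mlo_le ha.s0 ha.s1 hb.s0 hb.s1
    have f3 := le_mhi ha.c0 ha.c1 hb.c0 hb.c1
    have f4 := le_mhi ha.s0 ha.s1 hb.s0 hb.s1
    set dl : Int := mx (mlo a.c0 a.c1 b.c0 b.c1 + mlo a.s0 a.s1 b.s0 b.s1) e0 with hdl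
    set dh : Int := mn (mhi a.c0 a.c1 b.c0 b.c1 + mhi a.s0 a.s1 b.s0 b.s1) e1 with hdh
    have g1 : (dl : ℝ) ≤ d * 10000000000 := by
      rw [hdl, mx_cast]
      push_cast
      exact max_le (by rw [hd]; linarith) hd0
    have g2 : d * 10000000000 ≤ (dh : ℝ) := by
      rw [hdh, mn_cast]
      push_cast
      exact le_min (by rw [hd]; linarith) hd1
    have g1' : (-5000000000 : ℝ) ≤ dl := by
      rw [hdl, mx_cast]
      exact le_trans (by exact_mod_cast he0) (le_max_right _ _)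
    have g2' : (dh : ℝ) ≤ 5000000000 := by
      rw [hdh, mn_cast]
      exact (min_le_right _ _).trans (by exact_mod_cast he1)
    set N0 : Int := mlo a.n0 a.n1 b.C0 b.C1 + mlo b.n0 b.n1 a.C0 a.C1 with hN0
    set N1 : Int := mhi a.n0 a.n1 b.C0 b.C1 + mhi b.n0 b.n1 a.C0 a.C1 with hN1
    set a0 : Int := mlo a.d0 a.d1 b.C0 b.C1 - mhi b.n0 b.n1 a.Q0 a.Q1 with ha0
    set a1 : Int := mhi a.d0 a.d1 b.C0 b.C1 - mlo b.n0 b.n1 a.Q0 a.Q1 with ha1
    set b0 : Int := mlo b.d0 b.d1 a.C0 a.C1 - mhi a.n0 a.n1 b.Q0 b.Q1 with hb0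
    set b1 : Int := mhi b.d0 b.d1 a.C0 a.C1 - mlo a.n0 a.n1 b.Q0 b.Q1 with hb1
    have hN : (N0 : ℝ) ≤ NN u w * 10000000000 ∧ NN u w * 10000000000 ≤ N1 := by
      have k1 := mlo_le ha.n0 ha.n1 hb.C0 hb.C1
      have k2 := mlo_le hb.n0 hb.n1 ha.C0 ha.C1
      have k3 := le_mhi ha.n0 ha.n1 hb.C0 hb.C1
      have k4 := le_mhi hb.n0 hb.n1 ha.C0 ha.C1
      rw [hN0, hN1]
      push_cast
      unfold NN
      constructor <;> linarith
    have hA : (a0 : ℝ) ≤ na u w * 10000000000 ∧ na u w * 10000000000 ≤ a1 := by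
      have k1 := mlo_le ha.d0 ha.d1 hb.C0 hb.C1
      have k2 := mlo_le hb.n0 hb.n1 ha.Q0 ha.Q1
      have k3 := le_mhi ha.d0 ha.d1 hb.C0 hb.C1
      have k4 := le_mhi hb.n0 hb.n1 ha.Q0 ha.Q1
      rw [ha0, ha1]
      push_cast
      unfold na
      constructor <;> linarith
    have hB : (b0 : ℝ) ≤ na w u * 10000000000 ∧ na w u * 10000000000 ≤ b1 := by
      have k1 := mlo_le hb.d0 hb.d1 ha.C0 ha.C1
      have k2 := mlo_le ha.n0 ha.n1 hb.Q0 hb.Q1
      have k3 := le_mhi hb.d0 hb.d1 ha.C0 ha.C1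
      have k4 := le_mhi ha.n0 ha.n1 hb.Q0 hb.Q1
      rw [hb0, hb1]
      push_cast
      unfold na
      constructor <;> linarith
    have hab1 := mlo_le hA.1 hA.2 hB.1 hB.2
    have hab2 := le_mhi hA.1 hA.2 hB.1 hB.2
    have hdab := mlo_le g1 g2 hab1 hab2
    have hsa := le_sqhi hA.1 hA.2
    have hsb := le_sqhi hB.1 hB.2
    have hsd := le_sqhi g1 g2
    have hsn := le_sqhi hN.1 hN.2
    have hok' : (((10000000000 * (sqhi a0 a1 + sqhi b0 b1) -
        2 * mlo dl dh (mlo a0 a1 b0 b1) (mhi a0 a1 b0 b1)) * 10000000000000 : Int) : ℝ) ≤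
        (((100000000000000000000 - sqhi dl dh) *
          (G * 100000000000000000000 - 13160 * sqhi N0 N1) : Int) : ℝ) := by
      exact_mod_cast hok
    push_cast at hok'
    have hD2 : ((sqhi dl dh : Int) : ℝ) ≤ 25000000000000000000 := by
      unfold sqhi
      rw [mx_cast]
      push_cast
      have p1 : (dl : ℝ) ≤ dh := g1.trans g2
      apply max_le <;> nlinarith
    have hom := om_sq_le
    set X : ℝ := na u w ^ 2 + na w u ^ 2 - 2 * d * (na u w * na w u) with hX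
    have hX0 : 0 ≤ X := by
      rw [hX]
      nlinarith [sq_nonneg (na u w - d * na w u), sq_nonneg (na w u),
        mul_nonneg (by nlinarith : 0 ≤ 1 - d ^ 2) (sq_nonneg (na w u))]
    have hXA : X * 1000000000000000000000000000000 ≤
        10000000000 * (((sqhi a0 a1 : Int) : ℝ) + ((sqhi b0 b1 : Int) : ℝ)) -
        2 * ((mlo dl dh (mlo a0 a1 b0 b1) (mhi a0 a1 b0 b1) : Int) : ℝ) := by
      have r1 : X * 1000000000000000000000000000000 =
          10000000000 * ((na u w * 10000000000) ^ 2 + (na w u * 10000000000) ^ 2) -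
          2 * (d * 10000000000 * (na u w * 10000000000 * (na w u * 10000000000))) := by
        rw [hX]
        ring
      rw [r1]
      linarith only [hsa, hsb, hdab]
    set R : ℝ := (G : ℝ) / 1000 - om ^ 2 * NN u w ^ 2 with hR
    have hRR : (G : ℝ) * 100000000000000000000 - 13160 * ((sqhi N0 N1 : Int) : ℝ) ≤
        R * 100000000000000000000000 := by
      have q1 : om ^ 2 * NN u w ^ 2 ≤ 1316 / 100 * NN u w ^ 2 :=
        mul_le_mul_of_nonneg_right hom (sq_nonneg _)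
      have r2 : (NN u w * 10000000000) ^ 2 = NN u w ^ 2 * 100000000000000000000 := by ring
      rw [r2] at hsn
      rw [hR]
      linarith only [hsn, q1]
    have hpos : 0 < 100000000000000000000 - ((sqhi dl dh : Int) : ℝ) := by linarith
    have hRint : 0 ≤ (G : ℝ) * 100000000000000000000 - 13160 * ((sqhi N0 N1 : Int) : ℝ) := by
      by_contra hcon
      push Not at hcon
      have r3 := mul_neg_of_pos_of_neg hpos hcon
      have r4 : 0 ≤ X * 1000000000000000000000000000000 :=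
        mul_nonneg hX0 (by norm_num)
      linarith only [r3, r4, hXA, hok']
    have hR0 : 0 ≤ R := by
      by_contra hcon
      push Not at hcon
      linarith only [hcon, hRR, hRint]
    have s1 : (100000000000000000000 - ((sqhi dl dh : Int) : ℝ)) *
        ((G : ℝ) * 100000000000000000000 - 13160 * ((sqhi N0 N1 : Int) : ℝ)) ≤
        ((1 - d ^ 2) * 100000000000000000000) * (R * 100000000000000000000000) := by
      apply mul_le_mul _ hRR hRint _
      · have : (d * 10000000000) ^ 2 = d ^ 2 * 100000000000000000000 := by ring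
        rw [this] at hsd
        linarith
      · have : 0 ≤ 1 - d ^ 2 := by linarith
        positivity
    have s2 : X * 1000000000000000000000000000000 * 10000000000000 ≤
        ((1 - d ^ 2) * 100000000000000000000) * (R * 100000000000000000000000) := by
      refine le_trans ?_ (hok'.trans s1)
      exact mul_le_mul_of_nonneg_right hXA (by norm_num)
    have r5 : X * 1000000000000000000000000000000 * 10000000000000 =
        10000000000000000000000000000000000000000000 * X := by ring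
    have r6 : ((1 - d ^ 2) * 100000000000000000000) * (R * 100000000000000000000000) =
        10000000000000000000000000000000000000000000 * ((1 - d ^ 2) * R) := by ring
    rw [r5, r6] at s2
    linarith only [s2]

end Pool.Agent.StripSin
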