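import Pool.Agent.StripSin.Deriv

/-! # Lipschitz bounds for the flux -/

set_option autoImplicit false

open Real Set

namespace Pool.Agent.StripSin

/-- the gradient inequality with constant `G` at `v` -/
def Grad (G : ℝ) (v : ℝ × ℝ) : Prop :=
  0 < v.1 ^ 2 + v.2 ^ 2 ∧ v.1 ^ 2 + v.2 ^ 2 < 4 ∧
    ∀ u w : ℝ × ℝ, u = uu v → w = ww v →
      na u w ^ 2 + na w u ^ 2 - 2 * (u.1 * w.1 + u.2 * w.2) * (na u w * na w u) ≤
      (1 - (u.1 * w.1 + u.2 * w.2) ^ 2) * (G ^ 2 - om ^ 2 * NN u w ^ 2)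

theorem grad_b {v : ℝ × ℝ} (h1 : 1 ≤ v.1 ^ 2 + v.2 ^ 2) (h3 : v.1 ^ 2 + v.2 ^ 2 ≤ 3) :
    Grad 6.4 v := by
  have h0 : 0 < v.1 ^ 2 + v.2 ^ 2 := by linarith
  have h4 : v.1 ^ 2 + v.2 ^ 2 < 4 := by linarith
  refine ⟨h0, h4, ?_⟩
  rintro u w rfl rfl
  have hcr : 0 < (ww v).1 * (uu v).2 - (ww v).2 * (uu v).1 := by
    rw [cross_uw]
    exact mul_pos (rho_pos h0 h4) h0
  have hd := dot_uw h0 h4.le
  exact num_b (uu_unit h0 h4.le) (ww_unit h0 h4.le) hcr (by rw [hd]; linarith)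
    (by rw [hd]; linarith)

theorem grad_a {v : ℝ × ℝ} (h1 : 1 ≤ v.1 ^ 2 + v.2 ^ 2) (h3 : v.1 ^ 2 + v.2 ^ 2 ≤ 1.96) :
    Grad 5 v := by
  have h0 : 0 < v.1 ^ 2 + v.2 ^ 2 := by linarith
  have h4 : v.1 ^ 2 + v.2 ^ 2 < 4 := by linarith
  refine ⟨h0, h4, ?_⟩
  rintro u w rfl rfl
  have hcr : 0 < (ww v).1 * (uu v).2 - (ww v).2 * (uu v).1 := by
    rw [cross_uw]
    exact mul_pos (rho_pos h0 h4) h0
  have hd := dot_uw h0 h4.le
  exact num_a (uu_unit h0 h4.le) (ww_unit h0 h4.le) hcr (by rw [hd]; linarith)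
    (by rw [hd]; linarith)

theorem lip_path {x y ex ey : ℝ → ℝ} {φ c G V a b : ℝ} (hG : 0 ≤ G) (hV : 0 ≤ V) (hab : a ≤ b)
    (hx : ∀ t, a ≤ t → t ≤ b → HasDerivAt x (ex t) t)
    (hy : ∀ t, a ≤ t → t ≤ b → HasDerivAt y (ey t) t)
    (hg : ∀ t, a ≤ t → t ≤ b → Grad G (x t, y t))
    (hv : ∀ t, a ≤ t → t ≤ b → ex t ^ 2 + ey t ^ 2 ≤ V ^ 2) :
    |sin (φ - om * (c + y b)) * Nv (x b, y b) - sin (φ - om * (c + y a)) * Nv (x a, y a)| ≤
      G * V * (b - a) := by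
  set f : ℝ → ℝ := fun t => sin (φ - om * (c + y t)) * Nv (x t, y t) with hf
  have h1 : ∀ t ∈ Icc a b, HasDerivWithinAt f (deriv f t) (Icc a b) t ∧ ‖deriv f t‖ ≤ G * V := by
    rintro t ⟨ht0, ht1⟩
    obtain ⟨g1, g2, g3⟩ := hg t ht0 ht1
    obtain ⟨D, hD, hb⟩ := deriv_flux φ c G (hx t ht0 ht1) (hy t ht0 ht1) g1 g2 g3
    have e : deriv f t = D := hD.deriv
    rw [e]
    refine ⟨hD.hasDerivWithinAt, ?_⟩
    rw [norm_eq_abs]
    apply abs_le_of_sq_le_sq _ (mul_nonneg hG hV)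
    rw [mul_pow]
    exact hb.trans (mul_le_mul_of_nonneg_left (hv t ht0 ht1) (sq_nonneg G))
  have h2 := Convex.norm_image_sub_le_of_norm_hasDerivWithin_le (f := f) (f' := deriv f)
    (s := Icc a b) (C := G * V) (x := a) (y := b) (fun t ht => (h1 t ht).1)
    (fun t ht => (h1 t ht).2) (convex_Icc a b) ⟨le_rfl, hab⟩ ⟨hab, le_rfl⟩
  rw [norm_eq_abs, norm_eq_abs, abs_of_nonneg (sub_nonneg.2 hab)] at h2
  exact h2

/-- moving the second endpoint along a segment -/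
theorem lip_seg {φ G t : ℝ} {p q e : ℝ × ℝ} (hG : 0 ≤ G) (ht : 0 ≤ t)
    (he : e.1 ^ 2 + e.2 ^ 2 = 1)
    (hg : ∀ s, 0 ≤ s → s ≤ t → Grad G (q.1 + s * e.1 - p.1, q.2 + s * e.2 - p.2)) :
    |gf φ p (q.1 + t * e.1, q.2 + t * e.2) - gf φ p q| ≤ G * t := by
  have h := lip_path (x := fun s => q.1 + s * e.1 - p.1) (y := fun s => q.2 + s * e.2 - p.2)
    (ex := fun _ => e.1) (ey := fun _ => e.2) (φ := φ) (c := 2 * p.2) (G := G) (V := 1)
    (a := 0) (b := t) hG zero_le_one ht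
    (fun s _ _ => by
      have := (((hasDerivAt_id s).mul_const e.1).const_add q.1).sub_const p.1
      simpa using this)
    (fun s _ _ => by
      have := (((hasDerivAt_id s).mul_const e.2).const_add q.2).sub_const p.2
      simpa using this)
    hg (fun s _ _ => by rw [he]; norm_num)
  unfold gf
  simp only [zero_mul, add_zero, mul_one, sub_zero] at h ⊢
  have e1 : 2 * p.2 + (q.2 + t * e.2 - p.2) = p.2 + (q.2 + t * e.2) := by ring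
  have e2 : 2 * p.2 + (q.2 - p.2) = p.2 + q.2 := by ring
  rw [e1, e2] at h
  exact h

end Pool.Agent.StripSin
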