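import Pool.Agent.StripSin.Tri

/-! # The triangle inequality: all triangles of circumradius at most one -/

set_option autoImplicit false

open Real Set

namespace Pool.Agent.StripSin

theorem Grad.mono_dom {G : ℝ} {v : ℝ × ℝ} {a b : ℝ} (h : ∀ v : ℝ × ℝ, 1 ≤ v.1 ^ 2 + v.2 ^ 2 →
    v.1 ^ 2 + v.2 ^ 2 ≤ a → Grad G v) (hab : b ≤ a) (h1 : 1 ≤ v.1 ^ 2 + v.2 ^ 2)
    (h2 : v.1 ^ 2 + v.2 ^ 2 ≤ b) : Grad G v := h v h1 (h2.trans hab)

/-- moving a vertex perpendicularly to the opposite side -/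
theorem move {p q r : ℝ × ℝ} {L G1 G2 : ℝ} (hL : 0 < L) (hL2 : ds p q = L ^ 2)
    (hX : 1 ≤ ds p r) (hXZ : ds p r ≤ ds q r)
    (hξ : (ds p r + L ^ 2 - ds q r) ^ 2 ≤ 3 * L ^ 2) (hG1 : 0 ≤ G1) (hG2 : 0 ≤ G2)
    (hg1 : ∀ v : ℝ × ℝ, 1 ≤ v.1 ^ 2 + v.2 ^ 2 → v.1 ^ 2 + v.2 ^ 2 ≤ ds p r → Grad G1 v)
    (hg2 : ∀ v : ℝ × ℝ, 1 ≤ v.1 ^ 2 + v.2 ^ 2 → v.1 ^ 2 + v.2 ^ 2 ≤ ds q r → Grad G2 v) :
    ∃ (r' : ℝ × ℝ) (t : ℝ), 0 ≤ t ∧ ds p r' = 1 ∧ ds q r' = 1 + (ds q r - ds p r) ∧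
      |cr p q r'| = |cr p q r| - L * t ∧
      ∀ φ, |fl φ p q r - fl φ p q r'| ≤ (G1 + G2) * t := by
  obtain ⟨σ, hσ2, hσ⟩ : ∃ σ : ℝ, σ ^ 2 = 1 ∧ σ * cr p q r = |cr p q r| := by
    rcases le_total 0 (cr p q r) with h | h
    · exact ⟨1, by norm_num, by rw [abs_of_nonneg h, one_mul]⟩
    · exact ⟨-1, by norm_num, by rw [abs_of_nonpos h]; ring⟩
  set X : ℝ := ds p r with hXd
  set Z : ℝ := ds q r with hZd
  set η : ℝ := |cr p q r| / L with hη
  have hηL : η * L = |cr p q r| := div_mul_cancel₀ _ hL.ne'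
  have hη0 : 0 ≤ η := div_nonneg (abs_nonneg _) hL.le
  have hcr2 : (η * L) ^ 2 = X * L ^ 2 - ((X + L ^ 2 - Z) / 2) ^ 2 := by
    rw [hηL, sq_abs, ← hL2, hXd, hZd]
    unfold cr ds
    ring
  have hLne : L ^ 2 ≠ 0 := by positivity
  have hL2pos : 0 < L ^ 2 := by positivity
  have hξ2 : X - η ^ 2 ≤ 3 / 4 := by
    have h1 : L ^ 2 * (X - η ^ 2) ≤ L ^ 2 * (3 / 4) := by nlinarith
    exact le_of_mul_le_mul_left h1 hL2pos
  set k : ℝ := √(1 - (X - η ^ 2)) with hk
  have hk0 : 0 ≤ k := Real.sqrt_nonneg _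
  have hk2 : k ^ 2 = 1 - (X - η ^ 2) := Real.sq_sqrt (by linarith)
  have hkη : k ≤ η := sq_le_aux (by rw [hk2]; linarith) hη0
  set t : ℝ := η - k with ht
  have ht0 : 0 ≤ t := by rw [ht]; linarith
  set e : ℝ × ℝ := (σ * (q.2 - p.2) / L, -(σ * (q.1 - p.1) / L)) with he
  have hds : (q.1 - p.1) ^ 2 + (q.2 - p.2) ^ 2 = L ^ 2 := hL2
  have he1 : e.1 ^ 2 + e.2 ^ 2 = 1 := by
    rw [he]
    simp only
    field_simp
    linear_combination hσ2 * ((q.1 - p.1) ^ 2 + (q.2 - p.2) ^ 2) + hds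
  have hae : (r.1 - p.1) * e.1 + (r.2 - p.2) * e.2 = -η := by
    apply mul_right_cancel₀ hL.ne'
    have h1 : ((r.1 - p.1) * e.1 + (r.2 - p.2) * e.2) * L = -(σ * cr p q r) := by
      rw [he]
      unfold cr
      simp only
      field_simp
      ring
    rw [h1, hσ, ← hηL]
    ring
  have hve : (q.1 - p.1) * e.1 + (q.2 - p.2) * e.2 = 0 := by
    rw [he]
    simp only
    ring
  have hvxe : (q.1 - p.1) * e.2 - (q.2 - p.2) * e.1 = -(σ * L) := by
    rw [he]
    simp only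
    field_simp
    linear_combination -σ * hds
  have hDp : ∀ s : ℝ, (r.1 + s * e.1 - p.1) ^ 2 + (r.2 + s * e.2 - p.2) ^ 2 =
      X - 2 * s * η + s ^ 2 := by
    intro s
    rw [hXd]
    unfold ds
    linear_combination 2 * s * hae + s ^ 2 * he1
  have hDq : ∀ s : ℝ, (r.1 + s * e.1 - q.1) ^ 2 + (r.2 + s * e.2 - q.2) ^ 2 =
      Z - 2 * s * η + s ^ 2 := by
    intro s
    rw [hZd]
    unfold ds
    linear_combination 2 * s * hae + s ^ 2 * he1 - 2 * s * hve
  have hlow : ∀ s : ℝ, 0 ≤ s → s ≤ t → 1 ≤ X - 2 * s * η + s ^ 2 := by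
    intro s hs0 hst
    have h1 : k ≤ η - s := by rw [ht] at hst; linarith
    nlinarith
  have hup : ∀ s : ℝ, 0 ≤ s → s ≤ t → -(2 * s * η) + s ^ 2 ≤ 0 := by
    intro s hs0 hst
    have h1 : s ≤ η := by rw [ht] at hst; linarith
    nlinarith
  refine ⟨(r.1 + t * e.1, r.2 + t * e.2), t, ht0, ?_, ?_, ?_, ?_⟩
  · unfold ds
    simp only
    rw [hDp t, ht]
    nlinarith
  · unfold ds
    simp only
    rw [hDq t, ht]
    nlinarith
  · have h1 : σ * cr p q (r.1 + t * e.1, r.2 + t * e.2) = L * k := by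
      have h2 : cr p q (r.1 + t * e.1, r.2 + t * e.2) = cr p q r - t * (σ * L) := by
        unfold cr
        simp only
        linear_combination t * hvxe
      rw [h2, mul_sub, hσ, ← hηL, ht]
      linear_combination -(η - k) * L * hσ2
    have h3 : |cr p q (r.1 + t * e.1, r.2 + t * e.2)| = L * k := by
      have h4 : |σ| = 1 := by
        have : |σ| ^ 2 = 1 := by rw [sq_abs, hσ2]
        nlinarith [abs_nonneg σ]
      have h5 : |σ * cr p q (r.1 + t * e.1, r.2 + t * e.2)| = L * k := by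
        rw [h1, abs_of_nonneg (mul_nonneg hL.le hk0)]
      rwa [abs_mul, h4, one_mul] at h5
    rw [h3, ← hηL, ht]
    ring
  · intro φ
    have l1 := lip_seg (φ := φ) (p := p) (q := r) (e := e) hG1 ht0 he1 (by
      intro s hs0 hst
      apply hg1
      · simp only
        rw [hDp s]
        exact hlow s hs0 hst
      · simp only
        rw [hDp s]
        linarith [hup s hs0 hst])
    have l2 := lip_seg (φ := φ) (p := q) (q := r) (e := e) hG2 ht0 he1 (by
      intro s hs0 hst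
      apply hg2
      · simp only
        rw [hDq s]
        linarith [hlow s hs0 hst]
      · simp only
        rw [hDq s]
        linarith [hup s hs0 hst])
    have e5 : fl φ p q r - fl φ p q (r.1 + t * e.1, r.2 + t * e.2) =
        (gf φ p (r.1 + t * e.1, r.2 + t * e.2) - gf φ p r) -
        (gf φ q (r.1 + t * e.1, r.2 + t * e.2) - gf φ q r) := by
      unfold fl
      rw [gf_symm φ p r, gf_symm φ p (r.1 + t * e.1, r.2 + t * e.2)]
      ring
    rw [e5]
    refine (abs_sub _ _).trans ?_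
    linarith

/-- final step of a move -/
theorem good_of_move {p q r r' : ℝ × ℝ} {L t G : ℝ} (ht : 0 ≤ t)
    (hcr : |cr p q r'| = |cr p q r| - L * t)
    (hfl : ∀ φ, |fl φ p q r - fl φ p q r'| ≤ G * t) (hG : 1 / 20 * G ≤ ih / 2 * L)
    (h : Good p q r') : Good p q r := by
  intro φ
  have h1 := h φ
  have h2 := hfl φ
  have h3 : |fl φ p q r| ≤ |fl φ p q r'| + G * t := by
    have := abs_sub_abs_le_abs_sub (fl φ p q r) (fl φ p q r')
    linarith
  have h4 := mul_le_mul_of_nonneg_right hG ht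
  rw [hcr] at h1
  linarith

theorem cr_sq (p q r : ℝ × ℝ) :
    cr p q r ^ 2 = ds p r * ds p q - ((ds p r + ds p q - ds q r) / 2) ^ 2 := by
  unfold cr ds
  ring

theorem abs_gf_unit (φ : ℝ) {p q : ℝ × ℝ} (h : ds p q = 1) : |gf φ p q| ≤ 1 := by
  unfold gf
  have h1 : (q.1 - p.1, q.2 - p.2).1 ^ 2 + (q.1 - p.1, q.2 - p.2).2 ^ 2 = 1 := h
  rw [Nv_unit h1, abs_mul]
  calc |sin (φ - om * (p.2 + q.2))| * |nu (q.1 - p.1, q.2 - p.2)| ≤ 1 * 1 :=
        mul_le_mul (abs_sin_le_one _) (abs_nu_le h1) (abs_nonneg _) zero_le_one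
    _ = 1 := one_mul 1

theorem abs_gf_two (φ : ℝ) {p q : ℝ × ℝ} (h : 1 ≤ ds p q) (h4 : ds p q ≤ 4) :
    |gf φ p q| ≤ 2 := abs_gf_le φ (lt_of_lt_of_le one_pos h) h4

theorem ih_gt' : (1.1547 : ℝ) < ih := lt_trans (by norm_num) ih_gt

/-- one unit side -/
theorem good_one {p q r : ℝ × ℝ} (h : ds p q = 1) (hX : 1 ≤ ds p r) (hXZ : ds p r ≤ ds q r)
    (hZ : ds q r ≤ 3) : Good p q r := by
  rcases le_or_gt 1.96 (ds p r) with hc | hc
  · intro φ
    have h1 := abs_gf_unit φ h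
    have h2 : |gf φ q r| ≤ 2 := abs_gf_two φ (by linarith) (by linarith)
    have h3 : |gf φ r p| ≤ 2 := by
      rw [gf_symm, abs_neg]
      exact abs_gf_two φ hX (by linarith)
    have h4 : |fl φ p q r| ≤ 5 := by
      unfold fl
      refine (abs_add_le _ _).trans ?_
      have := abs_add_le (gf φ p q) (gf φ q r)
      linarith
    have h5 : 1.307 ^ 2 ≤ |cr p q r| ^ 2 := by
      rw [sq_abs, cr_sq, h]
      nlinarith
    have h6 : 1.307 ≤ |cr p q r| := sq_le_aux h5 (abs_nonneg _)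
    have h7 := ih_gt'
    nlinarith
  · obtain ⟨r', t, ht, h1, h2, h3, h4⟩ := move (p := p) (q := q) (r := r) (L := 1) (G1 := 5)
      (G2 := 6.4) one_pos (by rw [h]; norm_num) hX hXZ (by nlinarith) (by norm_num) (by norm_num)
      (fun v hv1 hv2 => grad_a hv1 (hv2.trans hc.le)) (fun v hv1 hv2 => grad_b hv1 (hv2.trans hZ))
    refine good_of_move ht h3 h4 (by have := ih_gt'; norm_num at this ⊢; linarith) ?_
    have h5 : Good q r' p := good_two (by linarith) (by linarith) (by rw [ds_comm]; exact h)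
      (by rw [ds_comm]; exact h1)
    exact h5.rot.rot

/-- all sides between one and `√3`, the side `pq` longest -/
theorem good_zero {p q r : ℝ × ℝ} (hX : 1 ≤ ds p r) (hXZ : ds p r ≤ ds q r)
    (hZ : ds q r ≤ ds p q) (hL : ds p q ≤ 3) : Good p q r := by
  set L : ℝ := √(ds p q) with hLd
  have hL2 : ds p q = L ^ 2 := (Real.sq_sqrt (by linarith)).symm
  have hL1 : 1 ≤ L := by
    rw [hLd]
    apply Real.one_le_sqrt.2
    linarith
  have hξ : (ds p r + L ^ 2 - ds q r) ^ 2 ≤ 3 * L ^ 2 := by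
    rw [← hL2]
    nlinarith
  have hih := ih_gt'
  have key : ∀ r' : ℝ × ℝ, ds p r' = 1 → ds q r' = 1 + (ds q r - ds p r) → Good p q r' := by
    intro r' h1 h2
    have h5 : Good r' p q := by
      have := good_one (p := r') (q := p) (r := q) (by rw [ds_comm]; exact h1)
        (by rw [ds_comm, h2]; linarith) (by rw [ds_comm r' q, h2]; linarith) (by linarith)
      exact this
    exact h5.rot
  rcases le_or_gt (ds p q) 1.96 with hc | hc
  · obtain ⟨r', t, ht, h1, h2, h3, h4⟩ := move (p := p) (q := q) (r := r) (L := L) (G1 := 5)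
      (G2 := 5) (by linarith) hL2 hX hXZ hξ (by norm_num) (by norm_num)
      (fun v hv1 hv2 => grad_a hv1 (by linarith)) (fun v hv1 hv2 => grad_a hv1 (by linarith))
    exact good_of_move ht h3 h4 (by nlinarith) (key r' h1 h2)
  · obtain ⟨r', t, ht, h1, h2, h3, h4⟩ := move (p := p) (q := q) (r := r) (L := L) (G1 := 6.4)
      (G2 := 6.4) (by linarith) hL2 hX hXZ hξ (by norm_num) (by norm_num)
      (fun v hv1 hv2 => grad_b hv1 (by linarith)) (fun v hv1 hv2 => grad_b hv1 (by linarith))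
    have hL14 : 1.4 ≤ L := sq_le_aux (by rw [← hL2]; linarith) (by linarith)
    exact good_of_move ht h3 h4 (by nlinarith) (key r' h1 h2)

/-- all sides between one and `√3` -/
theorem good_K {p q r : ℝ × ℝ} (h1 : 1 ≤ ds p q) (h2 : 1 ≤ ds q r) (h3 : 1 ≤ ds p r)
    (h4 : ds p q ≤ 3) (h5 : ds q r ≤ 3) (h6 : ds p r ≤ 3) : Good p q r := by
  have key : ∀ p q r : ℝ × ℝ, 1 ≤ ds q r → 1 ≤ ds p r → ds p q ≤ 3 → ds q r ≤ ds p q →
      ds p r ≤ ds p q → Good p q r := by
    intro p q r k1 k2 k3 k4 k5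
    rcases le_total (ds p r) (ds q r) with h | h
    · exact good_zero k2 h k4 k3
    · have := good_zero (p := q) (q := p) (r := r) k1 h (by rw [ds_comm q p]; exact k5)
        (by rw [ds_comm]; exact k3)
      exact this.swap
  rcases le_total (ds q r) (ds p q) with a | a
  · rcases le_total (ds p r) (ds p q) with b | b
    · exact key p q r h2 h3 h4 a b
    · -- `pr` is longest
      have := key r p q h1 (by rw [ds_comm]; exact h2) (by rw [ds_comm]; exact h6)
        (by rw [ds_comm r p]; exact b) (by rw [ds_comm r q, ds_comm r p]; linarith)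
      exact this.rot
  · rcases le_total (ds p r) (ds q r) with b | b
    · have := key q r p (by rw [ds_comm]; exact h3) (by rw [ds_comm]; exact h1) h5
        (by rw [ds_comm r p]; exact b) (by rw [ds_comm q p]; exact a)
      exact this.rot.rot
    · have := key r p q h1 (by rw [ds_comm]; exact h2) (by rw [ds_comm]; exact h6)
        (by rw [ds_comm r p]; linarith) (by rw [ds_comm r q, ds_comm r p]; exact b)
      exact this.rot

end Pool.Agent.StripSin
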