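import Pool.Agent.StripSin.Check1
import Pool.Agent.StripSin.Check2

/-! # The gradient inequality for pairs of unit vectors -/

set_option autoImplicit false

open Real

namespace Pool.Agent.StripSin

theorem num_of {e0 e1 G : Int} (he0 : -5000000000 ≤ e0) (he1 : e1 ≤ 5000000000)
    (hc : check e0 e1 G = true) {u w : ℝ × ℝ} (hu : u.1 ^ 2 + u.2 ^ 2 = 1)
    (hw : w.1 ^ 2 + w.2 ^ 2 = 1) (hcr : 0 < w.1 * u.2 - w.2 * u.1)
    (hd0 : (e0 : ℝ) ≤ (u.1 * w.1 + u.2 * w.2) * 10000000000)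
    (hd1 : (u.1 * w.1 + u.2 * w.2) * 10000000000 ≤ e1) :
    na u w ^ 2 + na w u ^ 2 - 2 * (u.1 * w.1 + u.2 * w.2) * (na u w * na w u) ≤
      (1 - (u.1 * w.1 + u.2 * w.2) ^ 2) * ((G : ℝ) / 1000 - om ^ 2 * NN u w ^ 2) := by
  obtain ⟨a, ha, hau⟩ := exists_arc hu
  obtain ⟨b, hb, hbw⟩ := exists_arc hw
  have h1 := List.all_eq_true.1 hc a ha
  have h2 := List.all_eq_true.1 h1 b hb
  exact pair_sound he0 he1 h2 hu hw hau hbw hcr hd0 hd1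

theorem num_b {u w : ℝ × ℝ} (hu : u.1 ^ 2 + u.2 ^ 2 = 1)
    (hw : w.1 ^ 2 + w.2 ^ 2 = 1) (hcr : 0 < w.1 * u.2 - w.2 * u.1)
    (hd0 : -(1 / 2) ≤ u.1 * w.1 + u.2 * w.2) (hd1 : u.1 * w.1 + u.2 * w.2 ≤ 1 / 2) :
    na u w ^ 2 + na w u ^ 2 - 2 * (u.1 * w.1 + u.2 * w.2) * (na u w * na w u) ≤
      (1 - (u.1 * w.1 + u.2 * w.2) ^ 2) * (6.4 ^ 2 - om ^ 2 * NN u w ^ 2) := by
  have h := num_of (by norm_num) (by norm_num) check1 hu hw hcr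
    (by push_cast; linarith) (by push_cast; linarith)
  have e : (((40960 : Int) : ℝ) / 1000) = 6.4 ^ 2 := by norm_num
  rwa [e] at h

theorem num_a {u w : ℝ × ℝ} (hu : u.1 ^ 2 + u.2 ^ 2 = 1)
    (hw : w.1 ^ 2 + w.2 ^ 2 = 1) (hcr : 0 < w.1 * u.2 - w.2 * u.1)
    (hd0 : -(1 / 2) ≤ u.1 * w.1 + u.2 * w.2) (hd1 : u.1 * w.1 + u.2 * w.2 ≤ -(1 / 50)) :
    na u w ^ 2 + na w u ^ 2 - 2 * (u.1 * w.1 + u.2 * w.2) * (na u w * na w u) ≤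
      (1 - (u.1 * w.1 + u.2 * w.2) ^ 2) * (5 ^ 2 - om ^ 2 * NN u w ^ 2) := by
  have h := num_of (by norm_num) (by norm_num) check2 hu hw hcr
    (by push_cast; linarith) (by push_cast; linarith)
  have e : (((25000 : Int) : ℝ) / 1000) = 5 ^ 2 := by norm_num
  rwa [e] at h

end Pool.Agent.StripSin
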