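import Mathlib

/-! # The kernel function `sin (π t) / (π t (1 - t ^ 2))`

It is the Fourier transform of the positive weight `1 + cos (π x)` on `[0, 1]`; so it is a smooth
function, bounded by `1` in absolute value. -/

set_option autoImplicit false

open Real MeasureTheory intervalIntegral Set Filter Topology

namespace Pool.Agent.StripSin

/-- the kernel `sin (π t) / (π t (1 - t ^ 2))` -/
noncomputable def pk (t : ℝ) : ℝ := ∫ x in (0 : ℝ)..1, (1 + cos (π * x)) * cos (π * x * t)

/-- the derivative of `pk` -/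
noncomputable def pk1 (t : ℝ) : ℝ :=
  ∫ x in (0 : ℝ)..1, (1 + cos (π * x)) * (-(sin (π * x * t) * (π * x)))

/-- the second derivative of `pk` -/
noncomputable def pk2 (t : ℝ) : ℝ :=
  ∫ x in (0 : ℝ)..1, (1 + cos (π * x)) * (-(cos (π * x * t) * (π * x) * (π * x)))

theorem one_add_cos_nonneg (x : ℝ) : 0 ≤ 1 + cos (π * x) := by
  have := neg_one_le_cos (π * x)
  linarith

theorem hasDerivAt_pk (t : ℝ) : HasDerivAt pk (pk1 t) t := by
  have h := intervalIntegral.hasDerivAt_integral_of_dominated_loc_of_deriv_le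
    (μ := volume) (a := 0) (b := 1) (x₀ := t) (s := univ) (bound := fun _ => 2 * π)
    (F := fun t x => (1 + cos (π * x)) * cos (π * x * t))
    (F' := fun t x => (1 + cos (π * x)) * (-(sin (π * x * t) * (π * x))))
    univ_mem ?_ ?_ ?_ ?_ ?_ ?_
  · exact h.2
  · refine Eventually.of_forall fun s => ?_
    exact Continuous.aestronglyMeasurable (by fun_prop)
  · exact Continuous.intervalIntegrable (by fun_prop) _ _
  · exact Continuous.aestronglyMeasurable (by fun_prop)
  · refine Eventually.of_forall fun x hx s _ => ?_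
    rw [uIoc_of_le zero_le_one] at hx
    have h1 : 0 ≤ 1 + cos (π * x) := one_add_cos_nonneg x
    have h2 : 1 + cos (π * x) ≤ 2 := by linarith [cos_le_one (π * x)]
    rw [norm_eq_abs, abs_mul, abs_neg, abs_mul, abs_of_nonneg h1,
      abs_of_nonneg (mul_nonneg pi_pos.le hx.1.le)]
    have h3 : |sin (π * x * s)| ≤ 1 := abs_sin_le_one _
    have h4 : π * x ≤ π := by nlinarith [pi_pos, hx.2]
    have h5 : 0 ≤ π * x := mul_nonneg pi_pos.le hx.1.le
    have h6 : |sin (π * x * s)| * (π * x) ≤ π := by
      calc |sin (π * x * s)| * (π * x) ≤ 1 * (π * x) := mul_le_mul_of_nonneg_right h3 h5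
        _ ≤ π := by linarith
    exact mul_le_mul h2 h6 (mul_nonneg (abs_nonneg _) h5) (by norm_num)
  · exact intervalIntegrable_const
  · refine Eventually.of_forall fun x _ s _ => ?_
    have h1 : HasDerivAt (fun s : ℝ => π * x * s) (π * x) s := by
      simpa using (hasDerivAt_id s).const_mul (π * x)
    exact ((h1.cos).const_mul (1 + cos (π * x))).congr_deriv (by ring)

theorem hasDerivAt_pk1 (t : ℝ) : HasDerivAt pk1 (pk2 t) t := by
  have h := intervalIntegral.hasDerivAt_integral_of_dominated_loc_of_deriv_le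
    (μ := volume) (a := 0) (b := 1) (x₀ := t) (s := univ) (bound := fun _ => 2 * (π * π))
    (F := fun t x => (1 + cos (π * x)) * (-(sin (π * x * t) * (π * x))))
    (F' := fun t x => (1 + cos (π * x)) * (-(cos (π * x * t) * (π * x) * (π * x))))
    univ_mem ?_ ?_ ?_ ?_ ?_ ?_
  · exact h.2
  · refine Eventually.of_forall fun s => ?_
    exact Continuous.aestronglyMeasurable (by fun_prop)
  · exact Continuous.intervalIntegrable (by fun_prop) _ _
  · exact Continuous.aestronglyMeasurable (by fun_prop)
  · refine Eventually.of_forall fun x hx s _ => ?_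
    rw [uIoc_of_le zero_le_one] at hx
    have h1 : 0 ≤ 1 + cos (π * x) := one_add_cos_nonneg x
    have h2 : 1 + cos (π * x) ≤ 2 := by linarith [cos_le_one (π * x)]
    have h5 : 0 ≤ π * x := mul_nonneg pi_pos.le hx.1.le
    rw [norm_eq_abs, abs_mul, abs_neg, abs_mul, abs_mul, abs_of_nonneg h1, abs_of_nonneg h5]
    have h3 : |cos (π * x * s)| ≤ 1 := abs_cos_le_one _
    have h4 : π * x ≤ π := by nlinarith [pi_pos, hx.2]
    have h6 : |cos (π * x * s)| * (π * x) ≤ π := by
      calc |cos (π * x * s)| * (π * x) ≤ 1 * (π * x) := mul_le_mul_of_nonneg_right h3 h5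
        _ ≤ π := by linarith
    have h7 : |cos (π * x * s)| * (π * x) * (π * x) ≤ π * π :=
      mul_le_mul h6 h4 h5 pi_pos.le
    exact mul_le_mul h2 h7 (by positivity) (by norm_num)
  · exact intervalIntegrable_const
  · refine Eventually.of_forall fun x _ s _ => ?_
    have h1 : HasDerivAt (fun s : ℝ => π * x * s) (π * x) s := by
      simpa using (hasDerivAt_id s).const_mul (π * x)
    exact ((((h1.sin).mul_const (π * x)).neg).const_mul (1 + cos (π * x))).congr_deriv (by ring)

theorem hasDerivAt_sin_mul (a x : ℝ) : HasDerivAt (fun x : ℝ => sin (a * x)) (a * cos (a * x)) x := by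
  have h1 : HasDerivAt (fun s : ℝ => a * s) a x := by
    simpa using (hasDerivAt_id x).const_mul a
  exact h1.sin.congr_deriv (by ring)

theorem hasDerivAt_cos_mul (a x : ℝ) :
    HasDerivAt (fun x : ℝ => cos (a * x)) (-(a * sin (a * x))) x := by
  have h1 : HasDerivAt (fun s : ℝ => a * s) a x := by
    simpa using (hasDerivAt_id x).const_mul a
  exact h1.cos.congr_deriv (by ring)

/-- The defining identity. -/
theorem pk_ident (t : ℝ) : π * t * (1 - t ^ 2) * pk t = sin (π * t) := by
  have h1 : ∀ x ∈ uIcc (0 : ℝ) 1, HasDerivAt (fun x : ℝ => (1 - t ^ 2) * sin (π * t * x) +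
      t * (sin (π * x) * cos (π * t * x) - t * (cos (π * x) * sin (π * t * x))))
      (π * t * (1 - t ^ 2) * ((1 + cos (π * x)) * cos (π * x * t))) x := by
    intro x _
    have a1 := hasDerivAt_sin_mul (π * t) x
    have a2 := hasDerivAt_cos_mul (π * t) x
    have a3 := hasDerivAt_sin_mul π x
    have a4 := hasDerivAt_cos_mul π x
    have e : π * x * t = π * t * x := by ring
    rw [e]
    exact ((a1.const_mul (1 - t ^ 2)).add
      (((a3.mul a2).sub ((a4.mul a1).const_mul t)).const_mul t)).congr_deriv (by ring)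
  have h2 := integral_eq_sub_of_hasDerivAt h1
    (Continuous.intervalIntegrable (by fun_prop) _ _)
  rw [intervalIntegral.integral_const_mul] at h2
  show π * t * (1 - t ^ 2) * pk t = _
  unfold pk
  rw [h2]
  simp
  ring

theorem integral_one_add_cos : ∫ x in (0 : ℝ)..1, (1 + cos (π * x)) = 1 := by
  have h1 : ∀ x ∈ uIcc (0 : ℝ) 1, HasDerivAt (fun x : ℝ => x + sin (π * x) / π)
      (1 + cos (π * x)) x := by
    intro x _
    exact ((hasDerivAt_id x).add ((hasDerivAt_sin_mul π x).div_const π)).congr_deriv (by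
      field_simp)
  rw [integral_eq_sub_of_hasDerivAt h1 (Continuous.intervalIntegrable (by fun_prop) _ _)]
  simp

theorem abs_pk_le (t : ℝ) : |pk t| ≤ 1 := by
  unfold pk
  refine (abs_integral_le_integral_abs zero_le_one).trans ?_
  refine le_trans ?_ integral_one_add_cos.le
  apply integral_mono_on zero_le_one
  · exact Continuous.intervalIntegrable (by fun_prop) _ _
  · exact Continuous.intervalIntegrable (by fun_prop) _ _
  · intro x _
    rw [abs_mul, abs_of_nonneg (one_add_cos_nonneg x)]
    exact mul_le_of_le_one_right (one_add_cos_nonneg x) (abs_cos_le_one _)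

theorem integral_pk1_bound :
    ∫ x in (0 : ℝ)..1, (1 + cos (π * x)) * (π * x) = π / 2 - 2 / π := by
  have h1 : ∀ x ∈ uIcc (0 : ℝ) 1, HasDerivAt
      (fun x : ℝ => π * x ^ 2 / 2 + x * sin (π * x) + cos (π * x) / π)
      ((1 + cos (π * x)) * (π * x)) x := by
    intro x _
    exact (((((hasDerivAt_pow 2 x).const_mul π).div_const 2).add
      ((hasDerivAt_id x).mul (hasDerivAt_sin_mul π x))).add
      ((hasDerivAt_cos_mul π x).div_const π)).congr_deriv (by
        simp only [id]
        field_simp
        norm_num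
        ring)
  rw [integral_eq_sub_of_hasDerivAt h1 (Continuous.intervalIntegrable (by fun_prop) _ _)]
  simp
  ring

theorem abs_pk1_le (t : ℝ) : |pk1 t| ≤ 47 / 50 := by
  unfold pk1
  refine (abs_integral_le_integral_abs zero_le_one).trans ?_
  have h : ∫ x in (0 : ℝ)..1, |(1 + cos (π * x)) * (-(sin (π * x * t) * (π * x)))| ≤
      π / 2 - 2 / π := by
    rw [← integral_pk1_bound]
    apply integral_mono_on zero_le_one
    · exact Continuous.intervalIntegrable (by fun_prop) _ _
    · exact Continuous.intervalIntegrable (by fun_prop) _ _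
    · intro x hx
      have h5 : 0 ≤ π * x := mul_nonneg pi_pos.le hx.1
      rw [abs_mul, abs_neg, abs_mul, abs_of_nonneg (one_add_cos_nonneg x), abs_of_nonneg h5]
      apply mul_le_mul_of_nonneg_left _ (one_add_cos_nonneg x)
      exact mul_le_of_le_one_left h5 (abs_sin_le_one _)
  refine h.trans ?_
  have h1 := pi_lt_d4
  have h2 := pi_gt_d4
  have h3 : (2 : ℝ) / 3.1416 ≤ 2 / π := by
    apply div_le_div_of_nonneg_left (by norm_num) pi_pos h1.le
  norm_num at h3 ⊢
  linarith

theorem integral_pk2_bound :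
    ∫ x in (0 : ℝ)..1, (1 + cos (π * x)) * ((π * x) * (π * x)) = π ^ 2 / 3 - 2 := by
  have h1 : ∀ x ∈ uIcc (0 : ℝ) 1, HasDerivAt
      (fun x : ℝ => π ^ 2 * x ^ 3 / 3 + (π * (x ^ 2 * sin (π * x)) + 2 * (x * cos (π * x)) -
        2 * sin (π * x) / π))
      ((1 + cos (π * x)) * ((π * x) * (π * x))) x := by
    intro x _
    exact ((((hasDerivAt_pow 3 x).const_mul (π ^ 2)).div_const 3).add
      ((((((hasDerivAt_pow 2 x).mul (hasDerivAt_sin_mul π x)).const_mul π).add
      (((hasDerivAt_id x).mul (hasDerivAt_cos_mul π x)).const_mul 2))).sub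
      (((hasDerivAt_sin_mul π x).const_mul 2).div_const π))).congr_deriv (by
        simp only [id]
        field_simp
        norm_num
        ring)
  rw [integral_eq_sub_of_hasDerivAt h1 (Continuous.intervalIntegrable (by fun_prop) _ _)]
  simp
  ring

theorem abs_pk2_le (t : ℝ) : |pk2 t| ≤ 13 / 10 := by
  unfold pk2
  refine (abs_integral_le_integral_abs zero_le_one).trans ?_
  have h : ∫ x in (0 : ℝ)..1, |(1 + cos (π * x)) * (-(cos (π * x * t) * (π * x) * (π * x)))| ≤
      π ^ 2 / 3 - 2 := by
    rw [← integral_pk2_bound]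
    apply integral_mono_on zero_le_one
    · exact Continuous.intervalIntegrable (by fun_prop) _ _
    · exact Continuous.intervalIntegrable (by fun_prop) _ _
    · intro x hx
      have h5 : 0 ≤ π * x := mul_nonneg pi_pos.le hx.1
      rw [abs_mul, abs_neg, abs_mul, abs_mul, abs_of_nonneg (one_add_cos_nonneg x),
        abs_of_nonneg h5, mul_assoc]
      apply mul_le_mul_of_nonneg_left _ (one_add_cos_nonneg x)
      exact mul_le_of_le_one_left (mul_nonneg h5 h5) (abs_cos_le_one _)
  refine h.trans ?_
  have h1 := pi_lt_d4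
  have h2 : π ^ 2 ≤ 3.1416 ^ 2 := pow_le_pow_left₀ pi_pos.le h1.le 2
  norm_num at h2 ⊢
  linarith

theorem pk_lip (a b : ℝ) : |pk a - pk b| ≤ 47 / 50 * |a - b| := by
  have h := Convex.norm_image_sub_le_of_norm_hasDerivWithin_le (f := pk) (f' := pk1)
    (s := univ) (C := 47 / 50) (x := b) (y := a) (fun x _ => (hasDerivAt_pk x).hasDerivWithinAt)
    (fun x _ => by rw [norm_eq_abs]; exact abs_pk1_le x) convex_univ (mem_univ _) (mem_univ _)
  exact h

theorem pk1_lip (a b : ℝ) : |pk1 a - pk1 b| ≤ 13 / 10 * |a - b| := by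
  have h := Convex.norm_image_sub_le_of_norm_hasDerivWithin_le (f := pk1) (f' := pk2)
    (s := univ) (C := 13 / 10) (x := b) (y := a) (fun x _ => (hasDerivAt_pk1 x).hasDerivWithinAt)
    (fun x _ => by rw [norm_eq_abs]; exact abs_pk2_le x) convex_univ (mem_univ _) (mem_univ _)
  exact h

theorem pk_neg (t : ℝ) : pk (-t) = pk t := by
  unfold pk
  refine intervalIntegral.integral_congr fun x _ => ?_
  rw [mul_neg, cos_neg]

theorem pk1_neg (t : ℝ) : pk1 (-t) = -pk1 t := by
  unfold pk1
  rw [← intervalIntegral.integral_neg]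
  refine intervalIntegral.integral_congr fun x _ => ?_
  have e : π * x * -t = -(π * x * t) := by ring
  rw [e, sin_neg]
  ring

theorem pk_zero : pk 0 = 1 := by
  unfold pk
  simp only [mul_zero, cos_zero, mul_one]
  exact integral_one_add_cos

theorem pk1_zero : pk1 0 = 0 := by
  unfold pk1
  simp

theorem pk_one : pk 1 = 1 / 2 := by
  unfold pk
  have h1 : ∀ x ∈ uIcc (0 : ℝ) 1, HasDerivAt
      (fun x : ℝ => sin (π * x) / π + x / 2 + sin (π * x) * cos (π * x) / (2 * π))
      ((1 + cos (π * x)) * cos (π * x * 1)) x := by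
    intro x _
    have h := sin_sq_add_cos_sq (π * x)
    exact ((((hasDerivAt_sin_mul π x).div_const π).add ((hasDerivAt_id x).div_const 2)).add
      (((hasDerivAt_sin_mul π x).mul (hasDerivAt_cos_mul π x)).div_const (2 * π))).congr_deriv (by
        rw [mul_one]
        field_simp
        linear_combination (-1 : ℝ) * h)
  rw [integral_eq_sub_of_hasDerivAt h1 (Continuous.intervalIntegrable (by fun_prop) _ _)]
  simp

theorem pk1_one : pk1 1 = -(3 / 4) := by
  unfold pk1
  have h1 : ∀ x ∈ uIcc (0 : ℝ) 1, HasDerivAt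
      (fun x : ℝ => x * cos (π * x) - sin (π * x) / π + x * (2 * cos (π * x) ^ 2 - 1) / 4 -
        sin (π * x) * cos (π * x) / (4 * π))
      ((1 + cos (π * x)) * (-(sin (π * x * 1) * (π * x)))) x := by
    intro x _
    have b1 := hasDerivAt_sin_mul π x
    have b2 := hasDerivAt_cos_mul π x
    have h := sin_sq_add_cos_sq (π * x)
    exact (((((hasDerivAt_id x).mul b2).sub (b1.div_const π)).add
      (((hasDerivAt_id x).mul (((b2.pow 2).const_mul 2).sub_const 1)).div_const 4)).sub
      ((b1.mul b2).div_const (4 * π))).congr_deriv (by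
        rw [mul_one]
        simp only [id, Pi.pow_apply]
        field_simp
        simp
        linear_combination h)
  rw [integral_eq_sub_of_hasDerivAt h1 (Continuous.intervalIntegrable (by fun_prop) _ _)]
  simp
  norm_num

/-- The derivative of the defining identity. -/
theorem pk1_ident (t : ℝ) : (1 - 3 * t ^ 2) * pk t + t * (1 - t ^ 2) * pk1 t = cos (π * t) := by
  have h1 : HasDerivAt (fun t : ℝ => π * t * (1 - t ^ 2) * pk t)
      ((π * (1 - t ^ 2) + π * t * (-(2 * t))) * pk t + π * t * (1 - t ^ 2) * pk1 t) t := by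
    exact ((((hasDerivAt_id t).const_mul π).mul ((hasDerivAt_pow 2 t).const_sub 1)).mul
      (hasDerivAt_pk t)).congr_deriv (by
        simp only [id, Pi.mul_apply]
        norm_num)
  have h2 : HasDerivAt (fun t : ℝ => π * t * (1 - t ^ 2) * pk t) (π * cos (π * t)) t := by
    have : (fun t : ℝ => π * t * (1 - t ^ 2) * pk t) = fun t => sin (π * t) := by
      ext t
      exact pk_ident t
    rw [this]
    exact hasDerivAt_sin_mul π t
  have h3 := h1.unique h2
  have h4 : π ≠ 0 := pi_ne_zero
  apply mul_left_cancel₀ h4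
  linear_combination h3

end Pool.Agent.StripSin
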