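import Pool.Agent.StripSin.Base

/-! # The table of arcs -/

set_option autoImplicit false

open Real Set

namespace Pool.Agent.StripSin

/-- an interval, unit `10 ^ (-5)` -/
structure Iv where
  lo : Int
  hi : Int

def Iv.Has (i : Iv) (x : ℝ) : Prop := (i.lo : ℝ) ≤ x * 100000 ∧ x * 100000 ≤ i.hi

def Iv.mul (a b : Iv) : Iv :=
  ⟨mlo a.lo a.hi b.lo b.hi / 100000, -(-mhi a.lo a.hi b.lo b.hi / 100000)⟩

def Iv.add (a b : Iv) : Iv := ⟨a.lo + b.lo, a.hi + b.hi⟩

def Iv.neg (a : Iv) : Iv := ⟨-a.hi, -a.lo⟩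

theorem floor_le {z : Int} {x : ℝ} (h : (z : ℝ) ≤ x * 100000) : ((z / 100000 : Int) : ℝ) ≤ x := by
  have h1 : z / 100000 * 100000 ≤ z := Int.ediv_mul_le z (by norm_num)
  have h2 : ((z / 100000 : Int) : ℝ) * 100000 ≤ (z : ℝ) := by exact_mod_cast h1
  linarith

theorem le_ceil {z : Int} {x : ℝ} (h : x * 100000 ≤ (z : ℝ)) :
    x ≤ ((-(-z / 100000) : Int) : ℝ) := by
  have h1 := floor_le (z := -z) (x := -x) (by push_cast; linarith)
  rw [Int.cast_neg]
  linarith

theorem Iv.Has.mul {a b : Iv} {x y : ℝ} (h : a.Has x) (h' : b.Has y) : (a.mul b).Has (x * y) := by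
  have h1 := mlo_le h.1 h.2 h'.1 h'.2
  have h2 := le_mhi h.1 h.2 h'.1 h'.2
  constructor
  · apply floor_le
    linarith
  · apply le_ceil
    linarith

theorem Iv.Has.add {a b : Iv} {x y : ℝ} (h : a.Has x) (h' : b.Has y) : (a.add b).Has (x + y) := by
  obtain ⟨h1, h2⟩ := h
  obtain ⟨h3, h4⟩ := h'
  constructor
  · show (((a.lo + b.lo : Int)) : ℝ) ≤ _
    push_cast
    linarith
  · show _ ≤ (((a.hi + b.hi : Int)) : ℝ)
    push_cast
    linarith

theorem Iv.Has.neg {a : Iv} {x : ℝ} (h : a.Has x) : (a.neg).Has (-x) := by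
  obtain ⟨h1, h2⟩ := h
  constructor
  · show (((-a.hi : Int)) : ℝ) ≤ _
    push_cast
    linarith
  · show _ ≤ (((-a.lo : Int)) : ℝ)
    push_cast
    linarith

/-- interval data of an arc from the data before multiplication -/
def derive (b : Base) : Arc :=
  let s : Iv := ⟨b.s0, b.s1⟩
  let c : Iv := ⟨b.c0, b.c1⟩
  let p : Iv := ⟨b.p0, b.p1⟩
  let q : Iv := ⟨b.q0, b.q1⟩
  let S : Iv := ⟨b.S0, b.S1⟩
  let s2 := s.mul s
  let c2 := c.mul c
  let f : Iv := ⟨100000 - 4 * s2.hi, 100000 - 4 * s2.lo⟩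
  let g : Iv := ⟨900000 - 12 * s2.hi, 900000 - 12 * s2.lo⟩
  let n := (c.mul p).mul f
  let d := (((s.mul p).mul g).neg).add (Iv.mul ⟨115470, 115471⟩ (c2.mul (f.mul q)))
  let Q := Iv.mul ⟨362759, 362760⟩ (c.mul S)
  ⟨c.lo, c.hi, s.lo, s.hi, n.lo, n.hi, d.lo, d.hi, b.C0, b.C1, Q.lo, Q.hi⟩

theorem derive_sound {b : Base} {u : ℝ × ℝ} (h : InBase b u) : InArc (derive b) u := by
  have hs : Iv.Has ⟨b.s0, b.s1⟩ u.2 := ⟨h.s0, h.s1⟩
  have hc : Iv.Has ⟨b.c0, b.c1⟩ u.1 := ⟨h.c0, h.c1⟩
  have hp : Iv.Has ⟨b.p0, b.p1⟩ (pk (ih * u.2)) := ⟨h.p0, h.p1⟩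
  have hq : Iv.Has ⟨b.q0, b.q1⟩ (pk1 (ih * u.2)) := ⟨h.q0, h.q1⟩
  have hS : Iv.Has ⟨b.S0, b.S1⟩ (sin (om * u.2)) := ⟨h.S0, h.S1⟩
  have hs2 := hs.mul hs
  have hc2 := hc.mul hc
  obtain ⟨j1, j2⟩ := hs2
  have hf : Iv.Has ⟨100000 - 4 * (Iv.mul ⟨b.s0, b.s1⟩ ⟨b.s0, b.s1⟩).hi,
      100000 - 4 * (Iv.mul ⟨b.s0, b.s1⟩ ⟨b.s0, b.s1⟩).lo⟩ (1 - 4 * u.2 ^ 2) := by
    constructor
    · push_cast
      linarith
    · push_cast
      linarith
  have hg : Iv.Has ⟨900000 - 12 * (Iv.mul ⟨b.s0, b.s1⟩ ⟨b.s0, b.s1⟩).hi,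
      900000 - 12 * (Iv.mul ⟨b.s0, b.s1⟩ ⟨b.s0, b.s1⟩).lo⟩ (9 - 12 * u.2 ^ 2) := by
    constructor
    · push_cast
      linarith
    · push_cast
      linarith
  have hn := (hc.mul hp).mul hf
  have hih : Iv.Has ⟨115470, 115471⟩ ih := by
    have := ih_gt
    have := ih_lt
    constructor
    · push_cast
      linarith
    · push_cast
      linarith
  have hom : Iv.Has ⟨362759, 362760⟩ om := by
    have := om_gt
    have := om_lt
    constructor
    · push_cast
      linarith
    · push_cast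
      linarith
  have hd := (((hs.mul hp).mul hg).neg).add (hih.mul (hc2.mul (hf.mul hq)))
  have hQ := hom.mul (hc.mul hS)
  have en : nu u = u.1 * pk (ih * u.2) * (1 - 4 * u.2 ^ 2) := by
    unfold nu
    ring
  have ed : nd u = -(u.2 * pk (ih * u.2) * (9 - 12 * u.2 ^ 2)) +
      ih * (u.1 * u.1 * ((1 - 4 * u.2 ^ 2) * pk1 (ih * u.2))) := by
    unfold nd
    ring
  constructor
  · exact h.c0
  · exact h.c1
  · exact h.s0
  · exact h.s1
  · rw [en]
    exact hn.1
  · rw [en]
    exact hn.2
  · rw [ed]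
    exact hd.1
  · rw [ed]
    exact hd.2
  · exact h.C0
  · exact h.C1
  · exact hQ.1
  · exact hQ.2

/-- mirror image in the vertical axis -/
def Arc.fx (a : Arc) : Arc :=
  ⟨-a.c1, -a.c0, a.s0, a.s1, -a.n1, -a.n0, a.d0, a.d1, a.C0, a.C1, -a.Q1, -a.Q0⟩

/-- mirror image in the horizontal axis -/
def Arc.fy (a : Arc) : Arc :=
  ⟨a.c0, a.c1, -a.s1, -a.s0, a.n0, a.n1, -a.d1, -a.d0, a.C0, a.C1, -a.Q1, -a.Q0⟩

theorem InArc.fx {a : Arc} {u : ℝ × ℝ} (h : InArc a (-u.1, u.2)) : InArc a.fx u := by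
  have e1 : nu (-u.1, u.2) = -nu u := by
    unfold nu
    simp only
    ring
  have e2 : nd (-u.1, u.2) = nd u := by
    unfold nd
    simp only
    ring
  have e3 : cc (-u.1, u.2) = cc u := rfl
  have e4 : qq (-u.1, u.2) = -qq u := by
    unfold qq
    simp only
    ring
  obtain ⟨a1, a2, a3, a4, a5, a6, a7, a8, a9, a10, a11, a12⟩ := h
  rw [e1] at a5 a6
  rw [e2] at a7 a8
  rw [e3] at a9 a10
  rw [e4] at a11 a12
  constructor <;> simp only [Arc.fx, Int.cast_neg] at * <;> linarith

theorem InArc.fy {a : Arc} {u : ℝ × ℝ} (h : InArc a (u.1, -u.2)) : InArc a.fy u := by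
  have e1 : nu (u.1, -u.2) = nu u := by
    unfold nu
    simp only [mul_neg, pk_neg]
    ring
  have e2 : nd (u.1, -u.2) = -nd u := by
    unfold nd
    simp only [mul_neg, pk_neg, pk1_neg]
    ring
  have e3 : cc (u.1, -u.2) = cc u := by
    unfold cc
    simp only [mul_neg, cos_neg]
  have e4 : qq (u.1, -u.2) = -qq u := by
    unfold qq
    simp only [mul_neg, sin_neg]
  obtain ⟨a1, a2, a3, a4, a5, a6, a7, a8, a9, a10, a11, a12⟩ := h
  rw [e1] at a5 a6
  rw [e2] at a7 a8
  rw [e3] at a9 a10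
  rw [e4] at a11 a12
  constructor <;> simp only [Arc.fy, Int.cast_neg] at * <;> linarith

deriving instance DecidableEq for Arc

def quarter : List Arc := [derive base0, derive base1, derive base2, derive base3, derive base4, derive base5, derive base6, derive base7, derive base8, derive base9, derive base10, derive base11, derive base12, derive base13, derive base14, derive base15, derive base16, derive base17, derive base18, derive base19, derive base20, derive base21, derive base22, derive base23, derive base24, derive base25, derive base26, derive base27, derive base28, derive base29]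

theorem exists_quarter {u : ℝ × ℝ} (hu : u.1 ^ 2 + u.2 ^ 2 = 1) (h0 : 0 ≤ u.1) (h1 : 0 ≤ u.2) :
    ∃ a ∈ quarter, InArc a u := by
  rcases le_or_gt u.2 0.0523 with f | g1
  · exact ⟨derive base0, by simp [quarter], derive_sound (cell0 hu h0 h1 f)⟩
  rcases le_or_gt u.2 0.1045 with f | g2
  · exact ⟨derive base1, by simp [quarter], derive_sound (cell1 hu h0 g1.le f)⟩
  rcases le_or_gt u.2 0.1564 with f | g3
  · exact ⟨derive base2, by simp [quarter], derive_sound (cell2 hu h0 g2.le f)⟩
  rcases le_or_gt u.2 0.2079 with f | g4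
  · exact ⟨derive base3, by simp [quarter], derive_sound (cell3 hu h0 g3.le f)⟩
  rcases le_or_gt u.2 0.2588 with f | g5
  · exact ⟨derive base4, by simp [quarter], derive_sound (cell4 hu h0 g4.le f)⟩
  rcases le_or_gt u.2 0.309 with f | g6
  · exact ⟨derive base5, by simp [quarter], derive_sound (cell5 hu h0 g5.le f)⟩
  rcases le_or_gt u.2 0.3584 with f | g7
  · exact ⟨derive base6, by simp [quarter], derive_sound (cell6 hu h0 g6.le f)⟩
  rcases le_or_gt u.2 0.4067 with f | g8
  · exact ⟨derive base7, by simp [quarter], derive_sound (cell7 hu h0 g7.le f)⟩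
  rcases le_or_gt u.2 0.454 with f | g9
  · exact ⟨derive base8, by simp [quarter], derive_sound (cell8 hu h0 g8.le f)⟩
  rcases le_or_gt u.2 0.5 with f | g10
  · exact ⟨derive base9, by simp [quarter], derive_sound (cell9 hu h0 g9.le f)⟩
  rcases le_or_gt u.2 0.5446 with f | g11
  · exact ⟨derive base10, by simp [quarter], derive_sound (cell10 hu h0 g10.le f)⟩
  rcases le_or_gt u.2 0.5878 with f | g12
  · exact ⟨derive base11, by simp [quarter], derive_sound (cell11 hu h0 g11.le f)⟩
  rcases le_or_gt u.2 0.6293 with f | g13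
  · exact ⟨derive base12, by simp [quarter], derive_sound (cell12 hu h0 g12.le f)⟩
  rcases le_or_gt u.2 0.6691 with f | g14
  · exact ⟨derive base13, by simp [quarter], derive_sound (cell13 hu h0 g13.le f)⟩
  rcases le_or_gt u.2 0.7071 with f | g15
  · exact ⟨derive base14, by simp [quarter], derive_sound (cell14 hu h0 g14.le f)⟩
  rcases le_or_gt u.2 0.7431 with f | g16
  · exact ⟨derive base15, by simp [quarter], derive_sound (cell15 hu h0 g15.le f)⟩
  rcases le_or_gt u.2 0.7771 with f | g17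
  · exact ⟨derive base16, by simp [quarter], derive_sound (cell16 hu h0 g16.le f)⟩
  rcases le_or_gt u.2 0.809 with f | g18
  · exact ⟨derive base17, by simp [quarter], derive_sound (cell17 hu h0 g17.le f)⟩
  rcases le_or_gt u.2 0.8387 with f | g19
  · exact ⟨derive base18, by simp [quarter], derive_sound (cell18 hu h0 g18.le f)⟩
  rcases le_or_gt u.2 0.866 with f | g20
  · exact ⟨derive base19, by simp [quarter], derive_sound (cell19 hu h0 g19.le f)⟩
  rcases le_or_gt u.2 0.891 with f | g21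
  · exact ⟨derive base20, by simp [quarter], derive_sound (cell20 hu h0 g20.le f)⟩
  rcases le_or_gt u.2 0.9135 with f | g22
  · exact ⟨derive base21, by simp [quarter], derive_sound (cell21 hu h0 g21.le f)⟩
  rcases le_or_gt u.2 0.9336 with f | g23
  · exact ⟨derive base22, by simp [quarter], derive_sound (cell22 hu h0 g22.le f)⟩
  rcases le_or_gt u.2 0.9511 with f | g24
  · exact ⟨derive base23, by simp [quarter], derive_sound (cell23 hu h0 g23.le f)⟩
  rcases le_or_gt u.2 0.9659 with f | g25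
  · exact ⟨derive base24, by simp [quarter], derive_sound (cell24 hu h0 g24.le f)⟩
  rcases le_or_gt u.2 0.9781 with f | g26
  · exact ⟨derive base25, by simp [quarter], derive_sound (cell25 hu h0 g25.le f)⟩
  rcases le_or_gt u.2 0.9877 with f | g27
  · exact ⟨derive base26, by simp [quarter], derive_sound (cell26 hu h0 g26.le f)⟩
  rcases le_or_gt u.2 0.9945 with f | g28
  · exact ⟨derive base27, by simp [quarter], derive_sound (cell27 hu h0 g27.le f)⟩
  rcases le_or_gt u.2 0.9986 with f | g29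
  · exact ⟨derive base28, by simp [quarter], derive_sound (cell28 hu h0 g28.le f)⟩
  have f : u.2 ≤ 1 := by nlinarith
  exact ⟨derive base29, by simp [quarter], derive_sound (cell29 hu h0 g29.le f)⟩

def arcs : List Arc := [
  ⟨99863, 100000, 0, 5230, 98533, 100003, -56119, 62, 98205, 100001, -4, 68413⟩,
  ⟨99452, 99864, 5230, 10450, 94210, 98546, -111201, -54324, 92900, 98206, 68031, 134069⟩,
  ⟨98769, 99453, 10450, 15640, 87239, 94224, -162643, -104585, 84332, 92901, 132588, 193888⟩,
  ⟨97815, 98770, 15640, 20790, 77935, 87252, -208101, -148426, 72883, 84333, 190684, 245324⟩,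
  ⟨96593, 97816, 20790, 25880, 66730, 77947, -245528, -184139, 59073, 72884, 239910, 286309⟩,
  ⟨95106, 96594, 25880, 30900, 54106, 66741, -273510, -210436, 43484, 59074, 278370, 315544⟩,
  ⟨93356, 95107, 30900, 35840, 40587, 54116, -291211, -226757, 26737, 43485, 304960, 332456⟩,
  ⟨91356, 93357, 35840, 40670, 26756, 40595, -298234, -233193, 9530, 26738, 319333, 337124⟩,
  ⟨89100, 91357, 40670, 45400, 13055, 26763, -295221, -230067, -7607, 9531, 321741, 331407⟩,
  ⟨86602, 89101, 45400, 50000, 0, 13061, -282766, -218640, -24062, -7605, 304920, 322291⟩,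
  ⟨83869, 86603, 50000, 54460, -12956, 0, -262302, -198457, -39383, -24061, 279650, 304937⟩,
  ⟨80900, 83870, 54460, 58780, -24662, -11094, -237149, -172676, -53247, -39382, 248406, 279663⟩,
  ⟨77716, 80901, 58780, 62930, -34782, -20857, -207101, -143247, -65339, -53246, 213418, 248419⟩,
  ⟨74317, 77717, 62930, 66910, -43185, -29062, -174120, -111647, -75551, -65338, 176616, 213430⟩,
  ⟨70711, 74318, 66910, 70710, -49769, -35644, -139683, -79454, -83837, -75550, 139821, 176625⟩,
  ⟨66918, 70712, 70710, 74310, -54496, -40591, -105163, -48111, -90222, -83836, 104695, 139830⟩,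
  ⟨62937, 66919, 74310, 77710, -57471, -43910, -71936, -18510, -94842, -90221, 72374, 104704⟩,
  ⟨58780, 62938, 77710, 80900, -58786, -45719, -40781, 8504, -97868, -94841, 43792, 72386⟩,
  ⟨54459, 58781, 80900, 83870, -58590, -46139, -12374, 32416, -99510, -97867, 19549, 43800⟩,
  ⟨50004, 54460, 83870, 86600, -57042, -45341, 12897, 52845, -100001, -99509, 14, 19553⟩,
  ⟨45400, 50005, 86600, 89100, -54400, -43431, 34677, 71651, -100000, -99589, -16415, 22⟩,
  ⟨40683, 45401, 89100, 91350, -50788, -40627, 51757, 86663, -99590, -98520, -28227, -13349⟩,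
  ⟨35831, 40684, 91350, 93360, -46447, -37016, 66007, 98402, -98521, -97010, -35819, -22273⟩,
  ⟨30888, 35832, 93360, 95110, -41468, -32798, 77917, 106996, -97011, -95275, -39483, -27188⟩,
  ⟨25891, 30889, 95110, 96590, -36045, -28105, 87694, 112870, -95276, -93508, -39719, -28527⟩,
  ⟨20813, 25892, 96590, 97810, -30351, -22991, 95526, 116650, -93509, -91848, -37147, -26757⟩,
  ⟨15636, 20814, 97810, 98770, -24434, -17519, 101844, 118705, -91849, -90415, -32257, -22429⟩,
  ⟨10473, 15637, 98770, 99450, -18329, -11875, 107083, 119141, -90417, -89334, -25492, -16226⟩,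
  ⟨5289, 10474, 99450, 99860, -12237, -6057, 111186, 118513, -89335, -88656, -17580, -8619⟩,
  ⟨0, 5290, 99860, 100000, -6150, 0, 114414, 116938, -88657, -88420, -8964, 0⟩,
  ⟨-5290, 0, 99860, 100000, 0, 6150, 114414, 116938, -88657, -88420, 0, 8964⟩,
  ⟨-10474, -5289, 99450, 99860, 6057, 12237, 111186, 118513, -89335, -88656, 8619, 17580⟩,
  ⟨-15637, -10473, 98770, 99450, 11875, 18329, 107083, 119141, -90417, -89334, 16226, 25492⟩,
  ⟨-20814, -15636, 97810, 98770, 17519, 24434, 101844, 118705, -91849, -90415, 22429, 32257⟩,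
  ⟨-25892, -20813, 96590, 97810, 22991, 30351, 95526, 116650, -93509, -91848, 26757, 37147⟩,
  ⟨-30889, -25891, 95110, 96590, 28105, 36045, 87694, 112870, -95276, -93508, 28527, 39719⟩,
  ⟨-35832, -30888, 93360, 95110, 32798, 41468, 77917, 106996, -97011, -95275, 27188, 39483⟩,
  ⟨-40684, -35831, 91350, 93360, 37016, 46447, 66007, 98402, -98521, -97010, 22273, 35819⟩,
  ⟨-45401, -40683, 89100, 91350, 40627, 50788, 51757, 86663, -99590, -98520, 13349, 28227⟩,
  ⟨-50005, -45400, 86600, 89100, 43431, 54400, 34677, 71651, -100000, -99589, -22, 16415⟩,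
  ⟨-54460, -50004, 83870, 86600, 45341, 57042, 12897, 52845, -100001, -99509, -19553, -14⟩,
  ⟨-58781, -54459, 80900, 83870, 46139, 58590, -12374, 32416, -99510, -97867, -43800, -19549⟩,
  ⟨-62938, -58780, 77710, 80900, 45719, 58786, -40781, 8504, -97868, -94841, -72386, -43792⟩,
  ⟨-66919, -62937, 74310, 77710, 43910, 57471, -71936, -18510, -94842, -90221, -104704, -72374⟩,
  ⟨-70712, -66918, 70710, 74310, 40591, 54496, -105163, -48111, -90222, -83836, -139830, -104695⟩,
  ⟨-74318, -70711, 66910, 70710, 35644, 49769, -139683, -79454, -83837, -75550, -176625, -139821⟩,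
  ⟨-77717, -74317, 62930, 66910, 29062, 43185, -174120, -111647, -75551, -65338, -213430, -176616⟩,
  ⟨-80901, -77716, 58780, 62930, 20857, 34782, -207101, -143247, -65339, -53246, -248419, -213418⟩,
  ⟨-83870, -80900, 54460, 58780, 11094, 24662, -237149, -172676, -53247, -39382, -279663, -248406⟩,
  ⟨-86603, -83869, 50000, 54460, 0, 12956, -262302, -198457, -39383, -24061, -304937, -279650⟩,
  ⟨-89101, -86602, 45400, 50000, -13061, 0, -282766, -218640, -24062, -7605, -322291, -304920⟩,
  ⟨-91357, -89100, 40670, 45400, -26763, -13055, -295221, -230067, -7607, 9531, -331407, -321741⟩,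
  ⟨-93357, -91356, 35840, 40670, -40595, -26756, -298234, -233193, 9530, 26738, -337124, -319333⟩,
  ⟨-95107, -93356, 30900, 35840, -54116, -40587, -291211, -226757, 26737, 43485, -332456, -304960⟩,
  ⟨-96594, -95106, 25880, 30900, -66741, -54106, -273510, -210436, 43484, 59074, -315544, -278370⟩,
  ⟨-97816, -96593, 20790, 25880, -77947, -66730, -245528, -184139, 59073, 72884, -286309, -239910⟩,
  ⟨-98770, -97815, 15640, 20790, -87252, -77935, -208101, -148426, 72883, 84333, -245324, -190684⟩,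
  ⟨-99453, -98769, 10450, 15640, -94224, -87239, -162643, -104585, 84332, 92901, -193888, -132588⟩,
  ⟨-99864, -99452, 5230, 10450, -98546, -94210, -111201, -54324, 92900, 98206, -134069, -68031⟩,
  ⟨-100000, -99863, 0, 5230, -100003, -98533, -56119, 62, 98205, 100001, -68413, 4⟩,
  ⟨-100000, -99863, -5230, 0, -100003, -98533, -62, 56119, 98205, 100001, -4, 68413⟩,
  ⟨-99864, -99452, -10450, -5230, -98546, -94210, 54324, 111201, 92900, 98206, 68031, 134069⟩,
  ⟨-99453, -98769, -15640, -10450, -94224, -87239, 104585, 162643, 84332, 92901, 132588, 193888⟩,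
  ⟨-98770, -97815, -20790, -15640, -87252, -77935, 148426, 208101, 72883, 84333, 190684, 245324⟩,
  ⟨-97816, -96593, -25880, -20790, -77947, -66730, 184139, 245528, 59073, 72884, 239910, 286309⟩,
  ⟨-96594, -95106, -30900, -25880, -66741, -54106, 210436, 273510, 43484, 59074, 278370, 315544⟩,
  ⟨-95107, -93356, -35840, -30900, -54116, -40587, 226757, 291211, 26737, 43485, 304960, 332456⟩,
  ⟨-93357, -91356, -40670, -35840, -40595, -26756, 233193, 298234, 9530, 26738, 319333, 337124⟩,
  ⟨-91357, -89100, -45400, -40670, -26763, -13055, 230067, 295221, -7607, 9531, 321741, 331407⟩,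
  ⟨-89101, -86602, -50000, -45400, -13061, 0, 218640, 282766, -24062, -7605, 304920, 322291⟩,
  ⟨-86603, -83869, -54460, -50000, 0, 12956, 198457, 262302, -39383, -24061, 279650, 304937⟩,
  ⟨-83870, -80900, -58780, -54460, 11094, 24662, 172676, 237149, -53247, -39382, 248406, 279663⟩,
  ⟨-80901, -77716, -62930, -58780, 20857, 34782, 143247, 207101, -65339, -53246, 213418, 248419⟩,
  ⟨-77717, -74317, -66910, -62930, 29062, 43185, 111647, 174120, -75551, -65338, 176616, 213430⟩,
  ⟨-74318, -70711, -70710, -66910, 35644, 49769, 79454, 139683, -83837, -75550, 139821, 176625⟩,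
  ⟨-70712, -66918, -74310, -70710, 40591, 54496, 48111, 105163, -90222, -83836, 104695, 139830⟩,
  ⟨-66919, -62937, -77710, -74310, 43910, 57471, 18510, 71936, -94842, -90221, 72374, 104704⟩,
  ⟨-62938, -58780, -80900, -77710, 45719, 58786, -8504, 40781, -97868, -94841, 43792, 72386⟩,
  ⟨-58781, -54459, -83870, -80900, 46139, 58590, -32416, 12374, -99510, -97867, 19549, 43800⟩,
  ⟨-54460, -50004, -86600, -83870, 45341, 57042, -52845, -12897, -100001, -99509, 14, 19553⟩,
  ⟨-50005, -45400, -89100, -86600, 43431, 54400, -71651, -34677, -100000, -99589, -16415, 22⟩,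
  ⟨-45401, -40683, -91350, -89100, 40627, 50788, -86663, -51757, -99590, -98520, -28227, -13349⟩,
  ⟨-40684, -35831, -93360, -91350, 37016, 46447, -98402, -66007, -98521, -97010, -35819, -22273⟩,
  ⟨-35832, -30888, -95110, -93360, 32798, 41468, -106996, -77917, -97011, -95275, -39483, -27188⟩,
  ⟨-30889, -25891, -96590, -95110, 28105, 36045, -112870, -87694, -95276, -93508, -39719, -28527⟩,
  ⟨-25892, -20813, -97810, -96590, 22991, 30351, -116650, -95526, -93509, -91848, -37147, -26757⟩,
  ⟨-20814, -15636, -98770, -97810, 17519, 24434, -118705, -101844, -91849, -90415, -32257, -22429⟩,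
  ⟨-15637, -10473, -99450, -98770, 11875, 18329, -119141, -107083, -90417, -89334, -25492, -16226⟩,
  ⟨-10474, -5289, -99860, -99450, 6057, 12237, -118513, -111186, -89335, -88656, -17580, -8619⟩,
  ⟨-5290, 0, -100000, -99860, 0, 6150, -116938, -114414, -88657, -88420, -8964, 0⟩,
  ⟨0, 5290, -100000, -99860, -6150, 0, -116938, -114414, -88657, -88420, 0, 8964⟩,
  ⟨5289, 10474, -99860, -99450, -12237, -6057, -118513, -111186, -89335, -88656, 8619, 17580⟩,
  ⟨10473, 15637, -99450, -98770, -18329, -11875, -119141, -107083, -90417, -89334, 16226, 25492⟩,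
  ⟨15636, 20814, -98770, -97810, -24434, -17519, -118705, -101844, -91849, -90415, 22429, 32257⟩,
  ⟨20813, 25892, -97810, -96590, -30351, -22991, -116650, -95526, -93509, -91848, 26757, 37147⟩,
  ⟨25891, 30889, -96590, -95110, -36045, -28105, -112870, -87694, -95276, -93508, 28527, 39719⟩,
  ⟨30888, 35832, -95110, -93360, -41468, -32798, -106996, -77917, -97011, -95275, 27188, 39483⟩,
  ⟨35831, 40684, -93360, -91350, -46447, -37016, -98402, -66007, -98521, -97010, 22273, 35819⟩,
  ⟨40683, 45401, -91350, -89100, -50788, -40627, -86663, -51757, -99590, -98520, 13349, 28227⟩,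
  ⟨45400, 50005, -89100, -86600, -54400, -43431, -71651, -34677, -100000, -99589, -22, 16415⟩,
  ⟨50004, 54460, -86600, -83870, -57042, -45341, -52845, -12897, -100001, -99509, -19553, -14⟩,
  ⟨54459, 58781, -83870, -80900, -58590, -46139, -32416, 12374, -99510, -97867, -43800, -19549⟩,
  ⟨58780, 62938, -80900, -77710, -58786, -45719, -8504, 40781, -97868, -94841, -72386, -43792⟩,
  ⟨62937, 66919, -77710, -74310, -57471, -43910, 18510, 71936, -94842, -90221, -104704, -72374⟩,
  ⟨66918, 70712, -74310, -70710, -54496, -40591, 48111, 105163, -90222, -83836, -139830, -104695⟩,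
  ⟨70711, 74318, -70710, -66910, -49769, -35644, 79454, 139683, -83837, -75550, -176625, -139821⟩,
  ⟨74317, 77717, -66910, -62930, -43185, -29062, 111647, 174120, -75551, -65338, -213430, -176616⟩,
  ⟨77716, 80901, -62930, -58780, -34782, -20857, 143247, 207101, -65339, -53246, -248419, -213418⟩,
  ⟨80900, 83870, -58780, -54460, -24662, -11094, 172676, 237149, -53247, -39382, -279663, -248406⟩,
  ⟨83869, 86603, -54460, -50000, -12956, 0, 198457, 262302, -39383, -24061, -304937, -279650⟩,
  ⟨86602, 89101, -50000, -45400, 0, 13061, 218640, 282766, -24062, -7605, -322291, -304920⟩,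
  ⟨89100, 91357, -45400, -40670, 13055, 26763, 230067, 295221, -7607, 9531, -331407, -321741⟩,
  ⟨91356, 93357, -40670, -35840, 26756, 40595, 233193, 298234, 9530, 26738, -337124, -319333⟩,
  ⟨93356, 95107, -35840, -30900, 40587, 54116, 226757, 291211, 26737, 43485, -332456, -304960⟩,
  ⟨95106, 96594, -30900, -25880, 54106, 66741, 210436, 273510, 43484, 59074, -315544, -278370⟩,
  ⟨96593, 97816, -25880, -20790, 66730, 77947, 184139, 245528, 59073, 72884, -286309, -239910⟩,
  ⟨97815, 98770, -20790, -15640, 77935, 87252, 148426, 208101, 72883, 84333, -245324, -190684⟩,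
  ⟨98769, 99453, -15640, -10450, 87239, 94224, 104585, 162643, 84332, 92901, -193888, -132588⟩,
  ⟨99452, 99864, -10450, -5230, 94210, 98546, 54324, 111201, 92900, 98206, -134069, -68031⟩,
  ⟨99863, 100000, -5230, 0, 98533, 100003, -62, 56119, 98205, 100001, -68413, 4⟩]

set_option maxRecDepth 100000

theorem quarter_sub : (quarter.all fun a =>
    decide (a ∈ arcs) && decide (a.fx ∈ arcs) && decide (a.fy ∈ arcs) &&
      decide (a.fy.fx ∈ arcs)) = true := by decide +kernel

theorem exists_arc {u : ℝ × ℝ} (hu : u.1 ^ 2 + u.2 ^ 2 = 1) : ∃ a ∈ arcs, InArc a u := by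
  have hq : ∀ a ∈ quarter, a ∈ arcs ∧ a.fx ∈ arcs ∧ a.fy ∈ arcs ∧ a.fy.fx ∈ arcs := by
    intro a ha
    have h1 := List.all_eq_true.1 quarter_sub a ha
    simp only [Bool.and_eq_true, decide_eq_true_eq] at h1
    exact ⟨h1.1.1.1, h1.1.1.2, h1.1.2, h1.2⟩
  rcases le_total 0 u.1 with h1 | h1
  · rcases le_total 0 u.2 with h2 | h2
    · obtain ⟨a, ha, h⟩ := exists_quarter hu h1 h2
      exact ⟨a, (hq a ha).1, h⟩
    · obtain ⟨a, ha, h⟩ := exists_quarter (u := (u.1, -u.2))
        (by simp only [neg_sq]; exact hu) h1 (by simp only; linarith)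
      exact ⟨a.fy, (hq a ha).2.2.1, h.fy⟩
  · rcases le_total 0 u.2 with h2 | h2
    · obtain ⟨a, ha, h⟩ := exists_quarter (u := (-u.1, u.2))
        (by simp only [neg_sq]; exact hu) (by simp only; linarith) h2
      exact ⟨a.fx, (hq a ha).2.1, h.fx⟩
    · obtain ⟨a, ha, h⟩ := exists_quarter (u := (-u.1, -u.2))
        (by simp only [neg_sq]; exact hu) (by simp only; linarith) (by simp only; linarith)
      refine ⟨a.fy.fx, (hq a ha).2.2.2, ?_⟩
      apply InArc.fx
      apply InArc.fy
      exact h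

def check (e0 e1 G : Int) : Bool := arcs.all fun u => arcs.all fun w => pairOK u w e0 e1 G

end Pool.Agent.StripSin
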