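import Pool.Agent.StripSin.Interval

/-! # Values of cosine and sine at the grid points -/

set_option autoImplicit false

open Real

namespace Pool.Agent.StripSin

/-- Taylor polynomial of the cosine, in the square of the argument -/
noncomputable def pc (y : ℝ) : ℝ :=
  1 + y * ((-1 / 2) + y * ((1 / 24) + y * ((-1 / 720) + y * ((1 / 40320) + y * ((-1 / 3628800) + y * ((1 / 479001600) + y * ((-1 / 87178291200) + y * ((1 / 20922789888000) + y * ((-1 / 6402373705728000))))))))))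

/-- Taylor polynomial of the sine, divided by the argument -/
noncomputable def ps (y : ℝ) : ℝ :=
  1 + y * ((-1 / 6) + y * ((1 / 120) + y * ((-1 / 5040) + y * ((1 / 362880) + y * ((-1 / 39916800) + y * ((1 / 6227020800) + y * ((-1 / 1307674368000) + y * ((1 / 355687428096000) + y * ((-1 / 121645100408832000))))))))))

theorem exp_sum (a : ℝ) : ∑ m ∈ Finset.range 20, ((a : ℂ) * Complex.I) ^ m / (m.factorial : ℂ) =
    ((pc (a ^ 2) : ℝ) : ℂ) + ((a * ps (a ^ 2) : ℝ) : ℂ) * Complex.I := by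
  set z : ℂ := (a : ℂ) * Complex.I with hz
  have h2 : z ^ 2 = -(a : ℂ) ^ 2 := by
    rw [hz, mul_pow, Complex.I_sq]
    ring
  have h4 : z ^ 4 = (a : ℂ) ^ 4 := by
    rw [show 4 = 2 * 2 from rfl, pow_mul, h2]
    ring
  have h6 : z ^ 6 = -(a : ℂ) ^ 6 := by
    rw [show 6 = 2 * 3 from rfl, pow_mul, h2]
    ring
  have h8 : z ^ 8 = (a : ℂ) ^ 8 := by
    rw [show 8 = 2 * 4 from rfl, pow_mul, h2]
    ring
  have h10 : z ^ 10 = -(a : ℂ) ^ 10 := by
    rw [show 10 = 2 * 5 from rfl, pow_mul, h2]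
    ring
  have h12 : z ^ 12 = (a : ℂ) ^ 12 := by
    rw [show 12 = 2 * 6 from rfl, pow_mul, h2]
    ring
  have h14 : z ^ 14 = -(a : ℂ) ^ 14 := by
    rw [show 14 = 2 * 7 from rfl, pow_mul, h2]
    ring
  have h16 : z ^ 16 = (a : ℂ) ^ 16 := by
    rw [show 16 = 2 * 8 from rfl, pow_mul, h2]
    ring
  have h18 : z ^ 18 = -(a : ℂ) ^ 18 := by
    rw [show 18 = 2 * 9 from rfl, pow_mul, h2]
    ring
  have h3 : z ^ 3 = -(a : ℂ) ^ 2 * z := by
    rw [pow_succ, h2]
  have h5 : z ^ 5 = (a : ℂ) ^ 4 * z := by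
    rw [pow_succ, h4]
  have h7 : z ^ 7 = -(a : ℂ) ^ 6 * z := by
    rw [pow_succ, h6]
  have h9 : z ^ 9 = (a : ℂ) ^ 8 * z := by
    rw [pow_succ, h8]
  have h11 : z ^ 11 = -(a : ℂ) ^ 10 * z := by
    rw [pow_succ, h10]
  have h13 : z ^ 13 = (a : ℂ) ^ 12 * z := by
    rw [pow_succ, h12]
  have h15 : z ^ 15 = -(a : ℂ) ^ 14 * z := by
    rw [pow_succ, h14]
  have h17 : z ^ 17 = (a : ℂ) ^ 16 * z := by
    rw [pow_succ, h16]
  have h19 : z ^ 19 = -(a : ℂ) ^ 18 * z := by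
    rw [pow_succ, h18]
  simp only [Finset.sum_range_succ, Finset.sum_range_zero, Nat.factorial, pow_zero, pow_one, h2, h3, h4, h5, h6, h7, h8, h9, h10, h11, h12, h13, h14, h15, h16, h17, h18, h19]
  unfold pc ps
  push_cast
  rw [hz]
  ring

theorem taylor_bound {a : ℝ} (h0 : 0 ≤ a) (h : a ≤ 3.63) :
    |cos a - pc (a ^ 2)| ≤ 2 / 10000000 ∧ |sin a - a * ps (a ^ 2)| ≤ 2 / 10000000 := by
  have h1 : ‖(a : ℂ) * Complex.I‖ = a := by
    rw [norm_mul, Complex.norm_I, mul_one, Complex.norm_real, norm_eq_abs, abs_of_nonneg h0]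
  have h2 := Complex.exp_bound' (x := (a : ℂ) * Complex.I) (n := 20) (by
    rw [h1]
    norm_num
    linarith)
  rw [exp_sum, h1, Complex.exp_mul_I] at h2
  have h3 : a ^ 20 / ((Nat.factorial 20 : ℕ) : ℝ) * 2 ≤ 2 / 10000000 := by
    have h4 : a ^ 20 ≤ 3.63 ^ 20 := pow_le_pow_left₀ h0 h 20
    have h5 : ((Nat.factorial 20 : ℕ) : ℝ) = 2432902008176640000 := by
      norm_num [Nat.factorial]
    rw [h5]
    norm_num at h4 ⊢
    linarith
  have h6 := h2.trans h3
  constructor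
  · refine le_trans ?_ ((Complex.abs_re_le_norm _).trans h6)
    apply le_of_eq
    congr 1
    simp [← Complex.ofReal_cos, ← Complex.ofReal_sin]
  · refine le_trans ?_ ((Complex.abs_im_le_norm _).trans h6)
    apply le_of_eq
    congr 1
    simp [← Complex.ofReal_cos, ← Complex.ofReal_sin]

theorem sqrt3_gt10 : (1.7320508075 : ℝ) < √3 := by
  rw [Real.lt_sqrt (by norm_num)]
  norm_num

theorem sqrt3_lt10 : √3 < (1.7320508076 : ℝ) := by
  rw [Real.sqrt_lt' (by norm_num)]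
  norm_num

theorem om_gt : (3.62759872 : ℝ) < om := by
  unfold om
  rw [lt_div_iff₀ sqrt3_pos]
  have h1 := pi_gt_d20
  have h2 := sqrt3_lt10
  norm_num at h1 h2 ⊢
  linarith

theorem om_lt : om < (3.62759874 : ℝ) := by
  unfold om
  rw [div_lt_iff₀ sqrt3_pos]
  have h1 := pi_lt_d20
  have h2 := sqrt3_gt10
  norm_num at h1 h2 ⊢
  linarith

theorem ih_gt : (1.1547005 : ℝ) < ih := by
  unfold ih
  rw [lt_div_iff₀ sqrt3_pos]
  have h2 := sqrt3_lt10
  norm_num at h2 ⊢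
  linarith

theorem ih_lt : ih < (1.1547006 : ℝ) := by
  unfold ih
  rw [div_lt_iff₀ sqrt3_pos]
  have h2 := sqrt3_gt10
  norm_num at h2 ⊢
  linarith

theorem grid_trig {s : ℝ} (a C S : ℝ) (hs0 : 0 ≤ s) (hs1 : s ≤ 1) (ha0 : 0 ≤ a) (ha : a ≤ 3.63)
    (h1 : |3.62759873 * s - a| ≤ 1 / 100000000) (hC : |pc (a ^ 2) - C| ≤ 1 / 100000000)
    (hS : |a * ps (a ^ 2) - S| ≤ 1 / 100000000) :
    |cos (om * s) - C| ≤ 3 / 10000000 ∧ |sin (om * s) - S| ≤ 3 / 10000000 := by
  obtain ⟨t1, t2⟩ := taylor_bound ha0 ha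
  have h2 : |om * s - a| ≤ 2 / 100000000 := by
    have h3 : |(om - 3.62759873) * s| ≤ 1 / 100000000 := by
      rw [abs_mul, abs_of_nonneg hs0]
      have h4 : |om - 3.62759873| ≤ 1 / 100000000 := by
        rw [abs_le]
        have := om_gt
        have := om_lt
        constructor <;> linarith
      calc |om - 3.62759873| * s ≤ 1 / 100000000 * 1 :=
        mul_le_mul h4 hs1 hs0 (by norm_num)
        _ = 1 / 100000000 := by norm_num
    have h5 : om * s - a = (om - 3.62759873) * s + (3.62759873 * s - a) := by ring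
    rw [h5]
    refine (abs_add_le _ _).trans ?_
    linarith
  have h6 : |cos (om * s) - cos a| ≤ 2 / 100000000 := by
    refine le_trans ?_ h2
    exact abs_cos_sub_cos_le _ _
  have h7 : |sin (om * s) - sin a| ≤ 2 / 100000000 := by
    refine le_trans ?_ h2
    exact abs_sin_sub_sin_le _ _
  rw [abs_le] at h6 h7 t1 t2 hC hS
  obtain ⟨_, _⟩ := h6
  obtain ⟨_, _⟩ := h7
  obtain ⟨_, _⟩ := t1
  obtain ⟨_, _⟩ := t2
  obtain ⟨_, _⟩ := hC
  obtain ⟨_, _⟩ := hS
  constructor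
  · rw [abs_le]
    constructor <;> linarith
  · rw [abs_le]
    constructor <;> linarith

end Pool.Agent.StripSin
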