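import Pool.Agent.StripSin.Lip

/-! # The triangle inequality: triangles with two unit sides -/

set_option autoImplicit false

open Real Set

namespace Pool.Agent.StripSin

/-- `√3 / 2` -/
noncomputable def hh : ℝ := √3 / 2

theorem hh_sq : hh ^ 2 = 3 / 4 := by
  unfold hh
  rw [div_pow, sqrt3_sq]
  norm_num

theorem hh_pos : 0 < hh := div_pos sqrt3_pos (by norm_num)

theorem ih_hh : ih * hh = 1 := by
  unfold ih hh
  have := sqrt3_pos.ne'
  field_simp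

theorem hh_gt : (0.866 : ℝ) < hh := by
  unfold hh
  have := sqrt3_gt10
  linarith

theorem hh_lt : hh < (0.8661 : ℝ) := by
  unfold hh
  have := sqrt3_lt10
  linarith

/-- oriented area, doubled -/
def cr (p q r : ℝ × ℝ) : ℝ := (q.1 - p.1) * (r.2 - p.2) - (q.2 - p.2) * (r.1 - p.1)

/-- squared distance -/
def ds (p q : ℝ × ℝ) : ℝ := (q.1 - p.1) ^ 2 + (q.2 - p.2) ^ 2

noncomputable def fl (φ : ℝ) (p q r : ℝ × ℝ) : ℝ := gf φ p q + gf φ q r + gf φ r p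

/-- the triangle inequality with amplitude `1 / 20` -/
def Good (p q r : ℝ × ℝ) : Prop := ∀ φ, 1 / 20 * |fl φ p q r| ≤ ih / 2 * |cr p q r| - 1 / 2

theorem ds_comm (p q : ℝ × ℝ) : ds p q = ds q p := by
  unfold ds
  ring

theorem Good.rot {p q r : ℝ × ℝ} (h : Good p q r) : Good q r p := by
  intro φ
  have e1 : fl φ q r p = fl φ p q r := by
    unfold fl
    ring
  have e2 : cr q r p = cr p q r := by
    unfold cr
    ring
  rw [e1, e2]
  exact h φ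

theorem Good.swap {p q r : ℝ × ℝ} (h : Good p q r) : Good q p r := by
  intro φ
  have e1 : fl φ q p r = -fl φ p q r := by
    unfold fl
    rw [gf_symm φ p q, gf_symm φ r p, gf_symm φ q r]
    ring
  have e2 : cr q p r = -cr p q r := by
    unfold cr
    ring
  rw [e1, e2, abs_neg, abs_neg]
  exact h φ

/-- the defect of a rhombus -/
noncomputable def EE (u w : ℝ × ℝ) : ℝ := nu u * sin (om * w.2) - nu w * sin (om * u.2)

theorem sin_om (w : ℝ × ℝ) :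
    sin (om * w.2) = π * ih / 3 * (w.2 * (3 - 4 * w.2 ^ 2)) * pk (ih * w.2) := by
  have h1 := pk_ident (ih * w.2)
  have h2 : π * (ih * w.2) = om * w.2 := by rw [om_eq]; ring
  have h3 : (ih * w.2) ^ 2 = 4 / 3 * w.2 ^ 2 := by rw [mul_pow, ih_sq]
  rw [h2, h3] at h1
  rw [← h1, om_eq]
  ring

theorem EE_eq {u w : ℝ × ℝ} (hu : u.1 ^ 2 + u.2 ^ 2 = 1) (hw : w.1 ^ 2 + w.2 ^ 2 = 1) :
    EE u w = -(π * ih / 3 * (pk (ih * u.2) * pk (ih * w.2)) *
      ((w.1 * u.2 - w.2 * u.1) * (3 - 4 * (w.1 * u.2 - w.2 * u.1) ^ 2))) := by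
  have h0 : (u.1 * w.1 + u.2 * w.2) ^ 2 + (w.1 * u.2 - w.2 * u.1) ^ 2 = 1 := by
    linear_combination (w.1 ^ 2 + w.2 ^ 2) * hu + hw
  have h1 : (w.1 * u.2 - w.2 * u.1) * (3 - 4 * (w.1 * u.2 - w.2 * u.1) ^ 2) =
      (w.1 ^ 3 - 3 * w.1 * w.2 ^ 2) * (3 * u.1 ^ 2 * u.2 - u.2 ^ 3) -
      (u.1 ^ 3 - 3 * u.1 * u.2 ^ 2) * (3 * w.1 ^ 2 * w.2 - w.2 ^ 3) := by
    linear_combination (-(3 * (w.1 * u.2 - w.2 * u.1))) * h0
  rw [h1, ← S3_unit hu, ← S3_unit hw, ← C3_unit hu, ← C3_unit hw]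
  unfold EE
  rw [sin_om, sin_om]
  unfold nu
  ring

theorem EE_bound {u w : ℝ × ℝ} (hu : u.1 ^ 2 + u.2 ^ 2 = 1) (hw : w.1 ^ 2 + w.2 ^ 2 = 1)
    (hs : 0 ≤ w.1 * u.2 - w.2 * u.1) :
    1 / 20 * |EE u w| ≤ ih / 2 * |w.1 * u.2 - w.2 * u.1 - hh| := by
  have h0 : (u.1 * w.1 + u.2 * w.2) ^ 2 + (w.1 * u.2 - w.2 * u.1) ^ 2 = 1 := by
    linear_combination (w.1 ^ 2 + w.2 ^ 2) * hu + hw
  rw [EE_eq hu hw, abs_neg]
  set s : ℝ := w.1 * u.2 - w.2 * u.1 with hsd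
  have hs1 : s ≤ 1 := by nlinarith
  have e1 : 3 - 4 * s ^ 2 = -(4 * (s + hh) * (s - hh)) := by
    linear_combination -4 * hh_sq
  rw [e1, abs_mul, abs_mul, abs_mul, abs_mul, abs_neg, abs_mul, abs_of_nonneg hs]
  have hpk : |pk (ih * u.2)| * |pk (ih * w.2)| ≤ 1 := by
    calc |pk (ih * u.2)| * |pk (ih * w.2)| ≤ 1 * 1 :=
      mul_le_mul (abs_pk_le _) (abs_pk_le _) (abs_nonneg _) zero_le_one
      _ = 1 := one_mul 1
  have hpk0 : 0 ≤ |pk (ih * u.2)| * |pk (ih * w.2)| := by positivity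
  have h2 : |π * ih / 3| = π * ih / 3 :=
    abs_of_nonneg (by have := pi_pos; have := ih_pos; positivity)
  have hh0 := hh_pos
  have h3 : |4 * (s + hh)| = 4 * (s + hh) := abs_of_nonneg (by linarith)
  rw [h2, h3]
  have hpi := pi_lt_d2
  have h5 : 0 ≤ s * (s + hh) := mul_nonneg hs (by linarith)
  have h6 : s * (s + hh) ≤ 1.8661 := by
    have := hh_lt
    nlinarith
  have h7 : 0 ≤ |s - hh| := abs_nonneg _
  have h8 : π * (|pk (ih * u.2)| * |pk (ih * w.2)|) * (s * (s + hh)) ≤ 3.15 * 1.8661 := by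
    apply mul_le_mul _ h6 h5 (by norm_num)
    calc π * (|pk (ih * u.2)| * |pk (ih * w.2)|) ≤ 3.15 * 1 :=
      mul_le_mul hpi.le hpk hpk0 (by norm_num)
      _ = 3.15 := mul_one _
  have h9 : 0 ≤ ih * |s - hh| := mul_nonneg ih_pos.le h7
  have h10 := mul_le_mul_of_nonneg_left h8 h9
  have e2 : 1 / 20 * (π * ih / 3 * (|pk (ih * u.2)| * |pk (ih * w.2)|) *
      (s * (4 * (s + hh) * |s - hh|))) =
      1 / 15 * (ih * |s - hh| *
        (π * (|pk (ih * u.2)| * |pk (ih * w.2)|) * (s * (s + hh)))) := by ring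
  rw [e2]
  have e3 : ih / 2 * |s - hh| = 1 / 2 * (ih * |s - hh|) := by ring
  rw [e3]
  norm_num at h10 ⊢
  linarith

/-- the path over the left apex -/
theorem path_uu (φ : ℝ) {p q : ℝ × ℝ} (h0 : 0 < ds p q) (h4 : ds p q ≤ 4) :
    gf φ p (p.1 + (uu (q.1 - p.1, q.2 - p.2)).1, p.2 + (uu (q.1 - p.1, q.2 - p.2)).2) +
    gf φ (p.1 + (uu (q.1 - p.1, q.2 - p.2)).1, p.2 + (uu (q.1 - p.1, q.2 - p.2)).2) q =
    gf φ p q + cos (φ - om * (p.2 + q.2)) *
      EE (uu (q.1 - p.1, q.2 - p.2)) (ww (q.1 - p.1, q.2 - p.2)) := by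
  have hU := uu_unit (v := (q.1 - p.1, q.2 - p.2)) h0 h4
  have hW := ww_unit (v := (q.1 - p.1, q.2 - p.2)) h0 h4
  have a1 := uu_add_ww1 (q.1 - p.1, q.2 - p.2)
  have a2 := uu_add_ww2 (q.1 - p.1, q.2 - p.2)
  have hN : Nv (q.1 - p.1, q.2 - p.2) =
      NN (uu (q.1 - p.1, q.2 - p.2)) (ww (q.1 - p.1, q.2 - p.2)) := rfl
  unfold gf
  simp only at a1 a2 ⊢
  rw [hN]
  set u : ℝ × ℝ := uu (q.1 - p.1, q.2 - p.2) with hu
  set w : ℝ × ℝ := ww (q.1 - p.1, q.2 - p.2) with hw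
  have e1 : (p.1 + u.1 - p.1, p.2 + u.2 - p.2) = u := by
    refine Prod.ext ?_ ?_ <;> simp only <;> ring
  have e2 : (q.1 - (p.1 + u.1), q.2 - (p.2 + u.2)) = w := by
    refine Prod.ext ?_ ?_ <;> simp only <;> linarith
  rw [e1, e2, Nv_unit hU, Nv_unit hW]
  have e3 : φ - om * (p.2 + (p.2 + u.2)) = φ - om * (p.2 + q.2) + om * w.2 := by
    linear_combination -om * a2
  have e4 : φ - om * (p.2 + u.2 + q.2) = φ - om * (p.2 + q.2) - om * u.2 := by ring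
  rw [e3, e4]
  generalize φ - om * (p.2 + q.2) = Φ
  rw [sin_add, sin_sub]
  unfold EE NN cc
  ring

/-- the path over the right apex -/
theorem path_ww (φ : ℝ) {p q : ℝ × ℝ} (h0 : 0 < ds p q) (h4 : ds p q ≤ 4) :
    gf φ p (p.1 + (ww (q.1 - p.1, q.2 - p.2)).1, p.2 + (ww (q.1 - p.1, q.2 - p.2)).2) +
    gf φ (p.1 + (ww (q.1 - p.1, q.2 - p.2)).1, p.2 + (ww (q.1 - p.1, q.2 - p.2)).2) q =
    gf φ p q - cos (φ - om * (p.2 + q.2)) *
      EE (uu (q.1 - p.1, q.2 - p.2)) (ww (q.1 - p.1, q.2 - p.2)) := by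
  have hU := uu_unit (v := (q.1 - p.1, q.2 - p.2)) h0 h4
  have hW := ww_unit (v := (q.1 - p.1, q.2 - p.2)) h0 h4
  have a1 := uu_add_ww1 (q.1 - p.1, q.2 - p.2)
  have a2 := uu_add_ww2 (q.1 - p.1, q.2 - p.2)
  have hN : Nv (q.1 - p.1, q.2 - p.2) =
      NN (uu (q.1 - p.1, q.2 - p.2)) (ww (q.1 - p.1, q.2 - p.2)) := rfl
  unfold gf
  simp only at a1 a2 ⊢
  rw [hN]
  set u : ℝ × ℝ := uu (q.1 - p.1, q.2 - p.2) with hu
  set w : ℝ × ℝ := ww (q.1 - p.1, q.2 - p.2) with hw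
  have e1 : (p.1 + w.1 - p.1, p.2 + w.2 - p.2) = w := by
    refine Prod.ext ?_ ?_ <;> simp only <;> ring
  have e2 : (q.1 - (p.1 + w.1), q.2 - (p.2 + w.2)) = u := by
    refine Prod.ext ?_ ?_ <;> simp only <;> linarith
  rw [e1, e2, Nv_unit hU, Nv_unit hW]
  have e3 : φ - om * (p.2 + (p.2 + w.2)) = φ - om * (p.2 + q.2) + om * u.2 := by
    linear_combination -om * a2
  have e4 : φ - om * (p.2 + w.2 + q.2) = φ - om * (p.2 + q.2) - om * w.2 := by ring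
  rw [e3, e4]
  generalize φ - om * (p.2 + q.2) = Φ
  rw [sin_add, sin_sub]
  unfold EE NN cc
  ring

/-- the two apexes -/
theorem apex {p q r : ℝ × ℝ} (h0 : 0 < ds p q) (h4 : ds p q ≤ 4) (hp : ds p r = 1)
    (hq : ds q r = 1) :
    r = (p.1 + (uu (q.1 - p.1, q.2 - p.2)).1, p.2 + (uu (q.1 - p.1, q.2 - p.2)).2) ∨
    r = (p.1 + (ww (q.1 - p.1, q.2 - p.2)).1, p.2 + (ww (q.1 - p.1, q.2 - p.2)).2) := by
  have hr := rho_sq (v := (q.1 - p.1, q.2 - p.2)) h0 h4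
  unfold ds at h0 h4 hp hq
  simp only [uu, ww] at hr ⊢
  generalize rho (q.1 - p.1, q.2 - p.2) = ρ at hr
  set x : ℝ := q.1 - p.1 with hx
  set y : ℝ := q.2 - p.2 with hy
  set a : ℝ := r.1 - p.1 with ha
  set b : ℝ := r.2 - p.2 with hb
  have e1 : r.1 - q.1 = a - x := by rw [ha, hx]; ring
  have e2 : r.2 - q.2 = b - y := by rw [hb, hy]; ring
  rw [e1, e2] at hq
  have hdot : a * x + b * y = (x ^ 2 + y ^ 2) / 2 := by linarith
  have hc : (x * b - y * a) ^ 2 = (ρ * (x ^ 2 + y ^ 2)) ^ 2 := by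
    have e3 : (x * b - y * a) ^ 2 = (a ^ 2 + b ^ 2) * (x ^ 2 + y ^ 2) - (a * x + b * y) ^ 2 := by
      ring
    rw [e3, hp, hdot]
    linear_combination -(x ^ 2 + y ^ 2) * hr
  have hS : x ^ 2 + y ^ 2 ≠ 0 := h0.ne'
  rcases sq_eq_sq_iff_eq_or_eq_neg.1 hc with h | h
  · left
    refine Prod.ext ?_ ?_
    · have h5 : (x ^ 2 + y ^ 2) * (a - (x / 2 - ρ * y)) = 0 := by
        linear_combination x * hdot - y * h
      have h6 := (mul_eq_zero.1 h5).resolve_left hS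
      simp only
      linarith
    · have h5 : (x ^ 2 + y ^ 2) * (b - (y / 2 + ρ * x)) = 0 := by
        linear_combination y * hdot + x * h
      have h6 := (mul_eq_zero.1 h5).resolve_left hS
      simp only
      linarith
  · right
    refine Prod.ext ?_ ?_
    · have h5 : (x ^ 2 + y ^ 2) * (a - (x / 2 + ρ * y)) = 0 := by
        linear_combination x * hdot - y * h
      have h6 := (mul_eq_zero.1 h5).resolve_left hS
      simp only
      linarith
    · have h5 : (x ^ 2 + y ^ 2) * (b - (y / 2 - ρ * x)) = 0 := by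
        linear_combination y * hdot + x * h
      have h6 := (mul_eq_zero.1 h5).resolve_left hS
      simp only
      linarith

/-- triangles with two unit sides -/
theorem good_two {p q r : ℝ × ℝ} (h1 : 1 ≤ ds p q) (h3 : ds p q ≤ 3) (hp : ds p r = 1)
    (hq : ds q r = 1) : Good p q r := by
  have h0 : 0 < ds p q := by linarith
  have h4 : ds p q ≤ 4 := by linarith
  have h4' : ds p q < 4 := by linarith
  intro φ
  have hU := uu_unit (v := (q.1 - p.1, q.2 - p.2)) h0 h4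
  have hW := ww_unit (v := (q.1 - p.1, q.2 - p.2)) h0 h4
  have hcr := cross_uw (q.1 - p.1, q.2 - p.2)
  have hdot := dot_uw (v := (q.1 - p.1, q.2 - p.2)) h0 h4
  have hρ := rho_pos (v := (q.1 - p.1, q.2 - p.2)) h0 h4'
  have p1 := path_uu φ h0 h4
  have p2 := path_ww φ h0 h4
  have a1 := uu_add_ww1 (q.1 - p.1, q.2 - p.2)
  have a2 := uu_add_ww2 (q.1 - p.1, q.2 - p.2)
  have hds : ds p q = (q.1 - p.1) ^ 2 + (q.2 - p.2) ^ 2 := rfl
  simp only at hcr hdot a1 a2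
  rw [← hds] at hcr hdot
  rcases apex h0 h4 hp hq with hr | hr
  · set u : ℝ × ℝ := uu (q.1 - p.1, q.2 - p.2) with hu
    set w : ℝ × ℝ := ww (q.1 - p.1, q.2 - p.2) with hw
    have hs : 0 < w.1 * u.2 - w.2 * u.1 := by
      rw [hcr]
      exact mul_pos hρ h0
    have hE := EE_bound hU hW hs.le
    have hs2 : (w.1 * u.2 - w.2 * u.1) ^ 2 = 1 - (u.1 * w.1 + u.2 * w.2) ^ 2 := by
      linear_combination (w.1 ^ 2 + w.2 ^ 2) * hU + hW
    have hsh : hh ≤ w.1 * u.2 - w.2 * u.1 := by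
      apply sq_le_aux _ hs.le
      rw [hs2, hdot, hh_sq]
      nlinarith
    rw [abs_of_nonneg (sub_nonneg.2 hsh)] at hE
    have ecr : cr p q r = w.1 * u.2 - w.2 * u.1 := by
      rw [hr]
      unfold cr
      simp only
      rw [← a1, ← a2]
      ring
    have efl : fl φ p q r = -(cos (φ - om * (p.2 + q.2)) * EE u w) := by
      unfold fl
      rw [gf_symm φ r q, gf_symm φ p r, hr]
      linarith [p1]
    have hcos : |cos (φ - om * (p.2 + q.2))| ≤ 1 := abs_cos_le_one _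
    have hfl : |fl φ p q r| ≤ |EE u w| := by
      rw [efl, abs_neg, abs_mul]
      exact mul_le_of_le_one_left (abs_nonneg _) hcos
    rw [ecr, abs_of_nonneg hs.le]
    have := ih_hh
    linarith
  · set u : ℝ × ℝ := uu (q.1 - p.1, q.2 - p.2) with hu
    set w : ℝ × ℝ := ww (q.1 - p.1, q.2 - p.2) with hw
    have hs : 0 < w.1 * u.2 - w.2 * u.1 := by
      rw [hcr]
      exact mul_pos hρ h0
    have hE := EE_bound hU hW hs.le
    have hs2 : (w.1 * u.2 - w.2 * u.1) ^ 2 = 1 - (u.1 * w.1 + u.2 * w.2) ^ 2 := by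
      linear_combination (w.1 ^ 2 + w.2 ^ 2) * hU + hW
    have hsh : hh ≤ w.1 * u.2 - w.2 * u.1 := by
      apply sq_le_aux _ hs.le
      rw [hs2, hdot, hh_sq]
      nlinarith
    rw [abs_of_nonneg (sub_nonneg.2 hsh)] at hE
    have ecr : cr p q r = -(w.1 * u.2 - w.2 * u.1) := by
      rw [hr]
      unfold cr
      simp only
      rw [← a1, ← a2]
      ring
    have efl : fl φ p q r = cos (φ - om * (p.2 + q.2)) * EE u w := by
      unfold fl
      rw [gf_symm φ r q, gf_symm φ p r, hr]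
      linarith [p2]
    have hcos : |cos (φ - om * (p.2 + q.2))| ≤ 1 := abs_cos_le_one _
    have hfl : |fl φ p q r| ≤ |EE u w| := by
      rw [efl, abs_mul]
      exact mul_le_of_le_one_left (abs_nonneg _) hcos
    rw [ecr, abs_neg, abs_of_nonneg hs.le]
    have := ih_hh
    linarith

end Pool.Agent.StripSin
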