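import Pool.Agent.StripSin.Big

/-! # The wall inequality -/

set_option autoImplicit false

open Real Set

namespace Pool.Agent.StripSin

theorem sin_ge_cube {x : ℝ} (hx : 0 ≤ x) : x - x ^ 3 / 6 ≤ sin x := by
  rcases hx.eq_or_lt with h | h
  · rw [← h]
    simp
  · exact (sin_gt_sub_cube h).le

/-- the first half of the unit arc -/
theorem wall_w0 {θ : ℝ} (h0 : 0 ≤ θ) (h1 : θ ≤ 0.5237) :
    0.3 * θ ≤ cos θ * (1 / 2 + ih / 2 * sin θ) - 1 / 2 := by
  have c1 := one_sub_sq_div_two_le_cos (x := θ)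
  have s1 := sin_ge_cube h0
  have hih := ih_gt'
  have c0 : 0 ≤ 1 - θ ^ 2 / 2 := by nlinarith
  have s0 : 0 ≤ θ - θ ^ 3 / 6 := by
    have : θ - θ ^ 3 / 6 = θ * (1 - θ ^ 2 / 6) := by ring
    rw [this]
    exact mul_nonneg h0 (by nlinarith)
  have k1 : (1 - θ ^ 2 / 2) * (θ - θ ^ 3 / 6) ≤ cos θ * sin θ :=
    mul_le_mul c1 s1 s0 (c0.trans c1)
  have k2 : 0 ≤ (1 - θ ^ 2 / 2) * (θ - θ ^ 3 / 6) := mul_nonneg c0 s0
  have k3 : 1.1547 / 2 * ((1 - θ ^ 2 / 2) * (θ - θ ^ 3 / 6)) ≤ ih / 2 * (cos θ * sin θ) :=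
    mul_le_mul (by linarith) k1 k2 (by linarith)
  have k4 : 0 ≤ θ * (1.1547 / 2 * ((1 - θ ^ 2 / 2) * (1 - θ ^ 2 / 6)) - θ / 4 - 0.3) := by
    apply mul_nonneg h0
    have a1 : θ ^ 2 ≤ 0.2743 := by nlinarith
    have a2 : 0.8628 ≤ 1 - θ ^ 2 / 2 := by linarith
    have a3 : 0.9542 ≤ 1 - θ ^ 2 / 6 := by linarith
    have a4 : 0.8628 * 0.9542 ≤ (1 - θ ^ 2 / 2) * (1 - θ ^ 2 / 6) :=
      mul_le_mul a2 a3 (by norm_num) (by linarith)
    linarith
  nlinarith

/-- the second half of the unit arc -/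
theorem wall_w1 {τ : ℝ} (h0 : 0 ≤ τ) (h1 : τ ≤ 0.5237) :
    0.3 * τ ≤ (cos τ / 2 + hh * sin τ) * (1 / 2 + ih / 2 * (hh * cos τ - sin τ / 2)) - 1 / 2 := by
  have c1 := one_sub_sq_div_two_le_cos (x := τ)
  have c2 := cos_le_one τ
  have s1 := sin_ge_cube h0
  have hih := ih_gt'
  have hsc := sin_sq_add_cos_sq τ
  have e1 : hh = 3 / 4 * ih := by
    have h2 := ih_hh
    have h3 := ih_sq
    have h4 := ih_pos
    apply mul_left_cancel₀ h4.ne'
    rw [h2]
    linear_combination -(3 / 4 : ℝ) * h3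
  have e2 : (cos τ / 2 + hh * sin τ) * (1 / 2 + ih / 2 * (hh * cos τ - sin τ / 2)) - 1 / 2 =
      (cos τ - 1) * (2 * cos τ + 3) / 4 + ih * (sin τ * (3 / 8 + cos τ / 4)) := by
    rw [e1]
    linear_combination (3 / 16 * cos τ ^ 2 + 9 / 32 * ih * cos τ * sin τ -
      3 / 16 * sin τ ^ 2) * ih_sq - (1 / 4 : ℝ) * hsc
  rw [e2]
  have c0 : 0 ≤ 1 - τ ^ 2 / 2 := by nlinarith
  have s0 : 0 ≤ τ - τ ^ 3 / 6 := by
    have : τ - τ ^ 3 / 6 = τ * (1 - τ ^ 2 / 6) := by ring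
    rw [this]
    exact mul_nonneg h0 (by nlinarith)
  have k1 : -(5 / 8 * τ ^ 2) ≤ (cos τ - 1) * (2 * cos τ + 3) / 4 := by nlinarith
  have k2 : (τ - τ ^ 3 / 6) * (5 / 8 - τ ^ 2 / 8) ≤ sin τ * (3 / 8 + cos τ / 4) :=
    mul_le_mul s1 (by linarith) (by nlinarith) (s0.trans s1)
  have k2' : 0 ≤ (τ - τ ^ 3 / 6) * (5 / 8 - τ ^ 2 / 8) := mul_nonneg s0 (by nlinarith)
  have k3 : 1.1547 * ((τ - τ ^ 3 / 6) * (5 / 8 - τ ^ 2 / 8)) ≤
      ih * (sin τ * (3 / 8 + cos τ / 4)) :=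
    mul_le_mul hih.le k2 k2' (by linarith)
  have k4 : 0 ≤ τ * (1.1547 * ((1 - τ ^ 2 / 6) * (5 / 8 - τ ^ 2 / 8)) - 5 / 8 * τ - 0.3) := by
    apply mul_nonneg h0
    have a1 : τ ^ 2 ≤ 0.2743 := by nlinarith
    have a2 : 0.9542 ≤ 1 - τ ^ 2 / 6 := by linarith
    have a3 : 0.5907 ≤ 5 / 8 - τ ^ 2 / 8 := by linarith
    have a4 : 0.9542 * 0.5907 ≤ (1 - τ ^ 2 / 6) * (5 / 8 - τ ^ 2 / 8) :=
      mul_le_mul a2 a3 (by norm_num) (by linarith)
    linarith
  nlinarith

theorem Nv_one_zero : Nv (1, 0) = 1 := by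
  rw [Nv_unit (by norm_num)]
  unfold nu
  simp [pk_zero]

theorem Nv_corner : Nv (1 / 2, hh) = -(1 / 2) := by
  have h := hh_sq
  rw [Nv_unit (by simp only; rw [h]; norm_num)]
  have h2 := nu_r ih_hh h (1 / 2) 1
  rw [one_mul, pk_one] at h2
  rw [h2]
  norm_num

/-- the value at a wall -/
noncomputable def WW (ψ X Y m : ℝ) : ℝ :=
  X * (1 / 2 - 1 / 20 * sin ψ + ih * m) + 1 / 20 * (sin (ψ - om * (2 * m)) * Nv (X, Y))

theorem wall_unit {ψ θ : ℝ} (hψ : 0 ≤ sin ψ) (h0 : 0 ≤ θ) (h1 : θ ≤ π / 3) :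
    1 / 2 ≤ WW ψ (cos θ) (sin θ) (sin θ / 2) := by
  have hpi := pi_lt_d4
  have hpi' := pi_gt_d4
  have hgr : ∀ t : ℝ, Grad 5 (cos t, sin t) := by
    intro t
    have h := sin_sq_add_cos_sq t
    apply grad_a
    · simp only
      linarith
    · simp only
      linarith
  have hs1 := sin_le_one ψ
  have e0 : ψ - om * (2 * (sin θ / 2)) = ψ - om * (0 + sin θ) := by ring
  unfold WW
  rw [e0]
  rcases le_total θ (π / 6) with h | h
  · have l := lip_path (x := cos) (y := sin) (ex := fun t => -sin t) (ey := cos) (φ := ψ)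
      (c := 0) (G := 5) (V := 1) (a := 0) (b := θ) (by norm_num) zero_le_one h0
      (fun t _ _ => hasDerivAt_cos t) (fun t _ _ => hasDerivAt_sin t) (fun t _ _ => hgr t)
      (fun t _ _ => by
        have := sin_sq_add_cos_sq t
        simp only [neg_sq]
        linarith)
    rw [cos_zero, sin_zero, Nv_one_zero] at l
    simp only [add_zero, mul_zero, sub_zero, mul_one] at l
    have w := wall_w0 h0 (by linarith)
    have c1 := one_sub_sq_div_two_le_cos (x := θ)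
    have c2 := cos_le_one θ
    set g : ℝ := sin (ψ - om * (0 + sin θ)) * Nv (cos θ, sin θ) with hg
    have k1 := (abs_le.1 l).1
    have k2 : (1 - cos θ) * sin ψ ≤ θ ^ 2 / 2 := by nlinarith
    have k3 : θ ^ 2 / 2 ≤ 0.3 * θ := by nlinarith
    have k4 : 0 ≤ (1 - cos θ) * sin ψ := mul_nonneg (by linarith) hψ
    nlinarith
  · set τ : ℝ := π / 3 - θ with hτ
    have hτ0 : 0 ≤ τ := by rw [hτ]; linarith
    have l := lip_path (x := cos) (y := sin) (ex := fun t => -sin t) (ey := cos) (φ := ψ)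
      (c := 0) (G := 5) (V := 1) (a := θ) (b := π / 3) (by norm_num) zero_le_one h1
      (fun t _ _ => hasDerivAt_cos t) (fun t _ _ => hasDerivAt_sin t) (fun t _ _ => hgr t)
      (fun t _ _ => by
        have := sin_sq_add_cos_sq t
        simp only [neg_sq]
        linarith)
    have es : sin (π / 3) = hh := by rw [sin_pi_div_three]; rfl
    have e1 : ψ - om * (0 + hh) = ψ - π := by
      rw [om_eq]
      linear_combination -π * ih_hh
    rw [es, cos_pi_div_three, Nv_corner, e1, sin_sub_pi] at l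
    have hθ : θ = π / 3 - τ := by rw [hτ]; ring
    have ec : cos θ = cos τ / 2 + hh * sin τ := by
      rw [hθ, cos_sub, cos_pi_div_three, es]
      ring
    have esn : sin θ = hh * cos τ - sin τ / 2 := by
      rw [hθ, sin_sub, cos_pi_div_three, es]
      ring
    have w := wall_w1 hτ0 (by rw [hτ]; linarith)
    rw [← ec, ← esn] at w
    have c1 : |cos θ - 1 / 2| ≤ τ := by
      have := abs_cos_sub_cos_le θ (π / 3)
      rw [cos_pi_div_three, abs_sub_comm θ, abs_of_nonneg (by linarith : 0 ≤ π / 3 - θ)] at this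
      exact this
    set g : ℝ := sin (ψ - om * (0 + sin θ)) * Nv (cos θ, sin θ) with hg
    have k1 := (abs_le.1 l).2
    have k2 := (abs_le.1 c1).2
    have k3 := (abs_le.1 c1).1
    have k4 : |(cos θ - 1 / 2) * sin ψ| ≤ τ := by
      rw [abs_mul, abs_of_nonneg hψ]
      calc |cos θ - 1 / 2| * sin ψ ≤ τ * 1 := mul_le_mul c1 hs1 hψ hτ0
        _ = τ := mul_one τ
    have k5 := (abs_le.1 k4).2
    rw [← hτ] at k1
    nlinarith

/-- unit edges, coordinates -/
theorem wall_unit' {ψ X Y : ℝ} (hψ : 0 ≤ sin ψ) (hX : 1 / 2 ≤ X) (hY : 0 ≤ Y)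
    (h : X ^ 2 + Y ^ 2 = 1) : 1 / 2 ≤ WW ψ X Y (Y / 2) := by
  have hY1 : Y ≤ 1 := by nlinarith
  have hs : sin (arcsin Y) = Y := sin_arcsin (by linarith) hY1
  have hc : cos (arcsin Y) = X := by
    rw [cos_arcsin]
    have : 1 - Y ^ 2 = X ^ 2 := by linarith
    rw [this]
    exact Real.sqrt_sq (by linarith)
  have h0 : 0 ≤ arcsin Y := arcsin_nonneg.2 hY
  have h1 : arcsin Y ≤ π / 3 := by
    by_contra hcon
    push Not at hcon
    have h2 := arcsin_le_pi_div_two Y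
    have hpi := pi_pos
    have h3 := cos_lt_cos_of_nonneg_of_le_pi (x := π / 3) (y := arcsin Y) (by linarith)
      (by linarith) hcon
    rw [cos_pi_div_three, hc] at h3
    linarith
  have := wall_unit hψ h0 h1
  rwa [hc, hs] at this

/-- raising a unit edge -/
theorem wall_raise {ψ X Y m : ℝ} (hψ : 0 ≤ sin ψ) (hX : 1 / 2 ≤ X) (hY : 0 ≤ Y)
    (h : X ^ 2 + Y ^ 2 = 1) (hm : Y / 2 ≤ m) : 1 / 2 ≤ WW ψ X Y m := by
  have h0 := wall_unit' hψ hX hY h
  have hN : |Nv (X, Y)| ≤ 2 * X := by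
    rw [Nv_unit h]
    unfold nu
    rw [abs_mul, abs_mul, abs_of_nonneg (by linarith : 0 ≤ X)]
    have h1 : |1 - 4 * Y ^ 2| ≤ 2 := by
      rw [abs_le]
      constructor <;> nlinarith
    have h2 : |1 - 4 * Y ^ 2| * |pk (ih * Y)| ≤ 2 * 1 :=
      mul_le_mul h1 (abs_pk_le _) (abs_nonneg _) (by norm_num)
    have h3 := mul_le_mul_of_nonneg_left h2 (by linarith : 0 ≤ X)
    simp only
    linarith
  have h4 : |sin (ψ - om * (2 * m)) - sin (ψ - om * (2 * (Y / 2)))| ≤ 2 * om * (m - Y / 2) := by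
    refine (abs_sin_sub_sin_le _ _).trans ?_
    have e : ψ - om * (2 * m) - (ψ - om * (2 * (Y / 2))) = -(2 * om * (m - Y / 2)) := by ring
    rw [e, abs_neg, abs_of_nonneg]
    exact mul_nonneg (mul_nonneg (by norm_num) om_pos.le) (by linarith)
  have h5 : |(sin (ψ - om * (2 * m)) - sin (ψ - om * (2 * (Y / 2)))) * Nv (X, Y)| ≤
      2 * om * (m - Y / 2) * (2 * X) := by
    rw [abs_mul]
    exact mul_le_mul h4 hN (abs_nonneg _)
      (mul_nonneg (mul_nonneg (by norm_num) om_pos.le) (by linarith))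
  have h6 := (abs_le.1 h5).1
  have h7 : om / 5 ≤ ih := by
    have := om_lt
    have := ih_gt
    linarith
  have h8 : om / 5 * (X * (m - Y / 2)) ≤ ih * (X * (m - Y / 2)) :=
    mul_le_mul_of_nonneg_right h7 (mul_nonneg (by linarith) (by linarith))
  unfold WW at h0 ⊢
  linarith

/-- moving from one vector to another one at fixed height of the lower endpoint -/
theorem wall_move {ψ X0 Y0 X Y b ℓ : ℝ} (hX : X0 ≤ X) (hY : Y0 ≤ Y) (hX0 : 0 ≤ X0)
    (hY0 : 0 ≤ Y0) (h1 : 1 ≤ X0 ^ 2 + Y0 ^ 2) (h3 : X ^ 2 + Y ^ 2 ≤ 3) (hℓ : 0 ≤ ℓ)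
    (hd : (X - X0) ^ 2 + (Y - Y0) ^ 2 ≤ ℓ ^ 2) :
    |sin (ψ - om * (2 * (b + Y / 2))) * Nv (X, Y) -
      sin (ψ - om * (2 * (b + Y0 / 2))) * Nv (X0, Y0)| ≤ 6.4 * ℓ := by
  have l := lip_path (x := fun t => X0 + t * (X - X0)) (y := fun t => Y0 + t * (Y - Y0))
    (ex := fun _ => X - X0) (ey := fun _ => Y - Y0) (φ := ψ) (c := 2 * b) (G := 6.4) (V := ℓ)
    (a := 0) (b := 1) (by norm_num) hℓ zero_le_one
    (fun s _ _ => by
      have := ((hasDerivAt_id s).mul_const (X - X0)).const_add X0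
      simpa using this)
    (fun s _ _ => by
      have := ((hasDerivAt_id s).mul_const (Y - Y0)).const_add Y0
      simpa using this)
    (fun t ht0 ht1 => by
      have a1 : 0 ≤ t * (X - X0) := mul_nonneg ht0 (by linarith)
      have a2 : t * (X - X0) ≤ X - X0 := mul_le_of_le_one_left (by linarith) ht1
      have a3 : 0 ≤ t * (Y - Y0) := mul_nonneg ht0 (by linarith)
      have a4 : t * (Y - Y0) ≤ Y - Y0 := mul_le_of_le_one_left (by linarith) ht1
      have b1 : X0 ^ 2 ≤ (X0 + t * (X - X0)) ^ 2 := pow_le_pow_left₀ hX0 (by linarith) 2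
      have b2 : Y0 ^ 2 ≤ (Y0 + t * (Y - Y0)) ^ 2 := pow_le_pow_left₀ hY0 (by linarith) 2
      have b3 : (X0 + t * (X - X0)) ^ 2 ≤ X ^ 2 := pow_le_pow_left₀ (by linarith) (by linarith) 2
      have b4 : (Y0 + t * (Y - Y0)) ^ 2 ≤ Y ^ 2 := pow_le_pow_left₀ (by linarith) (by linarith) 2
      apply grad_b
      · simp only
        linarith
      · simp only
        linarith)
    (fun t _ _ => hd)
  simp only [one_mul, zero_mul, add_zero, sub_zero, mul_one] at l
  have e1 : X0 + (X - X0) = X := by ring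
  have e2 : Y0 + (Y - Y0) = Y := by ring
  rw [e1, e2] at l
  have e3 : 2 * (b + Y / 2) = 2 * b + Y := by ring
  have e4 : 2 * (b + Y0 / 2) = 2 * b + Y0 := by ring
  rw [e3, e4]
  exact l

/-- the wall inequality -/
theorem wall {ψ X Y m : ℝ} (hψ : 0 ≤ sin ψ) (hX : 0 ≤ X) (hY : 0 ≤ Y)
    (h1 : 1 ≤ X ^ 2 + Y ^ 2) (hm : Y / 2 ≤ m) (hb : X ^ 2 + 2 * Y * m ≤ 2 * X) :
    1 / 2 ≤ WW ψ X Y m := by
  have hs1 := sin_le_one ψ
  have hih := ih_gt'
  have hb' : X ^ 2 + Y ^ 2 ≤ 2 * X := by nlinarith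
  have hX2 : X ≤ 2 := by nlinarith
  rcases le_or_gt (4 / 3) X with hc | hc
  · have hN : |Nv (X, Y)| ≤ 2 := abs_Nv_le (v := (X, Y)) (by simp only; linarith)
      (by simp only; linarith)
    have hN2 : |sin (ψ - om * (2 * m)) * Nv (X, Y)| ≤ 2 := by
      rw [abs_mul]
      calc |sin (ψ - om * (2 * m))| * |Nv (X, Y)| ≤ 1 * 2 :=
            mul_le_mul (abs_sin_le_one _) hN (abs_nonneg _) zero_le_one
        _ = 2 := one_mul 2
    have h2 := (abs_le.1 hN2).1
    have h3 : X * sin ψ ≤ X := mul_le_of_le_one_right hX hs1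
    have h4 : 0 ≤ X * (ih * m) := mul_nonneg hX (mul_nonneg ih_pos.le (by linarith))
    unfold WW
    linarith
  · rcases le_or_gt Y hh with hYh | hYh
    · -- horizontal move from the unit circle
      have hY2 : Y ^ 2 ≤ 3 / 4 := by
        rw [← hh_sq]
        exact pow_le_pow_left₀ hY hYh 2
      set X0 : ℝ := √(1 - Y ^ 2) with hX0
      have hX0sq : X0 ^ 2 = 1 - Y ^ 2 := Real.sq_sqrt (by linarith)
      have hX00 : 0 ≤ X0 := Real.sqrt_nonneg _
      have hX0h : 1 / 2 ≤ X0 := sq_le_aux (by rw [hX0sq]; linarith) hX00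
      have hX0X : X0 ≤ X := sq_le_aux (by rw [hX0sq]; linarith) hX
      have w := wall_raise hψ hX0h hY (by rw [hX0sq]; ring) hm
      have l := wall_move (ψ := ψ) (X0 := X0) (Y0 := Y) (X := X) (Y := Y) (b := m - Y / 2)
        (ℓ := X - X0) hX0X le_rfl hX00 hY (by rw [hX0sq]; linarith) (by linarith)
        (by linarith) (by rw [sub_self]; linarith)
      have e : m - Y / 2 + Y / 2 = m := by ring
      rw [e] at l
      have l1 := (abs_le.1 l).1
      have h3 : (X - X0) * sin ψ ≤ X - X0 := mul_le_of_le_one_right (by linarith) hs1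
      have h4 : 0 ≤ (X - X0) * (ih * m) :=
        mul_nonneg (by linarith) (mul_nonneg ih_pos.le (by linarith))
      unfold WW at w ⊢
      linarith
    · -- move from the corner
      have hh0 := hh_pos
      have hhs := hh_sq
      have hhl := hh_gt
      have k1 : (X - 1 / 2) ^ 2 + (Y - hh) ^ 2 + 2 * hh * (Y - hh) ≤ X - 1 / 2 := by
        nlinarith
      have hdy : 0 ≤ Y - hh := by linarith
      have k2 : 2 * hh * (Y - hh) ≤ X - 1 / 2 := by nlinarith
      have hdx : 0 ≤ X - 1 / 2 := le_trans (mul_nonneg (by linarith) hdy) k2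
      have k3 : 1.732 * (Y - hh) ≤ X - 1 / 2 := by nlinarith
      have w := wall_raise (ψ := ψ) (X := 1 / 2) (Y := hh) (m := m - (Y - hh) / 2) hψ le_rfl
        hh0.le (by rw [hhs]; norm_num) (by linarith)
      have l := wall_move (ψ := ψ) (X0 := 1 / 2) (Y0 := hh) (X := X) (Y := Y) (b := m - Y / 2)
        (ℓ := 1.2 * (X - 1 / 2)) (by linarith) hYh.le (by norm_num) hh0.le
        (by rw [hhs]; norm_num) (by linarith) (by linarith) (by nlinarith)
      have e : m - Y / 2 + Y / 2 = m := by ring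
      have e' : m - Y / 2 + hh / 2 = m - (Y - hh) / 2 := by ring
      rw [e, e'] at l
      have l1 := (abs_le.1 l).1
      have h3 : (X - 1 / 2) * sin ψ ≤ X - 1 / 2 := mul_le_of_le_one_right (by linarith) hs1
      have h4 : 1 / 2 ≤ ih * m := by
        have h5 : hh / 2 ≤ m := by linarith
        have h6 := mul_le_mul_of_nonneg_left h5 ih_pos.le
        have h7 := ih_hh
        linarith
      have h5 : (X - 1 / 2) * (1 / 2) ≤ (X - 1 / 2) * (ih * m) :=
        mul_le_mul_of_nonneg_left h4 hdx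
      have h6 : 0 ≤ ih * (Y - hh) := mul_nonneg ih_pos.le hdy
      unfold WW at w ⊢
      have e3 : ih * (m - (Y - hh) / 2) = ih * m - ih * (Y - hh) / 2 := by ring
      rw [e3] at w
      linarith

end Pool.Agent.StripSin
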